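import Pool.Agent.Q126.MD.Stmts2

/-! MP_50360a_an: assembly of the tasks. -/

namespace Q126.MD

open MeasureTheory Set

noncomputable section

theorem hsum_small (h2 : ∀ α : ℝ, 0 < α → α ≤ 0.69 → h α ≤ -(1 / 3 - c0 / 2) * α)
    (h3 : ∀ ε : ℝ, 0 ≤ ε → ε < Real.pi / 2 → h (Real.pi / 2 - ε) ≤ (1 / 3 - c0 / 2) * ε)
    (α β γ : ℝ) (hα : 0 < α) (hβ : 0 < β) (hγ : 0 < γ) (hα' : α ≤ 0.69) (hβ' : β ≤ Real.pi / 2)
    (hγ' : γ ≤ Real.pi / 2) (hs : α + β + γ = Real.pi) : h α + h β + h γ ≤ 0 := by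
  have a1 := h2 α hα hα'
  have a2 := h3 (Real.pi / 2 - β) (by linarith) (by linarith)
  have a3 := h3 (Real.pi / 2 - γ) (by linarith) (by linarith)
  have e2 : Real.pi / 2 - (Real.pi / 2 - β) = β := by ring
  have e3 : Real.pi / 2 - (Real.pi / 2 - γ) = γ := by ring
  rw [e2] at a2
  rw [e3] at a3
  have : -(1 / 3 - c0 / 2) * α + (1 / 3 - c0 / 2) * (Real.pi / 2 - β) +
      (1 / 3 - c0 / 2) * (Real.pi / 2 - γ) = 0 := by
    rw [← hs]; ring
  linarith

theorem hsum (h1 : ∀ α : ℝ, 0.69 ≤ α → α ≤ Real.pi / 2 → h α ≤ (5 / 8 * c0 - 1 / 3) * (α - Real.pi / 3))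
    (h2 : ∀ α : ℝ, 0 < α → α ≤ 0.69 → h α ≤ -(1 / 3 - c0 / 2) * α)
    (h3 : ∀ ε : ℝ, 0 ≤ ε → ε < Real.pi / 2 → h (Real.pi / 2 - ε) ≤ (1 / 3 - c0 / 2) * ε) :
    ∀ α β γ : ℝ, 0 < α → 0 < β → 0 < γ → α ≤ Real.pi / 2 → β ≤ Real.pi / 2 → γ ≤ Real.pi / 2 →
    α + β + γ = Real.pi → h α + h β + h γ ≤ 0 := by
  intro α β γ hα hβ hγ hα' hβ' hγ' hs
  rcases le_or_gt α 0.69 with c | c
  · exact hsum_small h2 h3 α β γ hα hβ hγ c hβ' hγ' hs
  rcases le_or_gt β 0.69 with d | d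
  · have := hsum_small h2 h3 β γ α hβ hγ hα d hγ' hα' (by linarith)
    linarith
  rcases le_or_gt γ 0.69 with e | e
  · have := hsum_small h2 h3 γ α β hγ hα hβ e hα' hβ' (by linarith)
    linarith
  have b1 := h1 α c.le hα'
  have b2 := h1 β d.le hβ'
  have b3 := h1 γ e.le hγ'
  have : (5 / 8 * c0 - 1 / 3) * (α - Real.pi / 3) + (5 / 8 * c0 - 1 / 3) * (β - Real.pi / 3) +
      (5 / 8 * c0 - 1 / 3) * (γ - Real.pi / 3) = 0 := by
    have : γ = Real.pi - α - β := by linarith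
    rw [this]; ring
  linarith

/-- all inscribed triangles -/
theorem good_all (G0 : TaskG0) (GJensen : TaskGJensen) (I1 : TaskI1) (I2 : TaskI2) (I3 : TaskI3)
    (RightInt : TaskRightInt) (RightHull : TaskRightHull) (Iso : TaskIso) (Vol : TaskVol)
    (Isosceles : TaskIsosceles) (Split : TaskSplit) (Centre : TaskCentre) (Area : TaskArea) (Acute : TaskAcute)
    (Stretch : TaskStretch) (ObtuseNormal : TaskObtuseNormal) (Obtuse : TaskObtuse) (Order : TaskOrder)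
    (All : TaskAll) :
    ∀ (z a b c : ℂ) (R : ℝ), ‖a - z‖ = R → ‖b - z‖ = R → ‖c - z‖ = R →
    a ≠ b → b ≠ c → c ≠ a → Good a b c R := by
  have A := Acute Isosceles RightInt RightHull Iso Split Centre Area Vol
    (hsum (I1 G0) (I2 GJensen) (I3 GJensen))
  exact All Order A (Obtuse Iso (ObtuseNormal Stretch Iso A))

/-- the upper bound -/
theorem upper (All : ∀ (z a b c : ℂ) (R : ℝ), ‖a - z‖ = R → ‖b - z‖ = R → ‖c - z‖ = R →
    a ≠ b → b ≠ c → c ≠ a → Good a b c R) (Cover : TaskCover) (Unique : TaskUnique) (Null : TaskNull)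
    (Net : TaskNet) (Corner : TaskCorner) (Fraction : TaskFraction) (Bdist : TaskBdist) (SetupT : TaskSetup)
    (Hull : TaskHull) (Radius : TaskRadius) (Outside : TaskOutside) (PerTri : TaskPerTri) (Sum : TaskSum)
    (Limit : TaskLimit) (Upper : TaskUpper) :
    ∀ Ω : Set ℂ, IsOpen Ω → Bornology.IsBounded Ω → Ω.Nonempty → F Ω ≤ c0 := by
  refine Upper Bdist (Limit (SetupT Net) ?_)
  intro Ω B ρ δ η S n hS hn hη hle
  exact Sum Hull Cover Unique Null Ω B ρ δ _ S hS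
    (PerTri Radius Outside Corner Fraction All Ω B ρ δ η S n hS hn hη hle)

/-- the lower bound -/
theorem lower (G0 : TaskG0) (RightInt : TaskRightInt) (RightHull : TaskRightHull) (Iso : TaskIso)
    (Bdist : TaskBdist) (LCover : TaskLCover) (LNearest : TaskLNearest) (LEquil : TaskLEquil)
    (LCell : TaskLCell) (LTile : TaskLTile) (LBall : TaskLBall) :
    ∀ N : ℝ, 5 ≤ N → ∃ Ω : Set ℂ, IsOpen Ω ∧ Bornology.IsBounded Ω ∧ Ω.Nonempty ∧
    c0 * ((N - 4) ^ 2 / N ^ 2) ≤ F Ω :=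
  LBall Bdist LCover (LTile (LCell LNearest Iso (LEquil G0 RightInt RightHull Iso)))

/-- the main theorem from both bounds -/
theorem final (Transfer : TaskTransfer)
    (U : ∀ Ω : Set ℂ, IsOpen Ω → Bornology.IsBounded Ω → Ω.Nonempty → F Ω ≤ c0)
    (L : ∀ N : ℝ, 5 ≤ N → ∃ Ω : Set ℂ, IsOpen Ω ∧ Bornology.IsBounded Ω ∧ Ω.Nonempty ∧
      c0 * ((N - 4) ^ 2 / N ^ 2) ≤ F Ω) :
    IsLUB {y : ℝ | ∃ Ω : Set (EuclideanSpace ℝ (Fin 2)), IsOpen Ω ∧ Bornology.IsBounded Ω ∧ Ω.Nonempty ∧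
      y = F Ω} (1 / 3 + Real.log 3 / 4) := by
  set e := Complex.orthonormalBasisOneI.repr with he
  constructor
  · rintro y ⟨Ω, h1, h2, h3, rfl⟩
    have hΩ : (e '' (e.symm '' Ω) : Set (EuclideanSpace ℝ (Fin 2))) = Ω := by
      rw [← Set.image_comp]
      simp
    rw [← hΩ, Transfer]
    refine U _ ?_ ?_ (h3.image _)
    · exact e.symm.toHomeomorph.isOpenMap _ h1
    · exact (e.symm.lipschitz.isBounded_image h2)
  · intro b hb
    have key : ∀ N : ℝ, 5 ≤ N → c0 * ((N - 4) ^ 2 / N ^ 2) ≤ b := by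
      intro N hN
      obtain ⟨Ω, h1, h2, h3, h4⟩ := L N hN
      refine h4.trans ?_
      rw [← Transfer]
      apply hb
      exact ⟨_, e.toHomeomorph.isOpenMap _ h1, e.lipschitz.isBounded_image h2, h3.image _, rfl⟩
    have lim : Filter.Tendsto (fun N : ℝ => c0 * ((N - 4) ^ 2 / N ^ 2)) Filter.atTop (nhds (c0 * 1)) := by
      apply Filter.Tendsto.const_mul
      have h1 : Filter.Tendsto (fun N : ℝ => (1 - 4 * N⁻¹) ^ 2) Filter.atTop (nhds ((1 - 4 * 0) ^ 2)) := by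
        apply Filter.Tendsto.pow
        apply Filter.Tendsto.sub tendsto_const_nhds
        exact Filter.Tendsto.const_mul _ tendsto_inv_atTop_zero
      have h2 : ((1 : ℝ) - 4 * 0) ^ 2 = 1 := by norm_num
      rw [h2] at h1
      refine h1.congr' ?_
      filter_upwards [Filter.eventually_gt_atTop (0 : ℝ)] with N hN
      field_simp
    have := le_of_tendsto lim (Filter.eventually_atTop.mpr ⟨5, fun N hN => key N hN⟩)
    rw [mul_one] at this
    exact this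

end

end Q126.MD
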