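import Mathlib

/-! MP_50360a_an: blueprint. Prove `theorem X : TaskX` (file `Pool/Agent/Q126/MD/TaskX.lean`,
namespace `Q126.MD`). -/

namespace Q126.MD

open MeasureTheory Set

noncomputable section

/-- the constant -/
def c0 : ℝ := 1 / 3 + Real.log 3 / 4

/-- `G t = ∫₀ᵗ √(1+u²) du` -/
def G (t : ℝ) : ℝ := ∫ u in (0 : ℝ)..t, Real.sqrt (1 + u ^ 2)

/-- excess of a right triangle with the angle `α` at the circumcentre -/
def h (α : ℝ) : ℝ :=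
  Real.sin α ^ 3 / 3 * G (Real.cos α / Real.sin α) - c0 / 2 * (Real.sin α * Real.cos α)

/-- distance to the nearest of three points -/
def m3 (a b c x : ℂ) : ℝ := min ‖x - a‖ (min ‖x - b‖ ‖x - c‖)

/-- triangle -/
def T (a b c : ℂ) : Set ℂ := convexHull ℝ {a, b, c}

/-- mean of `m3` over the triangle is at most `c0 r` -/
def Good (a b c : ℂ) (r : ℝ) : Prop :=
  ∫ x in T a b c, m3 a b c x ≤ c0 * r * (volume (T a b c)).toReal

/-- point of the circle with centre `z` and radius `R` -/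
def pt (z : ℂ) (R θ : ℝ) : ℂ := z + R * Complex.exp (θ * Complex.I)

/-! ### the one-variable inequalities -/

/-- hint: antiderivative `(u √(1+u²) + log (u + √(1+u²)))/2` (Real.arsinh) -/
def TaskG0 : Prop := G (1 / Real.sqrt 3) = c0

/-- hint: concavity of sqrt: `√(1+u²) ≤ (1+u²+w²)/(2w)` with `w² = 1 + t²/3`, integrate -/
def TaskGJensen : Prop := ∀ t : ℝ, 0 ≤ t → G t ≤ t * Real.sqrt (1 + t ^ 2 / 3)

/-- hint: `h' - λ` has the sign of `D(t) = G t - c0 (9t²+1)√(1+t²)/(8t)`, `t = cot α`; `D(1/√3) = 0`,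
`D' > 0` on `(0,1]`, `D > 0` on `[1,1.22]`; so `h(α) - λ(α-π/3)` is increasing on `[0.69, π/3]` and decreasing
on `[π/3, π/2]`. (`h'(α) = sin²α cos α G(cot α) - 1/3 - (c0/2) cos 2α`, `λ = 5c0/8 - 1/3`) -/
def TaskI1 : Prop := G (1 / Real.sqrt 3) = c0 → ∀ α : ℝ, 0.69 ≤ α → α ≤ Real.pi / 2 →
  h α ≤ (5 / 8 * c0 - 1 / 3) * (α - Real.pi / 3)

/-- hint: with the Jensen bound `h α ≤ -(c0/2 - (1/3)√((1+t²/3)/(1+t²))) sin α cos α`, `t = cot α ≥ 1.21`;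
c0 = 0.60799 -/
def TaskI2 : Prop := (∀ t : ℝ, 0 ≤ t → G t ≤ t * Real.sqrt (1 + t ^ 2 / 3)) →
  ∀ α : ℝ, 0 < α → α ≤ 0.69 → h α ≤ -(1 / 3 - c0 / 2) * α

/-- hint: Jensen bound gives `h (π/2-ε) ≤ sin ε cos ε (1/3 - c0/2)` -/
def TaskI3 : Prop := (∀ t : ℝ, 0 ≤ t → G t ≤ t * Real.sqrt (1 + t ^ 2 / 3)) →
  ∀ ε : ℝ, 0 ≤ ε → ε < Real.pi / 2 → h (Real.pi / 2 - ε) ≤ (1 / 3 - c0 / 2) * ε

/-! ### integrals over triangles -/

/-- Fubini; inner integral `∫ y in 0..(q/p)x, √(x²+y²) = x² G(q/p)` -/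
def TaskRightInt : Prop := ∀ p q : ℝ, 0 < p → 0 ≤ q →
  ∫ x in {x : ℂ | 0 ≤ x.re ∧ x.re ≤ p ∧ 0 ≤ x.im ∧ x.im * p ≤ q * x.re}, ‖x‖ = p ^ 3 / 3 * G (q / p)

def TaskRightHull : Prop := ∀ p q : ℝ, 0 < p → 0 ≤ q →
  T 0 (p : ℂ) ((p : ℂ) + q * Complex.I) =
    {x : ℂ | 0 ≤ x.re ∧ x.re ≤ p ∧ 0 ≤ x.im ∧ x.im * p ≤ q * x.re}

/-- isometries -/
def TaskIso : Prop :=
  (∀ (u w : ℂ) (s : Set ℂ) (f : ℂ → ℝ), ‖u‖ = 1 →
    ∫ x in (fun x => u * x + w) '' s, f x = ∫ x in s, f (u * x + w)) ∧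
  (∀ (u w : ℂ) (s : Set ℂ), ‖u‖ = 1 → volume ((fun x => u * x + w) '' s) = volume s) ∧
  (∀ (u w a b c : ℂ), T (u * a + w) (u * b + w) (u * c + w) = (fun x => u * x + w) '' T a b c) ∧
  (∀ (s : Set ℂ) (f : ℂ → ℝ),
    ∫ x in (starRingEnd ℂ) '' s, f x = ∫ x in s, f ((starRingEnd ℂ) x)) ∧
  (∀ s : Set ℂ, volume ((starRingEnd ℂ) '' s) = volume s) ∧
  (∀ a b c : ℂ, T ((starRingEnd ℂ) a) ((starRingEnd ℂ) b) ((starRingEnd ℂ) c) = (starRingEnd ℂ) '' T a b c)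

/-- the area of a triangle; hint: standard triangle has area 1/2 and linear maps -/
def TaskVol : Prop := ∀ a b c : ℂ,
  volume (T a b c) = ENNReal.ofReal (|((b - a) * (starRingEnd ℂ) (c - a)).im| / 2)

/-- isosceles triangle with apex `z`: two right triangles with the midpoint of the base;
`T z a b ⊆ T z a m ∪ T z b m` -/
def TaskIsosceles : Prop := TaskRightInt → TaskRightHull → TaskIso →
  ∀ (z : ℂ) (R θ α : ℝ), 0 < R → 0 < α → α ≤ Real.pi / 2 →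
    ∫ x in T z (pt z R θ) (pt z R (θ + 2 * α)), min ‖x - pt z R θ‖ ‖x - pt z R (θ + 2 * α)‖ ≤
      2 * R ^ 3 * (Real.sin α ^ 3 / 3 * G (Real.cos α / Real.sin α))

/-- exchange: hint: `z = ∑ ν v`, `x = ∑ μ v`, take the vertex with the least `μ/ν`, `ν > 0` -/
def TaskSplit : Prop := ∀ a b c z x : ℂ, z ∈ T a b c → x ∈ T a b c →
  x ∈ T z a b ∨ x ∈ T z b c ∨ x ∈ T z c a

/-- the circumcentre is in a non-obtuse triangle: coordinates `sin 2β, sin 2γ, sin 2α` -/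
def TaskCentre : Prop := ∀ (z : ℂ) (R θ α β γ : ℝ), 0 < R → 0 < α → 0 < β → 0 < γ →
  α ≤ Real.pi / 2 → β ≤ Real.pi / 2 → γ ≤ Real.pi / 2 → α + β + γ = Real.pi →
  z ∈ T (pt z R θ) (pt z R (θ + 2 * α)) (pt z R (θ + 2 * α + 2 * β))

/-- area by the half angles (all positive, sum π) -/
def TaskArea : Prop := TaskVol → ∀ (z : ℂ) (R θ α β γ : ℝ), 0 < R → 0 < α → 0 < β → 0 < γ →
  α + β + γ = Real.pi →
  (volume (T (pt z R θ) (pt z R (θ + 2 * α)) (pt z R (θ + 2 * α + 2 * β)))).toReal =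
    R ^ 2 * (Real.sin α * Real.cos α + Real.sin β * Real.cos β + Real.sin γ * Real.cos γ)

/-- non-obtuse triangles; sum over the three isosceles triangles -/
def TaskAcute : Prop := TaskIsosceles → TaskRightInt → TaskRightHull → TaskIso → TaskSplit → TaskCentre →
  TaskArea → TaskVol →
  (∀ α β γ : ℝ, 0 < α → 0 < β → 0 < γ → α ≤ Real.pi / 2 → β ≤ Real.pi / 2 → γ ≤ Real.pi / 2 →
    α + β + γ = Real.pi → h α + h β + h γ ≤ 0) →
  ∀ (z : ℂ) (R θ α β γ : ℝ), 0 < R → 0 < α → 0 < β → 0 < γ →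
    α ≤ Real.pi / 2 → β ≤ Real.pi / 2 → γ ≤ Real.pi / 2 → α + β + γ = Real.pi →
    Good (pt z R θ) (pt z R (θ + 2 * α)) (pt z R (θ + 2 * α + 2 * β)) R

/-- stretching orthogonally to the longest side increases the mean: hint: linear map
`x + iy ↦ x + i l y`, it does not decrease the distances to the vertices -/
def TaskStretch : Prop := ∀ (u₁ u₂ v l r : ℝ), 0 < v → 1 ≤ l → 0 ≤ r →
  Good (-u₁ : ℂ) (u₂ : ℂ) (((l * v : ℝ) : ℂ) * Complex.I) r → Good (-u₁ : ℂ) (u₂ : ℂ) ((v : ℂ) * Complex.I) r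

/-- right triangle over its diameter, in the form of `TaskAcute` (`γ = π/2`) and `TaskStretch` -/
def TaskObtuseNormal : Prop := TaskStretch → TaskIso →
  (∀ (z : ℂ) (R θ α β γ : ℝ), 0 < R → 0 < α → 0 < β → 0 < γ →
    α ≤ Real.pi / 2 → β ≤ Real.pi / 2 → γ ≤ Real.pi / 2 → α + β + γ = Real.pi →
    Good (pt z R θ) (pt z R (θ + 2 * α)) (pt z R (θ + 2 * α + 2 * β)) R) →
  ∀ u₁ u₂ v : ℝ, 0 < u₁ → 0 < u₂ → 0 < v → v ^ 2 ≤ u₁ * u₂ →
    Good (-u₁ : ℂ) (u₂ : ℂ) ((v : ℂ) * Complex.I) ((u₁ + u₂) / 2)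

/-- obtuse triangles in a circle (`γ > π/2`), moved by an isometry into the normal form;
`(u₁+u₂)/2 ≤ R` -/
def TaskObtuse : Prop := TaskIso →
  (∀ u₁ u₂ v : ℝ, 0 < u₁ → 0 < u₂ → 0 < v → v ^ 2 ≤ u₁ * u₂ →
    Good (-u₁ : ℂ) (u₂ : ℂ) ((v : ℂ) * Complex.I) ((u₁ + u₂) / 2)) →
  ∀ (z : ℂ) (R θ α β γ : ℝ), 0 < R → 0 < α → 0 < β → Real.pi / 2 < γ → α + β + γ = Real.pi →
    Good (pt z R θ) (pt z R (θ + 2 * α)) (pt z R (θ + 2 * α + 2 * β)) R

/-- three distinct points on a circle in the cyclic order -/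
def TaskOrder : Prop := ∀ (z a b c : ℂ) (R : ℝ), ‖a - z‖ = R → ‖b - z‖ = R → ‖c - z‖ = R →
  a ≠ b → b ≠ c → c ≠ a →
  0 < R ∧ ∃ θ α β γ : ℝ, 0 < α ∧ 0 < β ∧ 0 < γ ∧ α + β + γ = Real.pi ∧
    ((a = pt z R θ ∧ b = pt z R (θ + 2 * α) ∧ c = pt z R (θ + 2 * α + 2 * β)) ∨
     (a = pt z R θ ∧ c = pt z R (θ + 2 * α) ∧ b = pt z R (θ + 2 * α + 2 * β)))

/-- all triangles inscribed in a circle (rotate the cyclic order so that the obtuse angle is `γ`) -/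
def TaskAll : Prop := TaskOrder →
  (∀ (z : ℂ) (R θ α β γ : ℝ), 0 < R → 0 < α → 0 < β → 0 < γ →
    α ≤ Real.pi / 2 → β ≤ Real.pi / 2 → γ ≤ Real.pi / 2 → α + β + γ = Real.pi →
    Good (pt z R θ) (pt z R (θ + 2 * α)) (pt z R (θ + 2 * α + 2 * β)) R) →
  (∀ (z : ℂ) (R θ α β γ : ℝ), 0 < R → 0 < α → 0 < β → Real.pi / 2 < γ → α + β + γ = Real.pi →
    Good (pt z R θ) (pt z R (θ + 2 * α)) (pt z R (θ + 2 * α + 2 * β)) R) →
  ∀ (z a b c : ℂ) (R : ℝ), ‖a - z‖ = R → ‖b - z‖ = R → ‖c - z‖ = R →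
    a ≠ b → b ≠ c → c ≠ a → Good a b c R

/-! ### Delaunay triangles of a finite set -/

/-- `t` is (the vertex set of) a Delaunay triangle of `S` -/
def Del (S t : Finset ℂ) : Prop :=
  t ⊆ S ∧ t.card = 3 ∧ ∃ (z : ℂ) (R : ℝ), (∀ v ∈ t, ‖v - z‖ = R) ∧ ∀ s ∈ S, R ≤ ‖s - z‖

/-- `x` is on no line through two points of `S` -/
def Off (S : Finset ℂ) (x : ℂ) : Prop :=
  ∀ a ∈ S, ∀ b ∈ S, x ∉ affineSpan ℝ ({a, b} : Set ℂ)

/-- no four points on a circle -/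
def GP (S : Finset ℂ) : Prop :=
  ∀ (z : ℂ) (R : ℝ), (S.filter (fun s => ‖s - z‖ = R)).card ≤ 3

/-- Carathéodory gives triangles with vertices in `S` containing `x`; take one with the least
`∑ λ_v ‖v‖²` (`λ` the barycentric coordinates of `x`, all positive as `x` is off the lines);
if a point `s` is in the open circumdisk, exchange (as in the simplex method) it for a vertex: smaller sum -/
def TaskCover : Prop := ∀ (S : Finset ℂ) (x : ℂ), x ∈ convexHull ℝ (S : Set ℂ) → Off S x →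
  ∃ t, Del S t ∧ x ∈ convexHull ℝ (t : Set ℂ)

/-- the difference of the powers with respect to the two circles is affine, ≥ 0 on one triangle, ≤ 0 on
the other one; zero at `x`, so zero everywhere, the circles agree, so the triangles agree by `GP` -/
def TaskUnique : Prop := ∀ (S : Finset ℂ), GP S → ∀ (t t' : Finset ℂ) (x : ℂ), Del S t → Del S t' →
  Off S x → x ∈ convexHull ℝ (t : Set ℂ) → x ∈ convexHull ℝ (t' : Set ℂ) → t = t'

/-- lines have measure zero -/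
def TaskNull : Prop := ∀ S : Finset ℂ, ∀ᵐ x : ℂ, Off S x

/-- net in general position: finite `δ/2`-net of the compact set `K`, moved point by point off the finitely many
circles through three of the previous points -/
def TaskNet : Prop := ∀ (K : Set ℂ) (δ : ℝ), IsCompact K → 0 < δ →
  ∃ S : Finset ℂ, GP S ∧ (∀ s ∈ S, ∃ y ∈ K, ‖s - y‖ < δ) ∧ ∀ y ∈ K, ∃ s ∈ S, ‖y - s‖ < δ

/-- near the corners: `R² - |x-z|² = ∑_{i<j} λ_i λ_j |v_i - v_j|² ≥ min |x-v_i|²` -/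
def TaskCorner : Prop := ∀ (z a b c x : ℂ) (R : ℝ), ‖a - z‖ = R → ‖b - z‖ = R → ‖c - z‖ = R →
  x ∈ T a b c → m3 a b c x ^ 2 ≤ R ^ 2 - ‖x - z‖ ^ 2

/-- a convex set with two points `v`, `x` at distance `≥ 4 n η` has at most the part `4/n` of its area in the
`η`-ball of `v`: hint: images of `C ∩ closedBall v η` under `y ↦ (1-t) y + t x`, `t = j/(2n)`, `j < n`,
are disjoint subsets of `C` -/
def TaskFraction : Prop := ∀ (C : Set ℂ) (v x : ℂ) (η : ℝ) (n : ℕ), Convex ℝ C → IsCompact C → v ∈ C → x ∈ C →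
  0 < η → 1 ≤ n → 4 * n * η ≤ ‖x - v‖ →
  n * (volume (C ∩ Metric.closedBall v η)).toReal ≤ 4 * (volume C).toReal

end

end Q126.MD
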