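import Pool.Agent.Q126.MD.Stmts

/-! MP_50360a_an: blueprint, part 2. -/

namespace Q126.MD

open MeasureTheory Set

noncomputable section

/-- distance to the boundary -/
def bdist {X : Type*} [PseudoMetricSpace X] (Ω : Set X) (x : X) : ℝ := Metric.infDist x (frontier Ω)

/-- inradius: supremum of the distances to the boundary -/
def inradius {X : Type*} [PseudoMetricSpace X] (Ω : Set X) : ℝ := sSup (bdist Ω '' Ω)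

/-- mean distance to the boundary over the inradius -/
def F {X : Type*} [PseudoMetricSpace X] [MeasureSpace X] (Ω : Set X) : ℝ :=
  (⨍ x in Ω, bdist Ω x) / inradius Ω

/-! ### transfer and boundary distance -/

/-- `ℝ²` and `ℂ`: the linear isometry is measure preserving -/
def TaskTransfer : Prop := ∀ Ω : Set ℂ,
  F (Complex.orthonormalBasisOneI.repr '' Ω : Set (EuclideanSpace ℝ (Fin 2))) = F Ω

/-- hint: `Metric.exists_mem_frontier_infDist_compl_eq_dist` -/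
def TaskBdist : Prop := ∀ (Ω : Set ℂ) (x : ℂ), IsOpen Ω → Bornology.IsBounded Ω → x ∈ Ω →
  bdist Ω x = Metric.infDist x Ωᶜ ∧ 0 < bdist Ω x

/-! ### upper bound -/

structure Setup (Ω : Set ℂ) (B ρ δ : ℝ) (S : Finset ℂ) : Prop where
  isOpen : IsOpen Ω
  sub : ∀ x ∈ Ω, ‖x‖ < B
  posB : 0 < B
  posρ : 0 < ρ
  ρleB : ρ ≤ B
  inr : ∀ x ∈ Ω, Metric.infDist x Ωᶜ ≤ ρ
  posδ : 0 < δ
  δlt : δ < 1
  near : ∀ s ∈ S, ∃ y ∈ Ωᶜ, ‖s - y‖ < δ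
  net : ∀ y ∈ Ωᶜ, ‖y‖ ≤ 5 * B + 5 → ∃ s ∈ S, ‖y - s‖ < δ
  gp : GP S

/-- `K = Ωᶜ ∩ closedBall 0 (5B+5)` -/
def TaskSetup : Prop := TaskNet → ∀ (Ω : Set ℂ) (B ρ δ : ℝ), IsOpen Ω → (∀ x ∈ Ω, ‖x‖ < B) → 0 < B → 0 < ρ →
  ρ ≤ B → (∀ x ∈ Ω, Metric.infDist x Ωᶜ ≤ ρ) → 0 < δ → δ < 1 → ∃ S, Setup Ω B ρ δ S

/-- separation: otherwise a direction `e`, `‖e‖ = 1`, with all of `S` in a half plane `⟪e, s⟫ ≤ ⟪e, x⟫ < B`; but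
there is a point of `S` within `δ < 1` of `(B+1) e` -/
def TaskHull : Prop := ∀ (Ω : Set ℂ) (B ρ δ : ℝ) (S : Finset ℂ), Setup Ω B ρ δ S →
  Ω ⊆ convexHull ℝ (S : Set ℂ)

/-- three cases: `z ∈ Ω`; `z ∉ Ω`, `‖z‖ ≤ 5B+5`; `‖z‖ > 5B+5`: then the point `y` of the segment `[x,z]` at the
distance `2B+1` from `x` is not in `Ω`, there is `s ∈ S` near `y`, so `‖s-z‖ < R` -/
def TaskRadius : Prop := ∀ (Ω : Set ℂ) (B ρ δ : ℝ) (S : Finset ℂ), Setup Ω B ρ δ S →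
  ∀ (z x : ℂ) (R : ℝ), (∀ s ∈ S, R ≤ ‖s - z‖) → x ∈ Ω → ‖x - z‖ ≤ R → R < ρ + δ

/-- there is `s ∈ S` within `δ` of `x`, so `‖x-z‖ ≥ R - δ`; use TaskCorner -/
def TaskOutside : Prop := TaskCorner → ∀ (Ω : Set ℂ) (B ρ δ : ℝ) (S : Finset ℂ), Setup Ω B ρ δ S →
  ∀ (z a b c x : ℂ) (R : ℝ), ‖a - z‖ = R → ‖b - z‖ = R → ‖c - z‖ = R → (∀ s ∈ S, R ≤ ‖s - z‖) →
    R < ρ + δ → x ∈ T a b c → x ∉ Ω → ‖x‖ ≤ 5 * B + 5 → m3 a b c x ^ 2 ≤ 2 * (ρ + δ) * δ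

/-- one triangle; if it meets `Ω`, then `R < ρ + δ` (TaskRadius, as the triangle is in the disk), all its points
have `‖x‖ ≤ 5B+5`. Either `m3 < η` on the triangle, then `infDist x Ωᶜ ≤ m3 + δ ≤ η + δ`; or there is a point with
`m3 ≥ η`, then by TaskOutside and TaskFraction (at the three vertices) `|T \ Ω| ≤ 12/n |T|`, and
`∫_{Ω ∩ T} infDist ≤ ∫_T m3 + δ |Ω ∩ T| ≤ c0 R |T| + δ |Ω ∩ T|` -/
def TaskPerTri : Prop := TaskRadius → TaskOutside → TaskCorner → TaskFraction →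
  (∀ (z a b c : ℂ) (R : ℝ), ‖a - z‖ = R → ‖b - z‖ = R → ‖c - z‖ = R →
    a ≠ b → b ≠ c → c ≠ a → Good a b c R) →
  ∀ (Ω : Set ℂ) (B ρ δ η : ℝ) (S : Finset ℂ) (n : ℕ), Setup Ω B ρ δ S → 12 < n → 0 < η →
    4 * n * Real.sqrt (2 * (ρ + δ) * δ) ≤ η →
    ∀ t, Del S t → ∫ x in Ω ∩ convexHull ℝ (t : Set ℂ), Metric.infDist x Ωᶜ ≤
      max (η + δ) (c0 * (ρ + δ) / (1 - 12 / n) + δ) *
        (volume (Ω ∩ convexHull ℝ (t : Set ℂ))).toReal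

/-- a.e. point of `Ω` is in exactly one Delaunay triangle -/
def TaskSum : Prop := TaskHull → TaskCover → TaskUnique → TaskNull →
  ∀ (Ω : Set ℂ) (B ρ δ K : ℝ) (S : Finset ℂ), Setup Ω B ρ δ S →
    (∀ t, Del S t → ∫ x in Ω ∩ convexHull ℝ (t : Set ℂ), Metric.infDist x Ωᶜ ≤
      K * (volume (Ω ∩ convexHull ℝ (t : Set ℂ))).toReal) →
    ∫ x in Ω, Metric.infDist x Ωᶜ ≤ K * (volume Ω).toReal

/-- limit: `δ → 0`, then `n → ∞`, with `η = c0 ρ / 2` -/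
def TaskLimit : Prop :=
  (∀ (Ω : Set ℂ) (B ρ δ : ℝ), IsOpen Ω → (∀ x ∈ Ω, ‖x‖ < B) → 0 < B → 0 < ρ →
    ρ ≤ B → (∀ x ∈ Ω, Metric.infDist x Ωᶜ ≤ ρ) → 0 < δ → δ < 1 → ∃ S, Setup Ω B ρ δ S) →
  (∀ (Ω : Set ℂ) (B ρ δ η : ℝ) (S : Finset ℂ) (n : ℕ), Setup Ω B ρ δ S → 12 < n → 0 < η →
    4 * n * Real.sqrt (2 * (ρ + δ) * δ) ≤ η →
    ∫ x in Ω, Metric.infDist x Ωᶜ ≤
      max (η + δ) (c0 * (ρ + δ) / (1 - 12 / n) + δ) * (volume Ω).toReal) →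
  ∀ (Ω : Set ℂ) (B ρ : ℝ), IsOpen Ω → (∀ x ∈ Ω, ‖x‖ < B) → 0 < B → 0 < ρ → ρ ≤ B →
    (∀ x ∈ Ω, Metric.infDist x Ωᶜ ≤ ρ) → ∫ x in Ω, Metric.infDist x Ωᶜ ≤ c0 * ρ * (volume Ω).toReal

/-- from the limit statement to `F` -/
def TaskUpper : Prop := TaskBdist →
  (∀ (Ω : Set ℂ) (B ρ : ℝ), IsOpen Ω → (∀ x ∈ Ω, ‖x‖ < B) → 0 < B → 0 < ρ → ρ ≤ B →
    (∀ x ∈ Ω, Metric.infDist x Ωᶜ ≤ ρ) → ∫ x in Ω, Metric.infDist x Ωᶜ ≤ c0 * ρ * (volume Ω).toReal) →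
  ∀ Ω : Set ℂ, IsOpen Ω → Bornology.IsBounded Ω → Ω.Nonempty → F Ω ≤ c0

/-! ### lower bound: the hexagonal lattice with the covering radius 1 -/

/-- the lattice point `i e₁ + j e₂`, `e₁ = √3`, `e₂ = √3/2 + 3/2 i` -/
def lat (i j : ℤ) : ℂ := ⟨Real.sqrt 3 * (i + j / 2), 3 / 2 * j⟩

/-- the lattice -/
def Lat : Set ℂ := {x | ∃ i j : ℤ, x = lat i j}

/-- covering radius 1 -/
def TaskLCover : Prop := ∀ x : ℂ, ∃ i j : ℤ, ‖x - lat i j‖ ≤ 1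

/-- `x = s e₁ + t e₂`, `s, t ≥ 0`, `s + t ≤ 1`: `‖x - lat i j‖² = 3 Q(s-i, t-j)`, `Q(s,t) = s²+st+t²`; the second
triangle is `e₁ + e₂` minus the first one -/
def TaskLNearest : Prop :=
  (∀ x ∈ T 0 (lat 1 0) (lat 0 1), ∀ i j : ℤ, m3 0 (lat 1 0) (lat 0 1) x ≤ ‖x - lat i j‖) ∧
  (∀ x ∈ T (lat 1 1) (lat 0 1) (lat 1 0), ∀ i j : ℤ, m3 (lat 1 1) (lat 0 1) (lat 1 0) x ≤ ‖x - lat i j‖)

/-- six right triangles with the legs √3/2, 1/2 and the centre of the triangle (overlaps are null sets) -/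
def TaskLEquil : Prop := TaskG0 → TaskRightInt → TaskRightHull → TaskIso →
  c0 * (3 * Real.sqrt 3 / 4) ≤ ∫ x in T 0 (lat 1 0) (lat 0 1), m3 0 (lat 1 0) (lat 0 1) x

/-- the half-open cell -/
def Cell : Set ℂ := {x | ∃ s t : ℝ, 0 ≤ s ∧ s < 1 ∧ 0 ≤ t ∧ t < 1 ∧ x = s * lat 1 0 + t * lat 0 1}

/-- the cell is the union of the two triangles up to null sets; the second one by the isometry
`x ↦ lat 1 1 - x` -/
def TaskLCell : Prop := TaskLNearest → TaskIso →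
  c0 * (3 * Real.sqrt 3 / 4) ≤ ∫ x in T 0 (lat 1 0) (lat 0 1), m3 0 (lat 1 0) (lat 0 1) x →
  c0 * (3 * Real.sqrt 3 / 2) ≤ ∫ x in Cell, Metric.infDist x Lat ∧
  volume Cell = ENNReal.ofReal (3 * Real.sqrt 3 / 2)

/-- the translates of the cell partition the plane; cells have diameter ≤ 3; the distance to the lattice is
periodic -/
def TaskLTile : Prop := (c0 * (3 * Real.sqrt 3 / 2) ≤ ∫ x in Cell, Metric.infDist x Lat ∧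
  volume Cell = ENNReal.ofReal (3 * Real.sqrt 3 / 2)) →
  ∀ r : ℝ, 4 ≤ r → c0 * (Real.pi * (r - 3) ^ 2) ≤ ∫ x in Metric.ball (0 : ℂ) r, Metric.infDist x Lat

/-- `Ω = ball 0 N \ Lat`: `bdist x = infDist x Ωᶜ ≥ infDist x Lat` for `‖x‖ < N - 1`, the inradius is at most 1 -/
def TaskLBall : Prop := TaskBdist → TaskLCover →
  (∀ r : ℝ, 4 ≤ r → c0 * (Real.pi * (r - 3) ^ 2) ≤ ∫ x in Metric.ball (0 : ℂ) r, Metric.infDist x Lat) →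
  ∀ N : ℝ, 5 ≤ N → ∃ Ω : Set ℂ, IsOpen Ω ∧ Bornology.IsBounded Ω ∧ Ω.Nonempty ∧
    c0 * ((N - 4) ^ 2 / N ^ 2) ≤ F Ω

end

end Q126.MD
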