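import Pool.Agent.Q126.MD.Stmts

namespace Q126.MD

open MeasureTheory Set

noncomputable section

lemma acute_union_le {f : ℂ → ℝ} (hf : Continuous f) (h0 : ∀ x, 0 ≤ f x) {A B C D : Set ℂ}
    (hA : IsCompact A) (hB : IsCompact B) (hC : IsCompact C) (hD : D ⊆ A ∪ B ∪ C) :
    ∫ x in D, f x ≤ (∫ x in A, f x) + (∫ x in B, f x) + ∫ x in C, f x := by
  have iA : IntegrableOn f A := hf.continuousOn.integrableOn_compact hA
  have iB : IntegrableOn f B := hf.continuousOn.integrableOn_compact hB
  have iC : IntegrableOn f C := hf.continuousOn.integrableOn_compact hC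
  have hle : volume.restrict D ≤
      (volume.restrict A + volume.restrict B) + volume.restrict C := by
    refine (Measure.restrict_mono hD le_rfl).trans ?_
    refine (Measure.restrict_union_le _ _).trans ?_
    gcongr
    exact Measure.restrict_union_le _ _
  have iAB : Integrable f (volume.restrict A + volume.restrict B) :=
    Integrable.add_measure iA iB
  have iABC : Integrable f ((volume.restrict A + volume.restrict B) + volume.restrict C) :=
    Integrable.add_measure iAB iC
  have := integral_mono_measure hle (Filter.Eventually.of_forall h0) iABC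
  rw [integral_add_measure iAB iC, integral_add_measure iA iB] at this
  exact this

lemma acute_T_compact (a b c : ℂ) : IsCompact (T a b c) := by
  unfold T
  exact Set.Finite.isCompact_convexHull (𝕜 := ℝ) (Set.toFinite _)

lemma acute_m3_cont (a b c : ℂ) : Continuous (fun x => m3 a b c x) := by
  unfold m3; fun_prop

lemma acute_m3_nonneg (a b c x : ℂ) : 0 ≤ m3 a b c x := by
  unfold m3; positivity

theorem Acute : TaskAcute := by
  intro hIs hRI hRH hIso hSplit hCentre hArea hVol hsum z R θ α β γ hR hα hβ hγ hα2 hβ2 hγ2 hs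
  have hza := hCentre z R θ α β γ hR hα hβ hγ hα2 hβ2 hγ2 hs
  have hca : pt z R (θ + 2 * α + 2 * β + 2 * γ) = pt z R θ := by
    unfold pt
    have : ((θ + 2 * α + 2 * β + 2 * γ : ℝ) : ℂ) * Complex.I =
        (θ : ℂ) * Complex.I + 2 * (Real.pi : ℂ) * Complex.I := by
      have h1 : θ + 2 * α + 2 * β + 2 * γ = θ + 2 * Real.pi := by linarith
      rw [h1]; push_cast; ring
    rw [this, Complex.exp_add, Complex.exp_two_pi_mul_I, mul_one]
  have I1 := hIs hRI hRH hIso z R θ α hR hα hα2
  have I2 := hIs hRI hRH hIso z R (θ + 2 * α) β hR hβ hβ2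
  have I3 := hIs hRI hRH hIso z R (θ + 2 * α + 2 * β) γ hR hγ hγ2
  rw [hca] at I3
  have hA := hArea hVol z R θ α β γ hR hα hβ hγ hs
  have hS := hsum α β γ hα hβ hγ hα2 hβ2 hγ2 hs
  unfold Good
  rw [hA]
  set a := pt z R θ
  set b := pt z R (θ + 2 * α)
  set c := pt z R (θ + 2 * α + 2 * β)
  have hsub : T a b c ⊆ T z a b ∪ T z b c ∪ T z c a := by
    intro x hx
    rcases hSplit a b c z x hza hx with h | h | h
    · exact Or.inl (Or.inl h)
    · exact Or.inl (Or.inr h)
    · exact Or.inr h
  have hU := acute_union_le (acute_m3_cont a b c) (acute_m3_nonneg a b c)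
    (acute_T_compact z a b) (acute_T_compact z b c) (acute_T_compact z c a) hsub
  have J1 : ∫ x in T z a b, m3 a b c x ≤ ∫ x in T z a b, min ‖x - a‖ ‖x - b‖ := by
    refine setIntegral_mono ((acute_m3_cont a b c).continuousOn.integrableOn_compact
      (acute_T_compact z a b)) ?_ ?_
    · refine ContinuousOn.integrableOn_compact (acute_T_compact z a b) ?_
      fun_prop
    · intro x
      unfold m3
      simp only [le_min_iff, min_le_iff, le_refl, true_or, or_true, and_self]
  have J2 : ∫ x in T z b c, m3 a b c x ≤ ∫ x in T z b c, min ‖x - b‖ ‖x - c‖ := by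
    refine setIntegral_mono ((acute_m3_cont a b c).continuousOn.integrableOn_compact
      (acute_T_compact z b c)) ?_ ?_
    · refine ContinuousOn.integrableOn_compact (acute_T_compact z b c) ?_
      fun_prop
    · intro x
      unfold m3
      simp only [le_min_iff, min_le_iff, le_refl, true_or, or_true, and_self]
  have J3 : ∫ x in T z c a, m3 a b c x ≤ ∫ x in T z c a, min ‖x - c‖ ‖x - a‖ := by
    refine setIntegral_mono ((acute_m3_cont a b c).continuousOn.integrableOn_compact
      (acute_T_compact z c a)) ?_ ?_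
    · refine ContinuousOn.integrableOn_compact (acute_T_compact z c a) ?_
      fun_prop
    · intro x
      unfold m3
      simp only [le_min_iff, min_le_iff, le_refl, true_or, or_true, and_self]
  have hR3 : 0 < R ^ 3 := by positivity
  have key : 2 * R ^ 3 * (Real.sin α ^ 3 / 3 * G (Real.cos α / Real.sin α)) +
      2 * R ^ 3 * (Real.sin β ^ 3 / 3 * G (Real.cos β / Real.sin β)) +
      2 * R ^ 3 * (Real.sin γ ^ 3 / 3 * G (Real.cos γ / Real.sin γ)) =
      2 * R ^ 3 * (h α + h β + h γ) + c0 * R * (R ^ 2 * (Real.sin α * Real.cos α +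
        Real.sin β * Real.cos β + Real.sin γ * Real.cos γ)) := by
    unfold h; ring
  have : 2 * R ^ 3 * (h α + h β + h γ) ≤ 0 := by
    apply mul_nonpos_of_nonneg_of_nonpos (by positivity) hS
  linarith

end

end Q126.MD
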