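import Pool.Agent.Q126.MD.Stmts

namespace Q126.MD

open MeasureTheory Set

noncomputable section

lemma all_T_rot (a b c : ℂ) : T b c a = T a b c := by
  unfold T
  congr 1
  ext x
  simp only [mem_insert_iff, mem_singleton_iff]
  tauto

lemma all_T_swap (a b c : ℂ) : T a c b = T a b c := by
  unfold T
  congr 1
  ext x
  simp only [mem_insert_iff, mem_singleton_iff]
  tauto

lemma all_m3_rot (a b c x : ℂ) : m3 b c a x = m3 a b c x := by
  unfold m3
  rw [← min_assoc, min_comm]

lemma all_m3_swap (a b c x : ℂ) : m3 a c b x = m3 a b c x := by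
  unfold m3
  rw [min_comm ‖x - c‖]

lemma all_good_rot (a b c : ℂ) (r : ℝ) (H : Good b c a r) : Good a b c r := by
  unfold Good at *
  rw [all_T_rot] at H
  simpa only [all_m3_rot] using H

lemma all_good_swap (a b c : ℂ) (r : ℝ) (H : Good a c b r) : Good a b c r := by
  unfold Good at *
  rw [all_T_swap] at H
  simpa only [all_m3_swap] using H

lemma all_pt_period (z : ℂ) (R θ : ℝ) : pt z R (θ + 2 * Real.pi) = pt z R θ := by
  unfold pt
  have : ((θ + 2 * Real.pi : ℝ) : ℂ) * Complex.I =
      (θ : ℂ) * Complex.I + 2 * (Real.pi : ℂ) * Complex.I := by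
    push_cast; ring
  rw [this, Complex.exp_add, Complex.exp_two_pi_mul_I, mul_one]

theorem All : TaskAll := by
  intro hOrder hAcute hObtuse z a b c R ha hb hc hab hbc hca
  obtain ⟨hR, θ, α, β, γ, hα, hβ, hγ, hs, hcase⟩ := hOrder z a b c R ha hb hc hab hbc hca
  -- the claim for the cyclic order
  have main : Good (pt z R θ) (pt z R (θ + 2 * α)) (pt z R (θ + 2 * α + 2 * β)) R := by
    by_cases hγ2 : γ ≤ Real.pi / 2
    · by_cases hα2 : α ≤ Real.pi / 2
      · by_cases hβ2 : β ≤ Real.pi / 2
        · exact hAcute z R θ α β γ hR hα hβ hγ hα2 hβ2 hγ2 hs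
        · push Not at hβ2
          have H := hObtuse z R (θ + 2 * α + 2 * β) γ α β hR hγ hα hβ2 (by linarith)
          have e1 : θ + 2 * α + 2 * β + 2 * γ = θ + 2 * Real.pi := by linarith
          have e2 : θ + 2 * α + 2 * β + 2 * γ + 2 * α = (θ + 2 * α) + 2 * Real.pi := by linarith
          rw [e2, e1, all_pt_period, all_pt_period] at H
          exact all_good_rot _ _ _ _ (all_good_rot _ _ _ _ H)
      · push Not at hα2
        have H := hObtuse z R (θ + 2 * α) β γ α hR hβ hγ hα2 (by linarith)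
        have e1 : θ + 2 * α + 2 * β + 2 * γ = θ + 2 * Real.pi := by linarith
        rw [e1, all_pt_period] at H
        exact all_good_rot _ _ _ _ H
    · push Not at hγ2
      exact hObtuse z R θ α β γ hR hα hβ hγ2 hs
  rcases hcase with ⟨h1, h2, h3⟩ | ⟨h1, h2, h3⟩
  · rw [h1, h2, h3]; exact main
  · rw [h1, h2, h3]; exact all_good_swap _ _ _ _ main

end

end Q126.MD
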