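import Pool.Agent.Q126.MD.TaskCentre

set_option autoImplicit false

namespace Q126.MD

open MeasureTheory Set

theorem Area : TaskArea := by
  intro hV z R θ α β γ hR hα hβ hγ hs
  have sα : 0 < Real.sin α := Real.sin_pos_of_pos_of_lt_pi hα (by linarith)
  have sβ : 0 < Real.sin β := Real.sin_pos_of_pos_of_lt_pi hβ (by linarith)
  have sγ : 0 < Real.sin γ := Real.sin_pos_of_pos_of_lt_pi hγ (by linarith)
  have hS := Centre.sum_sin hs
  have hSpos : 0 < Real.sin (2 * α) + Real.sin (2 * β) + Real.sin (2 * γ) := by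
    rw [hS]
    positivity
  have hγe : Real.sin (2 * γ) = -Real.sin (2 * α + 2 * β) := by
    have : 2 * γ = 2 * Real.pi - (2 * α + 2 * β) := by linarith
    rw [this, Real.sin_two_pi_sub]
  rw [hV]
  have him : ((pt z R (θ + 2 * α) - pt z R θ) *
      (starRingEnd ℂ) (pt z R (θ + 2 * α + 2 * β) - pt z R θ)).im =
      -(R ^ 2 * (Real.sin (2 * α) + Real.sin (2 * β) + Real.sin (2 * γ))) := by
    have e1 : Real.sin (2 * α) = Real.sin (θ + 2 * α) * Real.cos θ -
        Real.cos (θ + 2 * α) * Real.sin θ := by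
      rw [← Real.sin_sub]; ring_nf
    have e2 : Real.sin (2 * β) = Real.sin (θ + 2 * α + 2 * β) * Real.cos (θ + 2 * α) -
        Real.cos (θ + 2 * α + 2 * β) * Real.sin (θ + 2 * α) := by
      rw [← Real.sin_sub]; ring_nf
    have e3 : Real.sin (2 * α + 2 * β) = Real.sin (θ + 2 * α + 2 * β) * Real.cos θ -
        Real.cos (θ + 2 * α + 2 * β) * Real.sin θ := by
      rw [← Real.sin_sub]; ring_nf
    unfold pt
    simp only [Complex.mul_im, Complex.sub_re, Complex.sub_im, Complex.conj_re, Complex.conj_im,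
      Complex.add_re, Complex.add_im, Complex.mul_re, Complex.ofReal_re, Complex.ofReal_im,
      Complex.exp_ofReal_mul_I_re, Complex.exp_ofReal_mul_I_im]
    rw [hγe, e1, e2, e3]
    ring
  rw [him, abs_neg, abs_of_pos (by positivity), ENNReal.toReal_ofReal (by positivity),
    Real.sin_two_mul, Real.sin_two_mul, Real.sin_two_mul]
  ring

end Q126.MD
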