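import Pool.Agent.Q126.MD.Stmts2

/-! MP_50360a_an: the distance to the boundary of a bounded open set is the distance to the complement. -/

namespace Q126.MD

open MeasureTheory Set

theorem Bdist : TaskBdist := by
  intro Ω x hO hB hx
  have hne : Ω ≠ univ := by
    intro h
    rw [h] at hB
    exact NoncompactSpace.noncompact_univ (X := ℂ) (Metric.isCompact_of_isClosed_isBounded isClosed_univ hB)
  have hc : (Ωᶜ).Nonempty := by
    rw [nonempty_compl]; exact hne
  obtain ⟨y, hy, hxy⟩ := exists_mem_frontier_infDist_compl_eq_dist hx hne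
  have hsub : frontier Ω ⊆ Ωᶜ := by
    intro z hz
    rw [hO.frontier_eq] at hz
    exact hz.2
  have h1 : bdist Ω x = Metric.infDist x Ωᶜ := by
    unfold bdist
    apply le_antisymm
    · rw [hxy]
      exact Metric.infDist_le_dist_of_mem hy
    · exact Metric.infDist_le_infDist_of_subset hsub ⟨y, hy⟩
  refine ⟨h1, ?_⟩
  rw [h1]
  exact (hO.isClosed_compl.notMem_iff_infDist_pos hc).1 (fun h => h hx)

end Q126.MD
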