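import Pool.Agent.Q126.MD.Stmts

set_option autoImplicit false

namespace Q126.MD

open MeasureTheory Set

namespace Centre

theorem mem3 {a b c z : ℂ} {u v w : ℝ} (hu : 0 ≤ u) (hv : 0 ≤ v) (hw : 0 ≤ w) (h : u + v + w = 1)
    (hz : (u : ℂ) * a + (v : ℂ) * b + (w : ℂ) * c = z) : z ∈ T a b c := by
  have h1 := (convex_convexHull ℝ ({a, b, c} : Set ℂ)).sum_mem (t := Finset.univ)
    (w := ![u, v, w]) (z := ![a, b, c]) (by
      intro i _
      fin_cases i
      · exact hu
      · exact hv
      · exact hw) (by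
      rw [Fin.sum_univ_three]
      exact h) (by
      intro i _
      fin_cases i
      · exact subset_convexHull ℝ _ (by simp)
      · exact subset_convexHull ℝ _ (by simp)
      · exact subset_convexHull ℝ _ (by simp))
  rw [Fin.sum_univ_three] at h1
  simp only [Matrix.cons_val_zero, Matrix.cons_val_one, Matrix.cons_val, Complex.real_smul] at h1
  rw [hz] at h1
  exact h1

/-- the trigonometric identity for the sum of the double angles -/
theorem sum_sin {α β γ : ℝ} (h : α + β + γ = Real.pi) :
    Real.sin (2 * α) + Real.sin (2 * β) + Real.sin (2 * γ) =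
      4 * (Real.sin α * Real.sin β * Real.sin γ) := by
  have hγ : γ = Real.pi - (α + β) := by linarith
  subst hγ
  have h1 := Real.sin_sq_add_cos_sq α
  have h2 := Real.sin_sq_add_cos_sq β
  rw [Real.sin_two_mul, Real.sin_two_mul, Real.sin_two_mul, Real.sin_pi_sub, Real.cos_pi_sub,
    Real.sin_add, Real.cos_add]
  linear_combination (-2 * Real.sin β * Real.cos β) * h1 + (-2 * Real.sin α * Real.cos α) * h2

end Centre

open Centre in
theorem Centre : TaskCentre := by
  intro z R θ α β γ hR hα hβ hγ hα' hβ' hγ' hs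
  have sα : 0 < Real.sin α := Real.sin_pos_of_pos_of_lt_pi hα (by linarith)
  have sβ : 0 < Real.sin β := Real.sin_pos_of_pos_of_lt_pi hβ (by linarith)
  have sγ : 0 < Real.sin γ := Real.sin_pos_of_pos_of_lt_pi hγ (by linarith)
  set S : ℝ := Real.sin (2 * α) + Real.sin (2 * β) + Real.sin (2 * γ) with hS
  have hSpos : 0 < S := by
    rw [hS, sum_sin hs]
    positivity
  have h2 : ∀ x : ℝ, 0 < x → x ≤ Real.pi / 2 → 0 ≤ Real.sin (2 * x) := fun x h1 h2 =>
    Real.sin_nonneg_of_nonneg_of_le_pi (by linarith) (by linarith)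
  refine mem3 (u := Real.sin (2 * β) / S) (v := Real.sin (2 * γ) / S) (w := Real.sin (2 * α) / S)
    (div_nonneg (h2 β hβ hβ') hSpos.le) (div_nonneg (h2 γ hγ hγ') hSpos.le)
    (div_nonneg (h2 α hα hα') hSpos.le) ?_ ?_
  · rw [← add_div, ← add_div, div_eq_one_iff_eq hSpos.ne']
    rw [hS]
    ring
  · have hγe : Real.sin (2 * γ) = -Real.sin (2 * α + 2 * β) := by
      have : 2 * γ = 2 * Real.pi - (2 * α + 2 * β) := by linarith
      rw [this, Real.sin_two_pi_sub]
    have e1 : (Real.sin (2 * β) : ℂ) * Complex.exp (θ * Complex.I) +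
        (Real.sin (2 * γ) : ℂ) * Complex.exp ((θ + 2 * α : ℝ) * Complex.I) +
        (Real.sin (2 * α) : ℂ) * Complex.exp ((θ + 2 * α + 2 * β : ℝ) * Complex.I) = 0 := by
      have k1 : Complex.exp ((θ + 2 * α : ℝ) * Complex.I) =
          Complex.exp (θ * Complex.I) * Complex.exp ((2 * α : ℝ) * Complex.I) := by
        rw [← Complex.exp_add]
        push_cast
        ring_nf
      have k2 : Complex.exp ((θ + 2 * α + 2 * β : ℝ) * Complex.I) =
          Complex.exp (θ * Complex.I) * Complex.exp ((2 * α + 2 * β : ℝ) * Complex.I) := by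
        rw [← Complex.exp_add]
        push_cast
        ring_nf
      have k3 : (Real.sin (2 * β) : ℂ) + (Real.sin (2 * γ) : ℂ) *
          Complex.exp ((2 * α : ℝ) * Complex.I) +
          (Real.sin (2 * α) : ℂ) * Complex.exp ((2 * α + 2 * β : ℝ) * Complex.I) = 0 := by
        have hb : Real.sin (2 * β) = Real.sin (2 * α + 2 * β) * Real.cos (2 * α) -
            Real.cos (2 * α + 2 * β) * Real.sin (2 * α) := by
          rw [← Real.sin_sub]
          ring_nf
        apply Complex.ext
        · simp only [Complex.add_re, Complex.mul_re, Complex.ofReal_re, Complex.ofReal_im,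
            Complex.exp_ofReal_mul_I_re, Complex.exp_ofReal_mul_I_im, Complex.zero_re]
          rw [hγe, hb]
          ring
        · simp only [Complex.add_im, Complex.mul_im, Complex.ofReal_re, Complex.ofReal_im,
            Complex.exp_ofReal_mul_I_re, Complex.exp_ofReal_mul_I_im, Complex.zero_im]
          rw [hγe]
          ring
      rw [k1, k2]
      linear_combination Complex.exp (θ * Complex.I) * k3
    have hSc : (S : ℂ) ≠ 0 := by exact_mod_cast hSpos.ne'
    have hSs : (S : ℂ) = (Real.sin (2 * α) : ℂ) + (Real.sin (2 * β) : ℂ) +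
        (Real.sin (2 * γ) : ℂ) := by
      rw [hS]
      push_cast
      ring
    unfold pt
    rw [Complex.ofReal_div, Complex.ofReal_div, Complex.ofReal_div]
    generalize Complex.exp ((θ : ℂ) * Complex.I) = E1 at e1 ⊢
    generalize Complex.exp (((θ + 2 * α : ℝ) : ℂ) * Complex.I) = E2 at e1 ⊢
    generalize Complex.exp (((θ + 2 * α + 2 * β : ℝ) : ℂ) * Complex.I) = E3 at e1 ⊢
    field_simp
    rw [hSs]
    linear_combination (R : ℂ) * e1

end Q126.MD
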