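import Pool.Agent.Q126.MD.Stmts

namespace Q126.MD

namespace CornerAux

lemma coords {a b c x : ℂ} (hx : x ∈ T a b c) : ∃ α β γ : ℝ, 0 ≤ α ∧ 0 ≤ β ∧ 0 ≤ γ ∧
    α + β + γ = 1 ∧ x = α * a + β * b + γ * c := by
  unfold T at hx
  rw [convexHull_insert (by simp), convexHull_pair, mem_convexJoin] at hx
  obtain ⟨p, hp, q, hq, hxpq⟩ := hx
  rw [Set.mem_singleton_iff] at hp
  subst hp
  obtain ⟨s, t, hs, ht, hst, rfl⟩ := hq
  obtain ⟨u, v, hu, hv, huv, rfl⟩ := hxpq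
  refine ⟨u, v * s, v * t, hu, mul_nonneg hv hs, mul_nonneg hv ht, ?_, ?_⟩
  · rw [add_assoc, ← mul_add, hst, mul_one, huv]
  · simp only [Complex.real_smul, Complex.ofReal_mul]
    ring

lemma sqn (a b : ℂ) : ‖a - b‖ ^ 2 = (a.re - b.re) ^ 2 + (a.im - b.im) ^ 2 := by
  rw [Complex.sq_norm, Complex.normSq_apply, Complex.sub_re, Complex.sub_im]
  ring

end CornerAux

open CornerAux in
theorem Corner : TaskCorner := by
  intro z a b c x R ha hb hc hx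
  obtain ⟨α, β, γ, hα, hβ, hγ, hsum, hxe⟩ := coords hx
  have hm0 : 0 ≤ m3 a b c x := le_min (norm_nonneg _) (le_min (norm_nonneg _) (norm_nonneg _))
  have h1 : m3 a b c x ^ 2 ≤ ‖x - a‖ ^ 2 := pow_le_pow_left₀ hm0 (min_le_left _ _) 2
  have h2 : m3 a b c x ^ 2 ≤ ‖x - b‖ ^ 2 :=
    pow_le_pow_left₀ hm0 ((min_le_right _ _).trans (min_le_left _ _)) 2
  have h3 : m3 a b c x ^ 2 ≤ ‖x - c‖ ^ 2 :=
    pow_le_pow_left₀ hm0 ((min_le_right _ _).trans (min_le_right _ _)) 2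
  have hre : x.re = α * a.re + β * b.re + γ * c.re := by
    rw [hxe]; simp
  have him : x.im = α * a.im + β * b.im + γ * c.im := by
    rw [hxe]; simp
  have key : α * ‖x - a‖ ^ 2 + β * ‖x - b‖ ^ 2 + γ * ‖x - c‖ ^ 2 = R ^ 2 - ‖x - z‖ ^ 2 := by
    have e : R ^ 2 = α * ‖a - z‖ ^ 2 + β * ‖b - z‖ ^ 2 + γ * ‖c - z‖ ^ 2 := by
      rw [ha, hb, hc, ← add_mul, ← add_mul, hsum, one_mul]
    rw [e]
    simp only [sqn]
    rw [hre, him]
    have hα' : α = 1 - β - γ := by linarith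
    rw [hα']
    ring
  rw [← key]
  have h4 := mul_le_mul_of_nonneg_left h1 hα
  have h5 := mul_le_mul_of_nonneg_left h2 hβ
  have h6 := mul_le_mul_of_nonneg_left h3 hγ
  have h7 : m3 a b c x ^ 2 = α * m3 a b c x ^ 2 + β * m3 a b c x ^ 2 + γ * m3 a b c x ^ 2 := by
    rw [← add_mul, ← add_mul, hsum, one_mul]
  rw [h7]
  linarith

end Q126.MD
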