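import Pool.Agent.Q126.MD.Stmts

namespace Q126.MD

open MeasureTheory Set

namespace CoverAux

theorem exists_min {ι : Type*} [Fintype ι] (p : ι → ℂ) (q : ι → ℝ) (x : ℂ)
    (h : ∃ w ∈ stdSimplex ℝ ι, ∑ i, w i • p i = x) :
    ∃ w ∈ stdSimplex ℝ ι, ∑ i, w i • p i = x ∧
      ∀ w' ∈ stdSimplex ℝ ι, ∑ i, w' i • p i = x → ∑ i, w i * q i ≤ ∑ i, w' i * q i := by
  have hcont : Continuous fun w : ι → ℝ => ∑ i, w i • p i := by fun_prop
  have hcont2 : Continuous fun w : ι → ℝ => ∑ i, w i * q i := by fun_prop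
  have hcomp : IsCompact (stdSimplex ℝ ι ∩ {w | ∑ i, w i • p i = x}) :=
    (isCompact_stdSimplex ℝ ι).inter_right (isClosed_eq hcont continuous_const)
  have hne : (stdSimplex ℝ ι ∩ {w | ∑ i, w i • p i = x}).Nonempty := by
    obtain ⟨w, h1, h2⟩ := h
    exact ⟨w, h1, h2⟩
  obtain ⟨w, hw, hmin⟩ := hcomp.exists_isMinOn hne hcont2.continuousOn
  exact ⟨w, hw.1, hw.2, fun w' h1 h2 => hmin ⟨h1, h2⟩⟩

theorem optimal {ι : Type*} [Fintype ι] [DecidableEq ι] (p : ι → ℂ) (q : ι → ℝ) (x : ℂ)
    (w : ι → ℝ) (hw : w ∈ stdSimplex ℝ ι) (hx : ∑ i, w i • p i = x)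
    (hmin : ∀ w' ∈ stdSimplex ℝ ι, ∑ i, w' i • p i = x → ∑ i, w i * q i ≤ ∑ i, w' i * q i)
    (i j k l : ι) (hi : 0 < w i) (hj : 0 < w j) (hk : 0 < w k) (α β γ : ℝ) (hs : α + β + γ = 1)
    (hp : α • p i + β • p j + γ • p k = p l) :
    α * q i + β * q j + γ * q k ≤ q l := by
  set μ := min (w i) (min (w j) (w k)) with hμ
  have hμ0 : 0 < μ := lt_min hi (lt_min hj hk)
  set A := 1 + |α| + |β| + |γ| with hA
  have hA0 : 0 < A := by positivity
  set ε := μ / A with hε
  have hε0 : 0 < ε := div_pos hμ0 hA0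
  have hεA : ε * A = μ := by rw [hε]; field_simp
  set w' : ι → ℝ := fun m => w m + ε * ((Pi.single l (1 : ℝ) : ι → ℝ) m - (Pi.single i α : ι → ℝ) m
    - (Pi.single j β : ι → ℝ) m - (Pi.single k γ : ι → ℝ) m) with hw'
  have hsum : ∀ (g : ι → ℝ), ∑ m, w' m * g m = ∑ m, w m * g m +
      ε * (g l - (α * g i + β * g j + γ * g k)) := by
    intro g
    have h1 : ∀ (n : ι) (a : ℝ), ∑ m, (Pi.single n a : ι → ℝ) m * g m = a * g n := by
      intro n a
      rw [Finset.sum_eq_single n]
      · simp
      · intro b _ hb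
        simp [Pi.single_eq_of_ne hb]
      · simp
    calc ∑ m, w' m * g m = ∑ m, (w m * g m + ε * ((Pi.single l (1 : ℝ) : ι → ℝ) m * g m
          - (Pi.single i α : ι → ℝ) m * g m - (Pi.single j β : ι → ℝ) m * g m
          - (Pi.single k γ : ι → ℝ) m * g m)) := by
          refine Finset.sum_congr rfl fun m _ => ?_
          rw [hw']; ring
      _ = _ := by
          rw [Finset.sum_add_distrib, ← Finset.mul_sum, Finset.sum_sub_distrib,
            Finset.sum_sub_distrib, Finset.sum_sub_distrib, h1, h1, h1, h1]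
          ring
  have hnonneg : ∀ m, 0 ≤ w' m := by
    intro m
    have hwm := hw.1 m
    have hab : ∀ (n : ι) (a : ℝ), (Pi.single n a : ι → ℝ) m ≤ |a| := by
      intro n a
      by_cases h : m = n
      · subst h; simp [le_abs_self]
      · simp [Pi.single_eq_of_ne h]
    have h1 : 0 ≤ (Pi.single l (1 : ℝ) : ι → ℝ) m := by
      by_cases h : m = l
      · subst h; simp
      · simp [Pi.single_eq_of_ne h]
    by_cases hm : m = i ∨ m = j ∨ m = k
    · have hmμ : μ ≤ w m := by
        rcases hm with rfl | rfl | rfl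
        · exact min_le_left _ _
        · exact (min_le_right _ _).trans (min_le_left _ _)
        · exact (min_le_right _ _).trans (min_le_right _ _)
      have h2 := hab i α
      have h3 := hab j β
      have h4 := hab k γ
      have h5 : -A ≤ (Pi.single l (1 : ℝ) : ι → ℝ) m - (Pi.single i α : ι → ℝ) m
        - (Pi.single j β : ι → ℝ) m - (Pi.single k γ : ι → ℝ) m := by
        rw [hA]; linarith
      have h6 := mul_le_mul_of_nonneg_left h5 hε0.le
      show 0 ≤ w m + ε * _
      nlinarith [h6, hεA, hmμ]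
    · push Not at hm
      have h2 : (Pi.single i α : ι → ℝ) m = 0 := Pi.single_eq_of_ne hm.1 _
      have h3 : (Pi.single j β : ι → ℝ) m = 0 := Pi.single_eq_of_ne hm.2.1 _
      have h4 : (Pi.single k γ : ι → ℝ) m = 0 := Pi.single_eq_of_ne hm.2.2 _
      show 0 ≤ w m + ε * _
      rw [h2, h3, h4]
      simp only [sub_zero]
      positivity
  have hmem : w' ∈ stdSimplex ℝ ι := by
    refine ⟨hnonneg, ?_⟩
    have := hsum (fun _ => 1)
    simp only [mul_one] at this
    rw [this, hw.2, hs]; ring
  have hx' : ∑ m, w' m • p m = x := by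
    apply Complex.ext
    · have h1 := hsum (fun m => (p m).re)
      have h2 := congrArg Complex.re hx
      have h3 := congrArg Complex.re hp
      simp only [Complex.re_sum, Complex.add_re, Complex.real_smul, Complex.re_ofReal_mul] at h1 h2 h3 ⊢
      rw [h1, h2, h3]; ring
    · have h1 := hsum (fun m => (p m).im)
      have h2 := congrArg Complex.im hx
      have h3 := congrArg Complex.im hp
      simp only [Complex.im_sum, Complex.add_im, Complex.real_smul, Complex.im_ofReal_mul] at h1 h2 h3 ⊢
      rw [h1, h2, h3]; ring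
  have h := hmin w' hmem hx'
  rw [hsum q] at h
  nlinarith [h, hε0]

/-- determinant -/
def D (a b c : ℂ) : ℝ := (b - a).re * (c - a).im - (b - a).im * (c - a).re

theorem bary (a b c s : ℂ) (hD : D a b c ≠ 0) :
    ∃ α β γ : ℝ, α + β + γ = 1 ∧ α • a + β • b + γ • c = s := by
  refine ⟨1 - D a s c / D a b c - D a b s / D a b c, D a s c / D a b c, D a b s / D a b c,
    by ring, ?_⟩
  have hd : D a b c = (b.re - a.re) * (c.im - a.im) - (b.im - a.im) * (c.re - a.re) := rfl
  have h1 : D a s c = (s.re - a.re) * (c.im - a.im) - (s.im - a.im) * (c.re - a.re) := rfl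
  have h2 : D a b s = (b.re - a.re) * (s.im - a.im) - (b.im - a.im) * (s.re - a.re) := rfl
  rw [h1, h2]
  generalize D a b c = d at hD hd
  apply Complex.ext
  · simp only [Complex.add_re, Complex.real_smul, Complex.re_ofReal_mul]
    field_simp
    linear_combination (a.re - s.re) * hd
  · simp only [Complex.add_im, Complex.real_smul, Complex.im_ofReal_mul]
    field_simp
    linear_combination (a.im - s.im) * hd

theorem centre (a b c : ℂ) (hD : D a b c ≠ 0) :
    ∃ z : ℂ, Complex.normSq (b - z) = Complex.normSq (a - z) ∧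
      Complex.normSq (c - z) = Complex.normSq (a - z) := by
  have hd : D a b c = (b.re - a.re) * (c.im - a.im) - (b.im - a.im) * (c.re - a.re) := rfl
  generalize D a b c = d at hD hd
  obtain ⟨X, hX⟩ : ∃ X : ℝ, 2 * d * X = (Complex.normSq b - Complex.normSq a) * (c.im - a.im)
      - (Complex.normSq c - Complex.normSq a) * (b.im - a.im) :=
    ⟨_ / (2 * d), mul_div_cancel₀ _ (mul_ne_zero two_ne_zero hD)⟩
  obtain ⟨Y, hY⟩ : ∃ Y : ℝ, 2 * d * Y = (b.re - a.re) * (Complex.normSq c - Complex.normSq a)
      - (c.re - a.re) * (Complex.normSq b - Complex.normSq a) :=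
    ⟨_ / (2 * d), mul_div_cancel₀ _ (mul_ne_zero two_ne_zero hD)⟩
  simp only [Complex.normSq_apply] at hX hY
  refine ⟨⟨X, Y⟩, ?_, ?_⟩
  · simp only [Complex.normSq_apply, Complex.sub_re, Complex.sub_im]
    apply mul_left_cancel₀ hD
    linear_combination (-(b.re - a.re)) * hX - (b.im - a.im) * hY +
      (b.re * b.re + b.im * b.im - (a.re * a.re + a.im * a.im)) * hd
  · simp only [Complex.normSq_apply, Complex.sub_re, Complex.sub_im]
    apply mul_left_cancel₀ hD
    linear_combination (-(c.re - a.re)) * hX - (c.im - a.im) * hY +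
      (c.re * c.re + c.im * c.im - (a.re * a.re + a.im * a.im)) * hd

theorem power (a b c s z : ℂ) (hb : Complex.normSq (b - z) = Complex.normSq (a - z))
    (hc : Complex.normSq (c - z) = Complex.normSq (a - z)) (α β γ : ℝ) (hs : α + β + γ = 1)
    (hp : α • a + β • b + γ • c = s) :
    Complex.normSq (s - z) - Complex.normSq (a - z) =
      Complex.normSq s - (α * Complex.normSq a + β * Complex.normSq b + γ * Complex.normSq c) := by
  have h1 := congrArg Complex.re hp
  have h2 := congrArg Complex.im hp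
  simp only [Complex.add_re, Complex.real_smul, Complex.re_ofReal_mul] at h1
  simp only [Complex.add_im, Complex.real_smul, Complex.im_ofReal_mul] at h2
  simp only [Complex.normSq_apply, Complex.sub_re, Complex.sub_im] at hb hc ⊢
  have hα : α = 1 - β - γ := by linarith
  subst hα
  rw [← h1, ← h2]
  linear_combination β * hb + γ * hc

theorem D_ne (S : Finset ℂ) (a b c x : ℂ) (ha : a ∈ S) (hb : b ∈ S) (hc : c ∈ S) (hoff : Off S x)
    (α β γ : ℝ) (hs : α + β + γ = 1) (hx : α • a + β • b + γ • c = x) : D a b c ≠ 0 := by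
  intro hD
  have hd : D a b c = (b.re - a.re) * (c.im - a.im) - (b.im - a.im) * (c.re - a.re) := rfl
  rw [hD] at hd
  have hα : α = 1 - β - γ := by linarith
  subst hα
  by_cases hab : b = a
  · subst hab
    apply hoff b hb c hc
    have : x = AffineMap.lineMap b c γ := by
      rw [← hx, AffineMap.lineMap_apply_module]; module
    rw [this]
    exact AffineMap.lineMap_mem_affineSpan_pair _ _ _
  · -- c = a + t (b - a)
    obtain ⟨t, ht⟩ : ∃ t : ℝ, c = a + t • (b - a) := by
      by_cases hre : b.re = a.re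
      · have him : b.im - a.im ≠ 0 := by
          intro h
          exact hab (Complex.ext hre (by linarith))
        refine ⟨(c.im - a.im) / (b.im - a.im), ?_⟩
        have h3 : c.re - a.re = 0 := by
          rw [hre, sub_self, zero_mul, zero_sub, eq_comm, neg_eq_zero] at hd
          exact (mul_eq_zero.1 hd).resolve_left him
        apply Complex.ext
        · simp only [Complex.add_re, Complex.real_smul, Complex.re_ofReal_mul, Complex.sub_re]
          rw [hre]; linarith
        · simp only [Complex.add_im, Complex.real_smul, Complex.im_ofReal_mul, Complex.sub_im]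
          field_simp
          ring
      · have hre' : b.re - a.re ≠ 0 := sub_ne_zero.2 hre
        refine ⟨(c.re - a.re) / (b.re - a.re), ?_⟩
        apply Complex.ext
        · simp only [Complex.add_re, Complex.real_smul, Complex.re_ofReal_mul, Complex.sub_re]
          field_simp
          ring
        · simp only [Complex.add_im, Complex.real_smul, Complex.im_ofReal_mul, Complex.sub_im]
          field_simp
          linear_combination (-1 : ℝ) * hd
    apply hoff a ha b hb
    have : x = AffineMap.lineMap a b (β + γ * t) := by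
      rw [← hx, ht, AffineMap.lineMap_apply_module]; module
    rw [this]
    exact AffineMap.lineMap_mem_affineSpan_pair _ _ _

end CoverAux

open CoverAux in
theorem Cover : TaskCover := by
  intro S x hxS hoff
  classical
  obtain ⟨w0, hw0, hw1, hw2⟩ := Finset.mem_convexHull'.1 hxS
  have hex : ∃ w ∈ stdSimplex ℝ ↥S, ∑ i, w i • (i : ℂ) = x := by
    refine ⟨fun i => w0 i, ⟨fun i => hw0 i i.2, ?_⟩, ?_⟩
    · rw [← hw1]
      exact Finset.sum_coe_sort S w0
    · rw [← hw2]
      exact Finset.sum_coe_sort S (fun y => w0 y • y)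
  obtain ⟨w, hw, hwx, hmin⟩ := exists_min (fun i : ↥S => (i : ℂ)) (fun i : ↥S => Complex.normSq i) x hex
  -- the support
  set P : Set ℂ := {y | ∃ h : y ∈ S, 0 < w ⟨y, h⟩} with hP
  have hxP : x ∈ convexHull ℝ P := by
    rw [← hwx]
    have h0 : ∑ i, w i • (i : ℂ) = ∑ i ∈ Finset.univ.filter (fun i => 0 < w i), w i • (i : ℂ) := by
      rw [Finset.sum_filter]
      refine Finset.sum_congr rfl fun i _ => ?_
      split_ifs with h
      · rfl
      · have : w i = 0 := le_antisymm (not_lt.1 h) (hw.1 i)
        rw [this, zero_smul]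
    have h1 : ∑ i ∈ Finset.univ.filter (fun i => 0 < w i), w i = 1 := by
      rw [← hw.2, Finset.sum_filter]
      refine Finset.sum_congr rfl fun i _ => ?_
      split_ifs with h
      · rfl
      · exact (le_antisymm (not_lt.1 h) (hw.1 i)).symm
    rw [h0]
    refine (convex_convexHull ℝ P).sum_mem (fun i _ => hw.1 i) h1 fun i hi => ?_
    exact subset_convexHull ℝ P ⟨i.2, (Finset.mem_filter.1 hi).2⟩
  rw [convexHull_eq_union] at hxP
  simp only [mem_iUnion] at hxP
  obtain ⟨t, htP, hai, hxt⟩ := hxP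
  have htS : ∀ y ∈ t, y ∈ S := fun y hy => (htP hy).1
  have hcard3 : t.card ≤ 3 := by
    have h1 := hai.card_le_finrank_succ
    have h2 : Module.finrank ℝ (vectorSpan ℝ (Set.range ((↑) : t → ℂ))) ≤ 2 := by
      rw [← Complex.finrank_real_complex]
      exact Submodule.finrank_le _
    rw [Fintype.card_coe] at h1
    omega
  obtain ⟨v, hv0, hv1, hv2⟩ := Finset.mem_convexHull'.1 hxt
  have hcard : t.card = 3 := by
    interval_cases h : t.card
    · rw [Finset.card_eq_zero] at h
      subst h
      simp at hv1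
    · obtain ⟨a, rfl⟩ := Finset.card_eq_one.1 h
      simp only [Finset.sum_singleton] at hv1 hv2
      rw [hv1, one_smul] at hv2
      exact absurd (hv2 ▸ left_mem_affineSpan_pair ℝ a a)
        (hoff a (htS a (by simp)) a (htS a (by simp)))
    · obtain ⟨a, b, hab, rfl⟩ := Finset.card_eq_two.1 h
      rw [Finset.sum_pair hab] at hv1 hv2
      refine absurd ?_ (hoff a (htS a (by simp)) b (htS b (by simp)))
      have : x = AffineMap.lineMap a b (v b) := by
        rw [← hv2, AffineMap.lineMap_apply_module]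
        have : v a = 1 - v b := by linarith
        rw [this]
      rw [this]
      exact AffineMap.lineMap_mem_affineSpan_pair _ _ _
    · rfl
  obtain ⟨a, b, c, hab, hac, hbc, rfl⟩ := Finset.card_eq_three.1 hcard
  have haP := htP (show a ∈ (({a, b, c} : Finset ℂ) : Set ℂ) by simp)
  have hbP := htP (show b ∈ (({a, b, c} : Finset ℂ) : Set ℂ) by simp)
  have hcP := htP (show c ∈ (({a, b, c} : Finset ℂ) : Set ℂ) by simp)
  obtain ⟨haS, hwa⟩ := haP
  obtain ⟨hbS, hwb⟩ := hbP
  obtain ⟨hcS, hwc⟩ := hcP
  have hsum1 : v a + v b + v c = 1 := by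
    rw [Finset.sum_insert (by simp [hab, hac]), Finset.sum_pair hbc] at hv1
    linarith
  have hsum2 : v a • a + v b • b + v c • c = x := by
    rw [Finset.sum_insert (by simp [hab, hac]), Finset.sum_pair hbc] at hv2
    rw [← hv2, add_assoc]
  have hD := D_ne S a b c x haS hbS hcS hoff _ _ _ hsum1 hsum2
  obtain ⟨z, hzb, hzc⟩ := centre a b c hD
  refine ⟨{a, b, c}, ⟨fun y hy => htS y hy, hcard, z, ‖a - z‖, ?_, ?_⟩, hxt⟩
  · intro y hy
    simp only [Finset.mem_insert, Finset.mem_singleton] at hy
    rcases hy with rfl | rfl | rfl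
    · rfl
    · rw [Complex.normSq_eq_norm_sq, Complex.normSq_eq_norm_sq] at hzb
      exact (pow_left_inj₀ (norm_nonneg _) (norm_nonneg _) two_ne_zero).1 hzb
    · rw [Complex.normSq_eq_norm_sq, Complex.normSq_eq_norm_sq] at hzc
      exact (pow_left_inj₀ (norm_nonneg _) (norm_nonneg _) two_ne_zero).1 hzc
  · intro s hs
    obtain ⟨α, β, γ, h1, h2⟩ := bary a b c s hD
    have h3 := optimal (fun i : ↥S => (i : ℂ)) (fun i : ↥S => Complex.normSq i) x w hw hwx hmin
      ⟨a, haS⟩ ⟨b, hbS⟩ ⟨c, hcS⟩ ⟨s, hs⟩ hwa hwb hwc α β γ h1 h2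
    have h4 := power a b c s z hzb hzc α β γ h1 h2
    have h5 : Complex.normSq (a - z) ≤ Complex.normSq (s - z) := by
      simp only at h3
      linarith
    rw [Complex.normSq_eq_norm_sq, Complex.normSq_eq_norm_sq] at h5
    exact (pow_le_pow_iff_left₀ (norm_nonneg _) (norm_nonneg _) two_ne_zero).1 h5

end Q126.MD
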