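import Pool.Agent.Q126.MD.Stmts

set_option autoImplicit false

namespace Q126.MD

open MeasureTheory Set

theorem Fraction : TaskFraction := by
  intro C v x η n hC hK hv hx hη hn hfar
  have hn0 : (0 : ℝ) < n := by exact_mod_cast hn
  set A : Set ℂ := C ∩ Metric.closedBall v η with hA
  have hAK : IsCompact A := hK.inter_right Metric.isClosed_closedBall
  set t : ℕ → ℝ := fun j => j / (2 * n) with ht
  set f : ℕ → ℂ → ℂ := fun j => AffineMap.homothety x (1 - t j) with hf
  have hfv : ∀ j y, f j y = x + ((1 - t j : ℝ) : ℂ) * (y - x) := by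
    intro j y
    simp only [hf, AffineMap.homothety_apply, vsub_eq_sub, vadd_eq_add, Complex.real_smul]
    ring
  have ht0 : ∀ j, 0 ≤ t j := fun j => by positivity
  have ht1 : ∀ j ∈ Finset.range n, t j ≤ 1 / 2 := by
    intro j hj
    have h1 : (j : ℝ) ≤ n := by exact_mod_cast (Finset.mem_range.1 hj).le
    simp only [ht]
    rw [div_le_div_iff₀ (by positivity) (by norm_num)]
    linarith
  have hcont : ∀ j, Continuous (f j) := fun j => by
    have : f j = fun y => x + ((1 - t j : ℝ) : ℂ) * (y - x) := funext (hfv j)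
    rw [this]
    fun_prop
  have hmeas : ∀ j, MeasurableSet (f j '' A) := fun j =>
    (hAK.image (hcont j)).isClosed.measurableSet
  have hsub : ∀ j ∈ Finset.range n, f j '' A ⊆ C := by
    rintro j hj _ ⟨y, hy, rfl⟩
    rw [hfv]
    have h1 := hC hy.1 hx (a := 1 - t j) (b := t j) (by linarith [ht1 j hj]) (ht0 j) (by ring)
    have h2 : x + ((1 - t j : ℝ) : ℂ) * (y - x) = (1 - t j) • y + t j • x := by
      rw [Complex.real_smul, Complex.real_smul]
      push_cast
      ring
    rw [h2]
    exact h1
  have hdisj : Set.PairwiseDisjoint (↑(Finset.range n) : Set ℕ) (fun j => f j '' A) := by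
    intro i hi j hj hij
    rw [Function.onFun, Set.disjoint_left]
    rintro _ ⟨y, hy, rfl⟩ ⟨y', hy', he⟩
    rw [hfv, hfv] at he
    have hy1 : ‖y - v‖ ≤ η := by simpa [dist_eq_norm] using hy.2
    have hy1' : ‖y' - v‖ ≤ η := by simpa [dist_eq_norm] using hy'.2
    have hti := ht1 i (by simpa using hi)
    have htj := ht1 j (by simpa using hj)
    have e1 : ((t i - t j : ℝ) : ℂ) * (x - v) =
        ((1 - t j : ℝ) : ℂ) * (y' - v) - ((1 - t i : ℝ) : ℂ) * (y - v) := by
      push_cast at he ⊢
      linear_combination (-1 : ℂ) * he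
    have e2 : |t i - t j| * ‖x - v‖ ≤ (1 - t j) * η + (1 - t i) * η := by
      have := congrArg norm e1
      rw [norm_mul, Complex.norm_real, Real.norm_eq_abs] at this
      rw [this]
      refine (norm_sub_le _ _).trans (add_le_add ?_ ?_)
      · rw [norm_mul, Complex.norm_real, Real.norm_eq_abs, abs_of_nonneg (by linarith)]
        exact mul_le_mul_of_nonneg_left hy1' (by linarith)
      · rw [norm_mul, Complex.norm_real, Real.norm_eq_abs, abs_of_nonneg (by linarith)]
        exact mul_le_mul_of_nonneg_left hy1 (by linarith)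
    have e3 : 1 / (2 * n) ≤ |t i - t j| := by
      have h1 : t i - t j = ((i : ℝ) - j) / (2 * n) := by simp only [ht]; ring
      rw [h1, abs_div, abs_of_pos (show (0 : ℝ) < 2 * n by positivity)]
      refine div_le_div_of_nonneg_right ?_ (by positivity)
      have h2 : (1 : ℤ) ≤ |(i : ℤ) - j| := Int.one_le_abs (sub_ne_zero.2 (by exact_mod_cast hij))
      have h3 : ((1 : ℤ) : ℝ) ≤ ((|(i : ℤ) - j| : ℤ) : ℝ) := by exact_mod_cast h2
      push_cast at h3
      exact h3
    have e4 : 2 * η ≤ |t i - t j| * ‖x - v‖ := by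
      calc 2 * η = 1 / (2 * n) * (4 * n * η) := by field_simp; ring
        _ ≤ |t i - t j| * ‖x - v‖ := mul_le_mul e3 hfar (by positivity) (abs_nonneg _)
    have e5 : 0 < t i + t j := by
      by_contra h
      have h1 : t i = 0 := le_antisymm (by linarith [ht0 j]) (ht0 i)
      have h2 : t j = 0 := le_antisymm (by linarith [ht0 i]) (ht0 j)
      rw [h1, h2, sub_zero, abs_zero] at e3
      have : (0 : ℝ) < 1 / (2 * n) := by positivity
      linarith
    nlinarith [mul_pos e5 hη]
  have hle : ∑ j ∈ Finset.range n, volume (f j '' A) ≤ volume C := by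
    rw [← measure_biUnion_finset hdisj fun j _ => hmeas j]
    exact measure_mono (Set.iUnion₂_subset hsub)
  have hCt : volume C ≠ ⊤ := hK.measure_lt_top.ne
  have hAt : volume A ≠ ⊤ := hAK.measure_lt_top.ne
  have hone : ∀ j ∈ Finset.range n, ENNReal.ofReal (1 / 4) * volume A ≤ volume (f j '' A) := by
    intro j hj
    have h1 : volume (f j '' A) = ENNReal.ofReal |(1 - t j) ^ Module.finrank ℝ ℂ| * volume A :=
      Measure.addHaar_image_homothety volume x (1 - t j) A
    rw [h1, Complex.finrank_real_complex]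
    refine mul_le_mul_left ?_ _
    refine ENNReal.ofReal_le_ofReal ?_
    rw [abs_of_nonneg (by positivity)]
    nlinarith [ht1 j hj]
  have h2 : (n : ENNReal) * (ENNReal.ofReal (1 / 4) * volume A) ≤ volume C := by
    have h3 := (Finset.sum_le_sum hone).trans hle
    rwa [Finset.sum_const, Finset.card_range, nsmul_eq_mul] at h3
  have h3 := ENNReal.toReal_mono hCt h2
  rw [ENNReal.toReal_mul, ENNReal.toReal_mul, ENNReal.toReal_natCast,
    ENNReal.toReal_ofReal (by norm_num)] at h3
  linarith

end Q126.MD
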