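import Pool.Agent.Q126.MD.Stmts

namespace Q126.MD

open MeasureTheory Set

theorem G0 : TaskG0 := by
  unfold TaskG0 G c0
  have hd : ∀ u : ℝ, HasDerivAt (fun u : ℝ => (u * Real.sqrt (1 + u ^ 2) + Real.arsinh u) / 2)
      (Real.sqrt (1 + u ^ 2)) u := by
    intro u
    have hp : (0 : ℝ) < 1 + u ^ 2 := by positivity
    have h1 : HasDerivAt (fun u : ℝ => 1 + u ^ 2) (2 * u) u := by
      have := ((hasDerivAt_id u).pow 2).const_add (1 : ℝ)
      simpa using this
    have h2 := h1.sqrt hp.ne'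
    have h3 := (hasDerivAt_id u).mul h2
    have h4 := (h3.add (Real.hasDerivAt_arsinh u)).div_const 2
    refine (h4.congr_deriv ?_)
    have hs : Real.sqrt (1 + u ^ 2) ≠ 0 := (Real.sqrt_pos.2 hp).ne'
    have hq := Real.sq_sqrt hp.le
    simp only [id]
    field_simp
    nlinarith [hq]
  rw [intervalIntegral.integral_eq_sub_of_hasDerivAt (fun u _ => hd u)
    ((by fun_prop : Continuous fun u : ℝ => Real.sqrt (1 + u ^ 2)).intervalIntegrable _ _)]
  have h3 : (0 : ℝ) < Real.sqrt 3 := Real.sqrt_pos.2 (by norm_num)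
  have h33 : Real.sqrt 3 ^ 2 = 3 := Real.sq_sqrt (by norm_num)
  have e1 : Real.sqrt (1 + (1 / Real.sqrt 3) ^ 2) = 2 / Real.sqrt 3 := by
    rw [div_pow, h33, one_pow]
    rw [Real.sqrt_eq_iff_mul_self_eq (by norm_num) (by positivity)]
    rw [div_mul_div_comm, ← pow_two, ← pow_two, h33]
    norm_num
  rw [Real.arsinh, Real.arsinh_zero, e1]
  have e2 : 1 / Real.sqrt 3 + 2 / Real.sqrt 3 = Real.sqrt 3 := by
    field_simp
    nlinarith [h33]
  rw [e2, Real.log_sqrt (by norm_num)]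
  have e3 : 1 / Real.sqrt 3 * (2 / Real.sqrt 3) = 2 / 3 := by
    rw [div_mul_div_comm, ← pow_two, h33]
    norm_num
  rw [e3]
  ring

end Q126.MD
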