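import Pool.Agent.Q126.MD.Stmts

set_option autoImplicit false

open MeasureTheory Set

namespace Q126.MD

theorem taskGJensen : TaskGJensen := by
  intro t ht
  unfold G
  set w : ℝ := Real.sqrt (1 + t ^ 2 / 3) with hw
  have hw2 : w ^ 2 = 1 + t ^ 2 / 3 := Real.sq_sqrt (by positivity)
  have hwpos : 0 < w := Real.sqrt_pos.2 (by positivity)
  have h1 : ∫ u in (0 : ℝ)..t, Real.sqrt (1 + u ^ 2) ≤
      ∫ u in (0 : ℝ)..t, (1 + w ^ 2 + u ^ 2) / (2 * w) := by
    refine intervalIntegral.integral_mono_on ht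
      (Continuous.intervalIntegrable (by fun_prop) _ _)
      (Continuous.intervalIntegrable (by fun_prop) _ _) fun u _ => ?_
    rw [le_div_iff₀ (by positivity)]
    have h2 : Real.sqrt (1 + u ^ 2) ^ 2 = 1 + u ^ 2 := Real.sq_sqrt (by positivity)
    nlinarith [sq_nonneg (Real.sqrt (1 + u ^ 2) - w)]
  have h3 : ∫ u in (0 : ℝ)..t, (1 + w ^ 2 + u ^ 2) / (2 * w) = t * w := by
    rw [intervalIntegral.integral_div, intervalIntegral.integral_add
      (Continuous.intervalIntegrable (by fun_prop) _ _)
      (Continuous.intervalIntegrable (by fun_prop) _ _), intervalIntegral.integral_const,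
      integral_pow]
    rw [div_eq_iff (by positivity)]
    simp only [smul_eq_mul]
    have : t ^ 2 = 3 * (w ^ 2 - 1) := by rw [hw2]; ring
    norm_num
    have h4 : t ^ 3 = t * t ^ 2 := by ring
    rw [h4, this]
    ring
  rw [h3] at h1
  exact h1

end Q126.MD
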