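import Pool.Agent.Q126.MD.Stmts2

set_option autoImplicit false

namespace Q126.MD

open MeasureTheory Set

theorem Hull : TaskHull := by
  intro Ω B ρ δ S hS x hx
  by_contra hcon
  have hB := hS.posB
  -- points outside of the ball of radius `B`
  have hout : ∀ y : ℂ, ‖y‖ = B + 1 → ∃ s ∈ S, ‖y - s‖ < δ := by
    intro y hy
    refine hS.net y ?_ (by rw [hy]; linarith)
    intro hyΩ
    have := hS.sub y hyΩ
    rw [hy] at this
    linarith
  have hclosed : IsClosed (convexHull ℝ (S : Set ℂ)) :=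
    (S.finite_toSet).isClosed_convexHull ℝ
  obtain ⟨f, u, hfu, hux⟩ := geometric_hahn_banach_closed_point (convex_convexHull ℝ (S : Set ℂ))
    hclosed hcon
  set v : ℂ := (InnerProductSpace.toDual ℝ ℂ).symm f with hv
  have hf : ∀ y, f y = inner ℝ v y := by
    intro y
    rw [hv, InnerProductSpace.toDual_symm_apply]
  have hv0 : v ≠ 0 := by
    intro h0
    obtain ⟨s, hs, -⟩ := hout ((B + 1 : ℝ) : ℂ) (by
      rw [Complex.norm_real, Real.norm_eq_abs, abs_of_pos (by linarith)])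
    have h1 := hfu s (subset_convexHull ℝ _ hs)
    rw [hf, h0, inner_zero_left] at h1
    rw [hf, h0, inner_zero_left] at hux
    linarith
  have hvpos : 0 < ‖v‖ := norm_pos_iff.2 hv0
  obtain ⟨s, hs, hsy⟩ := hout (((B + 1) / ‖v‖ : ℝ) • v) (by
    rw [norm_smul, Real.norm_eq_abs, abs_of_pos (by positivity), div_mul_cancel₀ _ hvpos.ne'])
  have h1 := hfu s (subset_convexHull ℝ _ hs)
  rw [hf] at h1 hux
  have h2 : inner ℝ v (((B + 1) / ‖v‖ : ℝ) • v) = ‖v‖ * (B + 1) := by
    rw [inner_smul_right, real_inner_self_eq_norm_sq]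
    field_simp
  have h3 : inner ℝ v (((B + 1) / ‖v‖ : ℝ) • v - s) ≤ ‖v‖ * δ :=
    (real_inner_le_norm _ _).trans (by gcongr)
  rw [inner_sub_right, h2] at h3
  have h4 : inner ℝ v x ≤ ‖v‖ * B :=
    (real_inner_le_norm _ _).trans (by gcongr; exact (hS.sub x hx).le)
  have h5 : ‖v‖ * δ < ‖v‖ * 1 := by
    have := hS.δlt
    gcongr
  nlinarith

end Q126.MD
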