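import Pool.Agent.Q126.MD.Stmts

/-! MD.TaskI1: the tangent line inequality at `π/3`. -/

namespace Q126.MD

open MeasureTheory Set

namespace I1aux

theorem hasDerivAt_G (t : ℝ) : HasDerivAt G (Real.sqrt (1 + t ^ 2)) t := by
  have hc : Continuous (fun u : ℝ => Real.sqrt (1 + u ^ 2)) := by fun_prop
  exact intervalIntegral.integral_hasDerivAt_right (hc.intervalIntegrable _ _)
    (hc.stronglyMeasurableAtFilter _ _) hc.continuousAt

theorem c0_lt : c0 < 0.609 := by
  unfold c0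
  have h2 := Real.log_two_lt_d9
  have h9 : Real.log 9 = 2 * Real.log 3 := by
    rw [show (9 : ℝ) = 3 ^ 2 by norm_num, Real.log_pow]; norm_num
  have h9' : Real.log 9 = 3 * Real.log 2 + Real.log (9 / 8) := by
    rw [show (9 : ℝ) = 2 ^ 3 * (9 / 8) by norm_num, Real.log_mul (by norm_num) (by norm_num), Real.log_pow]
    norm_num
  have h98 : Real.log (9 / 8) ≤ 9 / 8 - 1 := Real.log_le_sub_one_of_pos (by norm_num)
  norm_num at h98 h2 ⊢
  linarith

theorem lt_c0 : 0.607 < c0 := by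
  unfold c0
  have h2 := Real.log_two_gt_d9
  have h9 : Real.log 9 = 2 * Real.log 3 := by
    rw [show (9 : ℝ) = 3 ^ 2 by norm_num, Real.log_pow]; norm_num
  have h9' : Real.log 9 = 3 * Real.log 2 + Real.log (9 / 8) := by
    rw [show (9 : ℝ) = 2 ^ 3 * (9 / 8) by norm_num, Real.log_mul (by norm_num) (by norm_num), Real.log_pow]
    norm_num
  have h98 : 1 - (9 / 8 : ℝ)⁻¹ ≤ Real.log (9 / 8) := Real.one_sub_inv_le_log_of_pos (by norm_num)
  norm_num at h98 h2 ⊢
  linarith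

noncomputable def Dm (t : ℝ) : ℝ := G t - c0 / 8 * ((9 * t + 1 / t) * Real.sqrt (1 + t ^ 2))

theorem hasDerivAt_sqrt' (t : ℝ) :
    HasDerivAt (fun t : ℝ => Real.sqrt (1 + t ^ 2)) (t / Real.sqrt (1 + t ^ 2)) t := by
  have h1 : HasDerivAt (fun t : ℝ => 1 + t ^ 2) (2 * t) t := by
    have := (hasDerivAt_pow 2 t).const_add 1
    simpa using this
  have h2 := h1.sqrt (by positivity)
  convert h2 using 1
  field_simp

theorem hasDerivAt_Dm (t : ℝ) (ht : 0 < t) :
    HasDerivAt Dm ((t ^ 2 + t ^ 4 - c0 / 8 * (18 * t ^ 4 + 9 * t ^ 2 - 1)) /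
      (t ^ 2 * Real.sqrt (1 + t ^ 2))) t := by
  have h1 : HasDerivAt (fun t : ℝ => 9 * t + 1 / t) (9 - 1 / t ^ 2) t := by
    have ha : HasDerivAt (fun t : ℝ => 9 * t) 9 t := by
      simpa using (hasDerivAt_id t).const_mul 9
    have hb : HasDerivAt (fun t : ℝ => 1 / t) (- 1 / t ^ 2) t := by
      have := hasDerivAt_inv ht.ne'
      simpa [one_div, neg_div] using this
    have := ha.add hb
    exact this.congr_deriv (by rw [neg_div]; ring)
  have h2 := ((h1.mul (hasDerivAt_sqrt' t)).const_mul (c0 / 8))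
  have h3 := (hasDerivAt_G t).sub h2
  refine (h3.congr_deriv ?_)
  have hw : 0 < Real.sqrt (1 + t ^ 2) := Real.sqrt_pos.mpr (by positivity)
  have hw2 : Real.sqrt (1 + t ^ 2) ^ 2 = 1 + t ^ 2 := Real.sq_sqrt (by positivity)
  generalize Real.sqrt (1 + t ^ 2) = w at *
  have ht' := ht.ne'
  field_simp
  simp only [hw2]
  ring

theorem deriv_num_nonneg (t : ℝ) (ht : 0 < t) (ht1 : t ≤ 1) :
    0 ≤ (t ^ 2 + t ^ 4 - c0 / 8 * (18 * t ^ 4 + 9 * t ^ 2 - 1)) := by
  have h1 := c0_lt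
  have h2 := lt_c0
  have hs : 0 < t ^ 2 := by positivity
  have hs1 : t ^ 2 ≤ 1 := by nlinarith
  have e : t ^ 4 = (t ^ 2) ^ 2 := by ring
  rw [e]
  generalize t ^ 2 = s at *
  norm_num at h1 h2
  nlinarith [mul_nonneg hs.le (sub_nonneg.mpr hs1), mul_nonneg (mul_nonneg hs.le (sub_nonneg.mpr hs1)) (by linarith : 0 ≤ c0)]

theorem Dm_mono : MonotoneOn Dm (Ioc 0 1) := by
  apply monotoneOn_of_deriv_nonneg (convex_Ioc 0 1)
  · intro x hx
    exact (hasDerivAt_Dm x hx.1).continuousAt.continuousWithinAt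
  · intro x hx
    rw [interior_Ioc] at hx
    exact (hasDerivAt_Dm x hx.1).differentiableAt.differentiableWithinAt
  · intro x hx
    rw [interior_Ioc] at hx
    rw [(hasDerivAt_Dm x hx.1).deriv]
    have := deriv_num_nonneg x hx.1 hx.2.le
    positivity

theorem inv_sqrt3_pos : 0 < 1 / Real.sqrt 3 := by positivity

theorem inv_sqrt3_sq : (1 / Real.sqrt 3) ^ 2 = 1 / 3 := by
  rw [div_pow, Real.sq_sqrt (by norm_num)]; norm_num

theorem inv_sqrt3_lt : 1 / Real.sqrt 3 < 2887 / 5000 := by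
  have h := inv_sqrt3_sq
  have h' := inv_sqrt3_pos
  nlinarith

theorem Dm_inv_sqrt3 (hG : G (1 / Real.sqrt 3) = c0) : Dm (1 / Real.sqrt 3) = 0 := by
  unfold Dm
  rw [hG, inv_sqrt3_sq]
  have h3 : Real.sqrt 3 ^ 2 = 3 := Real.sq_sqrt (by norm_num)
  have h3p : 0 < Real.sqrt 3 := Real.sqrt_pos.mpr (by norm_num)
  have e : Real.sqrt (1 + 1 / 3) = 2 / Real.sqrt 3 := by
    rw [eq_div_iff h3p.ne', ← Real.sqrt_mul (by norm_num)]
    rw [show (1 + 1 / 3 : ℝ) * 3 = 2 ^ 2 by norm_num, Real.sqrt_sq (by norm_num)]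
  rw [e]
  field_simp
  rw [h3]
  ring

/-- left part -/
theorem Dm_nonpos (hG : G (1 / Real.sqrt 3) = c0) (t : ℝ) (ht : 0 < t) (ht1 : t ≤ 1 / Real.sqrt 3) :
    Dm t ≤ 0 := by
  rw [← Dm_inv_sqrt3 hG]
  have := inv_sqrt3_lt
  exact Dm_mono ⟨ht, by linarith⟩ ⟨inv_sqrt3_pos, by linarith⟩ ht1

theorem Dm_nonneg1 (hG : G (1 / Real.sqrt 3) = c0) (t : ℝ) (ht : 1 / Real.sqrt 3 ≤ t) (ht1 : t ≤ 1) :
    0 ≤ Dm t := by
  rw [← Dm_inv_sqrt3 hG]
  have := inv_sqrt3_lt
  have h0 := inv_sqrt3_pos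
  exact Dm_mono ⟨inv_sqrt3_pos, by linarith⟩ ⟨by linarith, ht1⟩ ht

theorem G_lower (t : ℝ) (ht : 1 / Real.sqrt 3 ≤ t) :
    G (1 / Real.sqrt 3) + ((t - 1 / Real.sqrt 3) + (t ^ 2 - 1 / 3) / 2) / Real.sqrt 2 ≤ G t := by
  -- the function `G u - ((u) + u²/2)/√2` is increasing
  have hmono : Monotone (fun u : ℝ => G u - (u + u ^ 2 / 2) / Real.sqrt 2) := by
    have hd : ∀ x : ℝ, HasDerivAt (fun u : ℝ => G u - (u + u ^ 2 / 2) / Real.sqrt 2)
        (Real.sqrt (1 + x ^ 2) - (1 + x) / Real.sqrt 2) x := by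
      intro x
      have h1 : HasDerivAt (fun u : ℝ => u + u ^ 2 / 2) (1 + x) x := by
        have := (hasDerivAt_id x).add ((hasDerivAt_pow 2 x).div_const 2)
        refine this.congr_deriv ?_
        norm_num
      exact (hasDerivAt_G x).sub (h1.div_const _)
    apply monotone_of_deriv_nonneg (fun x => (hd x).differentiableAt)
    intro x
    rw [(hd x).deriv, sub_nonneg, div_le_iff₀ (Real.sqrt_pos.mpr (by norm_num)),
      ← Real.sqrt_mul (by positivity)]
    apply Real.le_sqrt_of_sq_le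
    nlinarith [sq_nonneg (x - 1)]
  have h := hmono ht
  simp only at h
  rw [inv_sqrt3_sq] at h
  have e : ((t - 1 / Real.sqrt 3) + (t ^ 2 - 1 / 3) / 2) / Real.sqrt 2 =
    (t + t ^ 2 / 2) / Real.sqrt 2 - (1 / Real.sqrt 3 + 1 / 3 / 2) / Real.sqrt 2 := by ring
  rw [e]
  linarith

theorem Dm_nonneg2 (hG : G (1 / Real.sqrt 3) = c0) (t : ℝ) (ht : 1 ≤ t) (ht1 : t ≤ 5 / 4) :
    0 ≤ Dm t := by
  have h3 := inv_sqrt3_lt
  have h3' := inv_sqrt3_pos
  have hl := G_lower t (by linarith)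
  rw [hG] at hl
  have hc := c0_lt
  have hc' := lt_c0
  have h2 : (0.7071 : ℝ) ≤ 1 / Real.sqrt 2 := by
    rw [le_div_iff₀ (Real.sqrt_pos.mpr (by norm_num))]
    have : Real.sqrt 2 ≤ 1.41422 := by
      apply Real.sqrt_le_iff.mpr
      norm_num
    norm_num at this ⊢
    linarith
  have hw : Real.sqrt (1 + t ^ 2) ≤ (t ^ 2 + 13 / 4) / 3 := by
    apply Real.sqrt_le_iff.mpr
    constructor
    · positivity
    · nlinarith [sq_nonneg (t ^ 2 - 5 / 4)]
  have h4 : ((t - 1 / Real.sqrt 3) + (t ^ 2 - 1 / 3) / 2) * 0.7071 ≤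
      ((t - 1 / Real.sqrt 3) + (t ^ 2 - 1 / 3) / 2) / Real.sqrt 2 := by
    rw [div_eq_mul_one_div _ (Real.sqrt 2)]
    apply mul_le_mul_of_nonneg_left h2
    nlinarith
  unfold Dm
  have h5 : c0 / 8 * ((9 * t + 1 / t) * Real.sqrt (1 + t ^ 2)) ≤
      0.609 / 8 * ((9 * t + 1 / t) * ((t ^ 2 + 13 / 4) / 3)) := by
    apply mul_le_mul (by linarith) _ (by positivity) (by norm_num)
    apply mul_le_mul_of_nonneg_left hw (by positivity)
  have h6 : 1 / t ≤ 9 / 5 - 4 / 5 * t := by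
    rw [div_le_iff₀ (by linarith)]
    nlinarith [mul_nonneg (sub_nonneg.mpr ht) (sub_nonneg.mpr ht1)]
  have h7 : (9 * t + 1 / t) * ((t ^ 2 + 13 / 4) / 3) =
      (9 * t ^ 3 + 121 / 4 * t + 13 / 4 * (1 / t)) / 3 := by
    field_simp
    ring
  rw [h7] at h5
  have h8 : t ^ 3 ≤ 9 / 4 * t ^ 2 - 5 / 4 * t := by
    nlinarith [mul_nonneg (mul_nonneg (sub_nonneg.mpr ht) (sub_nonneg.mpr ht1)) (by linarith : 0 ≤ t)]
  norm_num at *
  nlinarith [mul_nonneg (sub_nonneg.mpr ht) (sub_nonneg.mpr ht1)]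

theorem cot_bound (α : ℝ) (h1 : 0.69 ≤ α) (h2 : α ≤ Real.pi / 3) :
    1 / Real.sqrt 3 ≤ Real.cos α / Real.sin α ∧ Real.cos α / Real.sin α ≤ 5 / 4 := by
  have hpi := Real.pi_gt_three
  have hpi' := Real.pi_lt_d2
  norm_num at h1 hpi'
  have hsin : 0 < Real.sin α := Real.sin_pos_of_pos_of_lt_pi (by linarith) (by linarith)
  have hc1 : Real.cos (Real.pi / 3) ≤ Real.cos α :=
    Real.cos_le_cos_of_nonneg_of_le_pi (by linarith) (by linarith) h2
  have hs1 : Real.sin α ≤ Real.sin (Real.pi / 3) :=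
    Real.sin_le_sin_of_le_of_le_pi_div_two (by linarith) (by linarith) h2
  rw [Real.cos_pi_div_three] at hc1
  rw [Real.sin_pi_div_three] at hs1
  have h3 : 0 < Real.sqrt 3 := Real.sqrt_pos.mpr (by norm_num)
  constructor
  · rw [div_le_div_iff₀ h3 hsin]
    have h32 : Real.sqrt 3 * Real.sqrt 3 = 3 := Real.mul_self_sqrt (by norm_num)
    nlinarith
  · rw [div_le_iff₀ hsin]
    have hc2 : Real.cos α ≤ Real.cos (69 / 100) :=
      Real.cos_le_cos_of_nonneg_of_le_pi (by norm_num) (by linarith) h1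
    have hs2 : Real.sin (69 / 100) ≤ Real.sin α :=
      Real.sin_le_sin_of_le_of_le_pi_div_two (by linarith) (by linarith) h1
    have hcb := Real.cos_bound (x := 69 / 100) (by rw [abs_of_pos (by norm_num)]; norm_num)
    have hsb := Real.sin_bound (x := 69 / 100) (by rw [abs_of_pos (by norm_num)]; norm_num)
    rw [abs_le] at hcb hsb
    rw [abs_of_pos (by norm_num : (0 : ℝ) < 69 / 100)] at hcb hsb
    norm_num at hcb hsb
    linarith [hcb.1, hcb.2, hsb.1, hsb.2]

theorem cot_bound' (α : ℝ) (h1 : Real.pi / 3 ≤ α) (h2 : α < Real.pi / 2) :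
    0 < Real.cos α / Real.sin α ∧ Real.cos α / Real.sin α ≤ 1 / Real.sqrt 3 := by
  have hpi := Real.pi_gt_three
  have hsin : 0 < Real.sin α := Real.sin_pos_of_pos_of_lt_pi (by linarith) (by linarith)
  have hcos : 0 < Real.cos α := Real.cos_pos_of_mem_Ioo ⟨by linarith, h2⟩
  have hc1 : Real.cos α ≤ Real.cos (Real.pi / 3) :=
    Real.cos_le_cos_of_nonneg_of_le_pi (by linarith) (by linarith) h1
  have hs1 : Real.sin (Real.pi / 3) ≤ Real.sin α :=
    Real.sin_le_sin_of_le_of_le_pi_div_two (by linarith) h2.le h1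
  rw [Real.cos_pi_div_three] at hc1
  rw [Real.sin_pi_div_three] at hs1
  have h3 : 0 < Real.sqrt 3 := Real.sqrt_pos.mpr (by norm_num)
  refine ⟨by positivity, ?_⟩
  rw [div_le_div_iff₀ hsin h3]
  nlinarith [Real.mul_self_sqrt (show (0 : ℝ) ≤ 3 by norm_num)]

theorem hasDerivAt_h (α : ℝ) (hs : 0 < Real.sin α) :
    HasDerivAt (fun α => h α - (5 / 8 * c0 - 1 / 3) * (α - Real.pi / 3))
      (Real.sin α ^ 2 * Real.cos α * G (Real.cos α / Real.sin α) -
        c0 / 8 * (1 + 8 * Real.cos α ^ 2)) α := by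
  unfold h
  have hcot : HasDerivAt (fun α => Real.cos α / Real.sin α) (-1 / Real.sin α ^ 2) α := by
    have := (Real.hasDerivAt_cos α).div (Real.hasDerivAt_sin α) hs.ne'
    refine this.congr_deriv ?_
    congr 1
    nlinarith [Real.sin_sq_add_cos_sq α]
  have hG := (hasDerivAt_G (Real.cos α / Real.sin α)).comp α hcot
  have hs3 : HasDerivAt (fun α => Real.sin α ^ 3 / 3) (Real.sin α ^ 2 * Real.cos α) α := by
    have := ((Real.hasDerivAt_sin α).pow 3).div_const 3
    refine this.congr_deriv ?_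
    norm_num
    ring
  have h1 := hs3.mul hG
  have h2 := ((Real.hasDerivAt_sin α).mul (Real.hasDerivAt_cos α)).const_mul (c0 / 2)
  have h3 : HasDerivAt (fun α => (5 / 8 * c0 - 1 / 3) * (α - Real.pi / 3)) (5 / 8 * c0 - 1 / 3) α := by
    simpa using ((hasDerivAt_id α).sub_const (Real.pi / 3)).const_mul (5 / 8 * c0 - 1 / 3)
  have h4 := (h1.sub h2).sub h3
  refine h4.congr_deriv ?_
  have e : Real.sqrt (1 + (Real.cos α / Real.sin α) ^ 2) = 1 / Real.sin α := by
    rw [Real.sqrt_eq_iff_mul_self_eq (by positivity) (by positivity)]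
    field_simp
    nlinarith [Real.sin_sq_add_cos_sq α]
  rw [e]
  simp only [Function.comp]
  have e2 : Real.sin α ^ 2 = 1 - Real.cos α ^ 2 := by linarith [Real.sin_sq_add_cos_sq α]
  have e3 : Real.sin α ^ 3 / 3 * (1 / Real.sin α * (-1 / Real.sin α ^ 2)) = - 1 / 3 := by
    field_simp
  rw [e3]
  have e4 : Real.cos α * Real.cos α + Real.sin α * -Real.sin α = 2 * Real.cos α ^ 2 - 1 := by nlinarith
  rw [e4]
  ring

theorem deriv_eq (α : ℝ) (hs : 0 < Real.sin α) (hc : 0 < Real.cos α) :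
    Real.sin α ^ 2 * Real.cos α * G (Real.cos α / Real.sin α) -
        c0 / 8 * (1 + 8 * Real.cos α ^ 2) =
      Real.sin α ^ 2 * Real.cos α * Dm (Real.cos α / Real.sin α) := by
  unfold Dm
  have e : Real.sqrt (1 + (Real.cos α / Real.sin α) ^ 2) = 1 / Real.sin α := by
    rw [Real.sqrt_eq_iff_mul_self_eq (by positivity) (by positivity)]
    field_simp
    nlinarith [Real.sin_sq_add_cos_sq α]
  rw [e]
  have e2 : Real.sin α ^ 2 = 1 - Real.cos α ^ 2 := by linarith [Real.sin_sq_add_cos_sq α]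
  have e3 : Real.sin α ^ 2 * Real.cos α * (c0 / 8 * ((9 * (Real.cos α / Real.sin α) +
      1 / (Real.cos α / Real.sin α)) * (1 / Real.sin α))) = c0 / 8 * (1 + 8 * Real.cos α ^ 2) := by
    field_simp
    rw [e2]
    ring
  rw [mul_sub, e3]

end I1aux

open I1aux in
theorem I1 : TaskI1 := by
  intro hG α h1 h2
  have hpi := Real.pi_gt_three
  have hpi' := Real.pi_lt_d2
  norm_num at h1 hpi'
  set φ : ℝ → ℝ := fun α => h α - (5 / 8 * c0 - 1 / 3) * (α - Real.pi / 3) with hφ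
  have h0 : φ (Real.pi / 3) = 0 := by
    simp only [hφ, h]
    rw [Real.cos_pi_div_three, Real.sin_pi_div_three]
    have e : (1 / 2 : ℝ) / (Real.sqrt 3 / 2) = 1 / Real.sqrt 3 := by field_simp
    rw [e, hG]
    have h3 : Real.sqrt 3 ^ 2 = 3 := Real.sq_sqrt (by norm_num)
    have : Real.sqrt 3 ^ 3 = 3 * Real.sqrt 3 := by rw [pow_succ, h3]
    rw [div_pow, this]
    ring
  have hsin : ∀ x, 69 / 100 ≤ x → x ≤ Real.pi / 2 → 0 < Real.sin x := fun x hx hx2 =>
    Real.sin_pos_of_pos_of_lt_pi (by linarith) (by linarith)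
  suffices φ α ≤ 0 by
    simp only [hφ] at this
    linarith
  rw [← h0]
  rcases le_total α (Real.pi / 3) with h3 | h3
  · have hm : MonotoneOn φ (Icc (69 / 100) (Real.pi / 3)) := by
      apply monotoneOn_of_deriv_nonneg (convex_Icc _ _)
      · intro x hx
        exact (hasDerivAt_h x (hsin x hx.1 (by linarith [hx.2]))).continuousAt.continuousWithinAt
      · intro x hx
        rw [interior_Icc] at hx
        exact (hasDerivAt_h x (hsin x hx.1.le (by linarith [hx.2]))).differentiableAt.differentiableWithinAt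
      · intro x hx
        rw [interior_Icc] at hx
        have hs := hsin x hx.1.le (by linarith [hx.2])
        have hc : 0 < Real.cos x := Real.cos_pos_of_mem_Ioo ⟨by linarith [hx.1], by linarith [hx.2]⟩
        rw [(hasDerivAt_h x hs).deriv, deriv_eq x hs hc]
        obtain ⟨hb1, hb2⟩ := cot_bound x (by norm_num; exact hx.1.le) hx.2.le
        have : 0 ≤ Dm (Real.cos x / Real.sin x) := by
          rcases le_total (Real.cos x / Real.sin x) 1 with h4 | h4
          · exact Dm_nonneg1 hG _ hb1 h4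
          · exact Dm_nonneg2 hG _ h4 hb2
        positivity
    exact hm ⟨h1, h3⟩ ⟨by linarith, le_refl _⟩ h3
  · have hm : AntitoneOn φ (Icc (Real.pi / 3) (Real.pi / 2)) := by
      apply antitoneOn_of_deriv_nonpos (convex_Icc _ _)
      · intro x hx
        exact (hasDerivAt_h x (hsin x (by linarith [hx.1]) hx.2)).continuousAt.continuousWithinAt
      · intro x hx
        rw [interior_Icc] at hx
        exact (hasDerivAt_h x (hsin x (by linarith [hx.1]) hx.2.le)).differentiableAt.differentiableWithinAt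
      · intro x hx
        rw [interior_Icc] at hx
        have hs := hsin x (by linarith [hx.1]) hx.2.le
        have hc : 0 < Real.cos x := Real.cos_pos_of_mem_Ioo ⟨by linarith [hx.1], by linarith [hx.2]⟩
        rw [(hasDerivAt_h x hs).deriv, deriv_eq x hs hc]
        obtain ⟨hb1, hb2⟩ := cot_bound' x hx.1.le hx.2
        have := Dm_nonpos hG _ hb1 hb2
        have h5 : 0 < Real.sin x ^ 2 * Real.cos x := by positivity
        nlinarith
    exact hm ⟨le_refl _, by linarith⟩ ⟨h3, h2⟩ h3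

end Q126.MD
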