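import Pool.Agent.Q126.MD.TaskI3

set_option autoImplicit false

namespace Q126.MD

open MeasureTheory Set

theorem nonneg_of_hasDeriv {f f' : ℝ → ℝ} (h0 : f 0 = 0) (hd : ∀ x, HasDerivAt f (f' x) x)
    (hp : ∀ x, 0 ≤ x → 0 ≤ f' x) (x : ℝ) (hx : 0 ≤ x) : 0 ≤ f x := by
  have hm : MonotoneOn f (Set.Ici 0) := by
    apply monotoneOn_of_deriv_nonneg (convex_Ici 0)
    · exact fun y _ => (hd y).continuousAt.continuousWithinAt
    · exact fun y _ => (hd y).differentiableAt.differentiableWithinAt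
    · intro y hy
      rw [interior_Ici] at hy
      rw [(hd y).deriv]
      exact hp y (le_of_lt hy)
  have := hm (Set.mem_Ici.2 le_rfl) (Set.mem_Ici.2 hx) hx
  rwa [h0] at this

theorem sin_ge_cube (x : ℝ) (hx : 0 ≤ x) : x - x ^ 3 / 6 ≤ Real.sin x := by
  have := nonneg_of_hasDeriv (f := fun x => Real.sin x - (x - x ^ 3 / 6))
    (f' := fun x => Real.cos x - (1 - x ^ 2 / 2)) (by simp) (fun x => by
      have h1 := (Real.hasDerivAt_sin x).sub ((hasDerivAt_id x).sub ((hasDerivAt_pow 3 x).div_const 6))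
      refine h1.congr_deriv ?_
      norm_num
      ring) (fun x _ => by
      have := Real.one_sub_sq_div_two_le_cos (x := x)
      linarith) x hx
  beta_reduce at this
  linarith

theorem cos_le_quartic (x : ℝ) (hx : 0 ≤ x) : Real.cos x ≤ 1 - x ^ 2 / 2 + x ^ 4 / 24 := by
  have := nonneg_of_hasDeriv (f := fun x => 1 - x ^ 2 / 2 + x ^ 4 / 24 - Real.cos x)
    (f' := fun x => Real.sin x - (x - x ^ 3 / 6)) (by simp) (fun x => by
      have h1 := ((((hasDerivAt_const x (1 : ℝ)).sub ((hasDerivAt_pow 2 x).div_const 2)).add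
        ((hasDerivAt_pow 4 x).div_const 24))).sub (Real.hasDerivAt_cos x)
      refine h1.congr_deriv ?_
      norm_num
      ring) (fun x hx => by
      have := sin_ge_cube x hx
      linarith) x hx
  beta_reduce at this
  linarith

theorem sin_le_quintic (x : ℝ) (hx : 0 ≤ x) : Real.sin x ≤ x - x ^ 3 / 6 + x ^ 5 / 120 := by
  have := nonneg_of_hasDeriv (f := fun x => x - x ^ 3 / 6 + x ^ 5 / 120 - Real.sin x)
    (f' := fun x => 1 - x ^ 2 / 2 + x ^ 4 / 24 - Real.cos x) (by simp) (fun x => by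
      have h1 := ((((hasDerivAt_id x).sub ((hasDerivAt_pow 3 x).div_const 6)).add
        ((hasDerivAt_pow 5 x).div_const 120))).sub (Real.hasDerivAt_sin x)
      refine h1.congr_deriv ?_
      norm_num
      ring) (fun x hx => by
      have := cos_le_quartic x hx
      linarith) x hx
  beta_reduce at this
  linarith

theorem taskI2 : TaskI2 := by
  intro hG α h0 h1
  have hpi := Real.pi_gt_three
  have hs : 0 < Real.sin α := Real.sin_pos_of_pos_of_lt_pi h0 (by linarith)
  have hc : 0 ≤ Real.cos α := Real.cos_nonneg_of_mem_Icc ⟨by linarith, by linarith⟩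
  have h2 := h_le hG α hs hc
  refine h2.trans ?_
  have hsin : Real.sin α ≤ 0.6366 := by
    have h3 : Real.sin α ≤ Real.sin 0.69 :=
      Real.sin_le_sin_of_le_of_le_pi_div_two (by linarith) (by linarith) h1
    have h4 := sin_le_quintic 0.69 (by norm_num)
    norm_num at h4 h3 ⊢
    linarith
  have hsq : Real.sqrt (Real.sin α ^ 2 + Real.cos α ^ 2 / 3) ≤ 0.777 := by
    rw [Real.sqrt_le_left (by norm_num)]
    have h3 := Real.sin_sq_add_cos_sq α
    have h4 : Real.sin α ^ 2 ≤ 0.6366 ^ 2 := pow_le_pow_left₀ hs.le hsin 2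
    norm_num at h4 ⊢
    linarith
  have hprod : 0.7014 * α ≤ Real.sin α * Real.cos α := by
    have h3 := sin_ge_cube α h0.le
    have h4 := Real.one_sub_sq_div_two_le_cos (x := α)
    have h5 : α ^ 2 ≤ 0.4761 := by nlinarith
    have h6 : 0 ≤ 1 - α ^ 2 / 2 := by linarith
    have h7 : 0 ≤ α - α ^ 3 / 6 := by nlinarith
    calc 0.7014 * α ≤ (α - α ^ 3 / 6) * (1 - α ^ 2 / 2) := by
          have e : (α - α ^ 3 / 6) * (1 - α ^ 2 / 2) = α * ((1 - α ^ 2 / 6) * (1 - α ^ 2 / 2)) := by
            ring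
          rw [e, mul_comm]
          apply mul_le_mul_of_nonneg_left _ h0.le
          nlinarith
      _ ≤ Real.sin α * Real.cos α := mul_le_mul h3 h4 h6 hs.le
  have hc0 : 0.60708 ≤ c0 := by
    unfold c0
    have := log3_lb
    linarith
  have hneg : 1 / 3 * Real.sqrt (Real.sin α ^ 2 + Real.cos α ^ 2 / 3) - c0 / 2 ≤
      0.259 - c0 / 2 := by linarith
  have hneg2 : 0.259 - c0 / 2 ≤ 0 := by linarith
  calc _ ≤ Real.sin α * Real.cos α * (0.259 - c0 / 2) :=
        mul_le_mul_of_nonneg_left hneg (by positivity)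
    _ ≤ 0.7014 * α * (0.259 - c0 / 2) := mul_le_mul_of_nonpos_right hprod hneg2
    _ ≤ -(1 / 3 - c0 / 2) * α := by
        have : 0.7014 * (0.259 - c0 / 2) ≤ -(1 / 3 - c0 / 2) := by linarith
        nlinarith

end Q126.MD
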