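import Pool.Agent.Q126.MD.Stmts

set_option autoImplicit false

namespace Q126.MD

open MeasureTheory Set

/-- `1.095 ≤ log 3` -/
theorem log3_lb : (1.095 : ℝ) ≤ Real.log 3 := by
  have h1 : Real.log 9 = 2 * Real.log 3 := by
    rw [show (9 : ℝ) = 3 ^ (2 : ℕ) by norm_num, Real.log_pow]
    norm_num
  have h2 : Real.log 9 = 3 * Real.log 2 + Real.log (9 / 8) := by
    rw [show (9 : ℝ) = 2 ^ (3 : ℕ) * (9 / 8) by norm_num, Real.log_mul (by norm_num) (by norm_num),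
      Real.log_pow]
    norm_num
  have h3 : 1 - (9 / 8 : ℝ)⁻¹ ≤ Real.log (9 / 8) := Real.one_sub_inv_le_log_of_pos (by norm_num)
  have h4 := Real.log_two_gt_d9
  norm_num at h3
  linarith

/-- `log 3 ≤ 1.103` -/
theorem log3_ub : Real.log 3 ≤ (1.103 : ℝ) := by
  have h1 : Real.log 9 = 2 * Real.log 3 := by
    rw [show (9 : ℝ) = 3 ^ (2 : ℕ) by norm_num, Real.log_pow]
    norm_num
  have h2 : Real.log 9 = 3 * Real.log 2 + Real.log (9 / 8) := by
    rw [show (9 : ℝ) = 2 ^ (3 : ℕ) * (9 / 8) by norm_num, Real.log_mul (by norm_num) (by norm_num),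
      Real.log_pow]
    norm_num
  have h3 : Real.log (9 / 8) ≤ 9 / 8 - 1 := Real.log_le_sub_one_of_pos (by norm_num)
  have h4 := Real.log_two_lt_d9
  linarith

theorem jensen_key {s c : ℝ} (hs : 0 < s) (_hc : 0 ≤ c) :
    s ^ 3 / 3 * (c / s * Real.sqrt (1 + (c / s) ^ 2 / 3)) =
      s * c / 3 * Real.sqrt (s ^ 2 + c ^ 2 / 3) := by
  have h : s ^ 2 + c ^ 2 / 3 = s ^ 2 * (1 + (c / s) ^ 2 / 3) := by
    field_simp
  rw [h, Real.sqrt_mul (by positivity), Real.sqrt_sq hs.le]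
  field_simp

/-- the bound for `h` from the Jensen bound -/
theorem h_le (hG : ∀ t : ℝ, 0 ≤ t → G t ≤ t * Real.sqrt (1 + t ^ 2 / 3)) (α : ℝ)
    (hs : 0 < Real.sin α) (hc : 0 ≤ Real.cos α) :
    h α ≤ Real.sin α * Real.cos α * (1 / 3 * Real.sqrt (Real.sin α ^ 2 + Real.cos α ^ 2 / 3) -
      c0 / 2) := by
  have h1 := hG (Real.cos α / Real.sin α) (by positivity)
  have h2 : Real.sin α ^ 3 / 3 * G (Real.cos α / Real.sin α) ≤
      Real.sin α * Real.cos α / 3 * Real.sqrt (Real.sin α ^ 2 + Real.cos α ^ 2 / 3) := by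
    rw [← jensen_key hs hc]
    exact mul_le_mul_of_nonneg_left h1 (by positivity)
  unfold h
  calc _ ≤ Real.sin α * Real.cos α / 3 * Real.sqrt (Real.sin α ^ 2 + Real.cos α ^ 2 / 3) -
        c0 / 2 * (Real.sin α * Real.cos α) := by linarith
    _ = _ := by ring

theorem taskI3 : TaskI3 := by
  intro hG ε h0 h1
  have hs : 0 < Real.sin (Real.pi / 2 - ε) := by
    rw [Real.sin_pi_div_two_sub]
    exact Real.cos_pos_of_mem_Ioo ⟨by linarith [Real.pi_pos], h1⟩
  have hsin0 : 0 ≤ Real.sin ε := Real.sin_nonneg_of_nonneg_of_le_pi h0 (by linarith [Real.pi_pos])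
  have hc : 0 ≤ Real.cos (Real.pi / 2 - ε) := by
    rw [Real.cos_pi_div_two_sub]
    exact hsin0
  have h2 := h_le hG _ hs hc
  refine h2.trans ?_
  have hsq : Real.sqrt (Real.sin (Real.pi / 2 - ε) ^ 2 + Real.cos (Real.pi / 2 - ε) ^ 2 / 3) ≤ 1 := by
    rw [Real.sqrt_le_left (by norm_num), one_pow]
    have := Real.sin_sq_add_cos_sq (Real.pi / 2 - ε)
    nlinarith [sq_nonneg (Real.cos (Real.pi / 2 - ε))]
  have hprod : Real.sin (Real.pi / 2 - ε) * Real.cos (Real.pi / 2 - ε) ≤ ε := by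
    rw [Real.cos_pi_div_two_sub]
    have h3 : Real.sin ε ≤ ε := Real.sin_le h0
    have h4 := Real.sin_le_one (Real.pi / 2 - ε)
    calc Real.sin (Real.pi / 2 - ε) * Real.sin ε ≤ 1 * Real.sin ε :=
          mul_le_mul_of_nonneg_right h4 hsin0
      _ ≤ ε := by linarith
  have hk : 0 ≤ 1 / 3 - c0 / 2 := by
    unfold c0
    have := log3_ub
    linarith
  calc _ ≤ Real.sin (Real.pi / 2 - ε) * Real.cos (Real.pi / 2 - ε) * (1 / 3 - c0 / 2) := by
        apply mul_le_mul_of_nonneg_left _ (by positivity)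
        linarith
    _ ≤ ε * (1 / 3 - c0 / 2) := mul_le_mul_of_nonneg_right hprod hk
    _ = _ := by ring

end Q126.MD
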