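import Pool.Agent.Q126.MD.Stmts

namespace Q126.MD

open MeasureTheory Set

/-- the affine map `x ↦ u x + w` -/
noncomputable def aff (u w : ℂ) : ℂ →ᵃ[ℝ] ℂ :=
  (LinearMap.mulLeft ℝ u).toAffineMap + AffineMap.const ℝ ℂ w

theorem aff_apply (u w x : ℂ) : aff u w x = u * x + w := by
  simp [aff]

theorem mp_rot (u w : ℂ) (hu : ‖u‖ = 1) :
    MeasurePreserving (fun x : ℂ => u * x + w) volume volume := by
  have h1 : MeasurePreserving (rotation ⟨u, by simpa [Submonoid.unitSphere] using hu⟩ : ℂ → ℂ)
      volume volume := LinearIsometryEquiv.measurePreserving _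
  have h2 := (measurePreserving_add_right (volume : Measure ℂ) w).comp h1
  exact h2

theorem me_rot (u w : ℂ) (hu : ‖u‖ = 1) : MeasurableEmbedding (fun x : ℂ => u * x + w) := by
  have hu0 : u ≠ 0 := by
    intro h
    rw [h] at hu
    simp at hu
  have h1 : MeasurableEmbedding (fun x : ℂ => x + w) := measurableEmbedding_addRight w
  have h2 : MeasurableEmbedding (fun x : ℂ => u * x) := measurableEmbedding_mulLeft₀ hu0
  exact h1.comp h2

theorem Iso : TaskIso := by
  refine ⟨?_, ?_, ?_, ?_, ?_, ?_⟩
  · intro u w s f hu
    exact (mp_rot u w hu).setIntegral_image_emb (me_rot u w hu) f s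
  · intro u w s hu
    rw [← (mp_rot u w hu).measure_preimage_emb (me_rot u w hu),
      preimage_image_eq _ (me_rot u w hu).injective]
  · intro u w a b c
    have := (aff u w).image_convexHull ({a, b, c} : Set ℂ)
    simp only [image_insert_eq, image_singleton, aff_apply] at this
    unfold T
    rw [← this]
  · intro s f
    exact (Complex.conjLIE.measurePreserving).setIntegral_image_emb
      Complex.conjLIE.toHomeomorph.measurableEmbedding f s
  · intro s
    have h := (Complex.conjLIE.measurePreserving).measure_preimage_emb
      Complex.conjLIE.toHomeomorph.measurableEmbedding (Complex.conjLIE '' s)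
    rw [preimage_image_eq _ Complex.conjLIE.injective] at h
    exact h.symm
  · intro a b c
    have := (Complex.conjLIE.toLinearEquiv.toLinearMap.toAffineMap).image_convexHull
      ({a, b, c} : Set ℂ)
    simp only [image_insert_eq, image_singleton] at this
    unfold T
    exact this.symm

end Q126.MD
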