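import Pool.Agent.Q126.MD.Stmts

namespace Q126.MD

open MeasureTheory Set

noncomputable section

namespace Isos

theorem T_compact (a b c : ℂ) : IsCompact (T a b c) := by
  unfold T
  exact (Set.toFinite _).isCompact_convexHull ℝ

theorem T_rot (a b c : ℂ) : T a b c = T b c a := by
  unfold T
  congr 1
  ext x
  simp only [mem_insert_iff, mem_singleton_iff]
  tauto

theorem split_half (z a b : ℂ) :
    T z a b ⊆ T z a ((a + b) / 2) ∪ T z b ((a + b) / 2) := by
  intro x hx
  unfold T at hx
  rw [convexHull_insert ⟨a, by simp⟩, convexHull_pair, mem_convexJoin] at hx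
  obtain ⟨z', hz', y, hy, hxy⟩ := hx
  rw [mem_singleton_iff] at hz'
  subst hz'
  have key : ∀ c : ℂ, y ∈ segment ℝ c ((a + b) / 2) → x ∈ T z' c ((a + b) / 2) := by
    intro c hc
    have hconv : Convex ℝ (T z' c ((a + b) / 2)) := convex_convexHull ℝ _
    have h1 : z' ∈ T z' c ((a + b) / 2) := subset_convexHull ℝ _ (by simp)
    have h2 : c ∈ T z' c ((a + b) / 2) := subset_convexHull ℝ _ (by simp)
    have h3 : (a + b) / 2 ∈ T z' c ((a + b) / 2) := subset_convexHull ℝ _ (by simp)
    exact hconv.segment_subset h1 (hconv.segment_subset h2 h3 hc) hxy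
  obtain ⟨r, s, hr, hs, hrs, rfl⟩ := hy
  by_cases h : s ≤ r
  · left
    apply key
    refine ⟨r - s, 2 * s, by linarith, by linarith, by linarith, ?_⟩
    simp only [Complex.real_smul]
    push_cast
    ring
  · right
    apply key
    refine ⟨s - r, 2 * r, by linarith, by linarith, by linarith, ?_⟩
    simp only [Complex.real_smul]
    push_cast
    ring

theorem f_cont (a b : ℂ) : Continuous (fun x : ℂ => min ‖x - a‖ ‖x - b‖) := by
  fun_prop

theorem int_le {A B C : Set ℂ} {f : ℂ → ℝ} (hf : Continuous f) (h0 : ∀ x, 0 ≤ f x)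
    (hA : IsCompact A) (hB : IsCompact B) (h : C ⊆ A ∪ B) :
    ∫ x in C, f x ≤ (∫ x in A, f x) + ∫ x in B, f x := by
  have hiA : IntegrableOn f A := hf.continuousOn.integrableOn_compact hA
  have hiB : IntegrableOn f B := hf.continuousOn.integrableOn_compact hB
  have h1 : ∫ x in C, f x ≤ ∫ x in A ∪ B, f x :=
    setIntegral_mono_set (hiA.union hiB) (Filter.Eventually.of_forall fun x => h0 x)
      (Filter.Eventually.of_forall h)
  have h2 : ∫ x in A ∪ B, f x = (∫ x in A, f x) + ∫ x in B \ A, f x := by
    rw [← Set.union_sdiff_self]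
    exact setIntegral_union disjoint_sdiff_right (hB.measurableSet.diff hA.measurableSet)
      hiA (hiB.mono_set sdiff_subset)
  have h3 : ∫ x in B \ A, f x ≤ ∫ x in B, f x :=
    setIntegral_mono_set hiB (Filter.Eventually.of_forall fun x => h0 x)
      (Filter.Eventually.of_forall sdiff_subset)
  linarith

theorem int_mono {A : Set ℂ} {f g : ℂ → ℝ} (hf : Continuous f) (hg : Continuous g)
    (h : ∀ x, f x ≤ g x) (hA : IsCompact A) :
    ∫ x in A, f x ≤ ∫ x in A, g x :=
  setIntegral_mono (hf.continuousOn.integrableOn_compact hA)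
    (hg.continuousOn.integrableOn_compact hA) h

end Isos

open Isos in
theorem Isosceles : TaskIsosceles := by
  intro hI hH hIso z R θ α hR hα hα2
  obtain ⟨i1, _, i3, i4, _, i6⟩ := hIso
  set e : ℂ := Complex.exp ((θ + α : ℝ) * Complex.I) with he
  have hne : ‖e‖ = 1 := by rw [he]; exact Complex.norm_exp_ofReal_mul_I _
  set p : ℝ := R * Real.sin α with hp
  set q : ℝ := R * Real.cos α with hq
  have hsin : 0 < Real.sin α :=
    Real.sin_pos_of_pos_of_lt_pi hα (by linarith [Real.pi_pos])
  have hcos : 0 ≤ Real.cos α := Real.cos_nonneg_of_mem_Icc ⟨by linarith [Real.pi_pos], hα2⟩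
  have hp0 : 0 < p := mul_pos hR hsin
  have hq0 : 0 ≤ q := mul_nonneg hR.le hcos
  have hea : Complex.exp (θ * Complex.I) = e * (Complex.cos α - Complex.sin α * Complex.I) := by
    have h1 : Complex.cos α - Complex.sin α * Complex.I = Complex.exp (-(α : ℂ) * Complex.I) := by
      rw [Complex.exp_mul_I, Complex.cos_neg, Complex.sin_neg]; ring
    rw [h1, he, ← Complex.exp_add]
    congr 1
    push_cast
    ring
  have heb : Complex.exp ((θ + 2 * α : ℝ) * Complex.I) =
      e * (Complex.cos α + Complex.sin α * Complex.I) := by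
    have h1 : Complex.cos α + Complex.sin α * Complex.I = Complex.exp ((α : ℂ) * Complex.I) := by
      rw [Complex.exp_mul_I]
    rw [h1, he, ← Complex.exp_add]
    congr 1
    push_cast
    ring
  have ha : pt z R θ = z + (q - p * Complex.I) * e := by
    unfold pt
    rw [hea, hp, hq]
    push_cast
    ring
  have hb : pt z R (θ + 2 * α) = z + (q + p * Complex.I) * e := by
    unfold pt
    rw [heb, hp, hq]
    push_cast
    ring
  set a : ℂ := pt z R θ with haa
  set b : ℂ := pt z R (θ + 2 * α) with hbb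
  have hm : (a + b) / 2 = z + q * e := by rw [ha, hb]; ring
  -- the first right triangle
  have hI0 : ∫ x in T 0 (p : ℂ) ((p : ℂ) + q * Complex.I), ‖x‖ = p ^ 3 / 3 * G (q / p) := by
    rw [hH p q hp0 hq0]
    exact hI p q hp0 hq0
  have hval : p ^ 3 / 3 * G (q / p) =
      R ^ 3 * (Real.sin α ^ 3 / 3 * G (Real.cos α / Real.sin α)) := by
    have : q / p = Real.cos α / Real.sin α := by
      rw [hp, hq]
      field_simp
    rw [this, hp]
    ring
  have hA : ∫ x in T z a ((a + b) / 2), ‖x - a‖ = p ^ 3 / 3 * G (q / p) := by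
    have hu : ‖Complex.I * e‖ = 1 := by rw [norm_mul, Complex.norm_I, hne, one_mul]
    have h1 : T z a ((a + b) / 2) =
        (fun x => (Complex.I * e) * x + a) '' T 0 (p : ℂ) ((p : ℂ) + q * Complex.I) := by
      rw [← i3, T_rot]
      congr 1
      · ring
      · rw [hm, ha]; ring
      · rw [ha]
        linear_combination (-(q * e)) * Complex.I_sq
    rw [h1, i1 _ _ _ _ hu, ← hI0]
    refine integral_congr_ae (Filter.Eventually.of_forall fun x => ?_)
    show ‖(Complex.I * e) * x + a - a‖ = ‖x‖
    rw [add_sub_cancel_right, norm_mul, hu, one_mul]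
  have hB : ∫ x in T z b ((a + b) / 2), ‖x - b‖ = p ^ 3 / 3 * G (q / p) := by
    have hu : ‖-Complex.I * e‖ = 1 := by rw [norm_mul, norm_neg, Complex.norm_I, hne, one_mul]
    have h1 : T z b ((a + b) / 2) =
        (fun x => (-Complex.I * e) * x + b) ''
          ((starRingEnd ℂ) '' T 0 (p : ℂ) ((p : ℂ) + q * Complex.I)) := by
      rw [← i6, ← i3, T_rot]
      congr 1
      · simp
      · rw [hm, hb, Complex.conj_ofReal]; ring
      · rw [hb, map_add, map_mul, Complex.conj_ofReal, Complex.conj_ofReal, Complex.conj_I]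
        linear_combination (-(q * e)) * Complex.I_sq
    rw [h1, i1 _ _ _ _ hu, i4, ← hI0]
    refine integral_congr_ae (Filter.Eventually.of_forall fun x => ?_)
    show ‖(-Complex.I * e) * (starRingEnd ℂ) x + b - b‖ = ‖x‖
    rw [add_sub_cancel_right, norm_mul, hu, one_mul]
    exact Complex.norm_conj x
  have hmain := int_le (f_cont a b) (fun x => le_min (norm_nonneg _) (norm_nonneg _))
    (T_compact z a ((a + b) / 2)) (T_compact z b ((a + b) / 2)) (split_half z a b)
  have h1 := int_mono (f_cont a b) (g := fun x => ‖x - a‖) (by fun_prop)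
    (fun x => min_le_left _ _) (T_compact z a ((a + b) / 2))
  have h2 := int_mono (f_cont a b) (g := fun x => ‖x - b‖) (by fun_prop)
    (fun x => min_le_right _ _) (T_compact z b ((a + b) / 2))
  rw [hA] at h1
  rw [hB] at h2
  rw [hval] at h1 h2
  linarith

end

end Q126.MD
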