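import Pool.Agent.Q126.MD.Stmts2

set_option autoImplicit false

open MeasureTheory Set

namespace Q126.MD

lemma lat_mem_iff (x : ℂ) : x ∈ Lat ↔ 2 / 3 * x.im ∈ range ((↑) : ℤ → ℝ) ∧
    x.re / Real.sqrt 3 - x.im / 3 ∈ range ((↑) : ℤ → ℝ) := by
  have h3 : Real.sqrt 3 ≠ 0 := by positivity
  constructor
  · rintro ⟨i, j, rfl⟩
    refine ⟨⟨j, ?_⟩, ⟨i, ?_⟩⟩
    · simp only [lat]; ring
    · simp only [lat]
      rw [mul_div_cancel_left₀ _ h3]
      ring
  · rintro ⟨⟨j, hj⟩, ⟨i, hi⟩⟩
    refine ⟨i, j, ?_⟩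
    have him : x.im = 3 / 2 * j := by linarith
    have hre : x.re / Real.sqrt 3 = i + j / 2 := by
      rw [him] at hi
      linarith
    apply Complex.ext
    · simp only [lat]
      rw [← hre]
      field_simp
    · simp only [lat]
      exact him

lemma lat_closed : IsClosed Lat := by
  have h : Lat = (fun x : ℂ => 2 / 3 * x.im) ⁻¹' range ((↑) : ℤ → ℝ) ∩
      (fun x : ℂ => x.re / Real.sqrt 3 - x.im / 3) ⁻¹' range ((↑) : ℤ → ℝ) := by
    ext x
    exact lat_mem_iff x
  rw [h]
  have hc : IsClosed (range ((↑) : ℤ → ℝ)) := Int.isClosedEmbedding_coe_real.isClosed_range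
  exact (hc.preimage (by fun_prop)).inter (hc.preimage (by fun_prop))

lemma lat_null : volume Lat = 0 := by
  have h : Lat = range fun p : ℤ × ℤ => lat p.1 p.2 := by
    ext x
    constructor
    · rintro ⟨i, j, rfl⟩
      exact ⟨(i, j), rfl⟩
    · rintro ⟨⟨i, j⟩, rfl⟩
      exact ⟨i, j, rfl⟩
  rw [h]
  exact (countable_range _).measure_zero _

theorem taskLBall : TaskLBall := by
  intro hB hL hint N hN
  set Ω : Set ℂ := Metric.ball 0 N \ Lat with hΩ
  have hopen : IsOpen Ω := Metric.isOpen_ball.sdiff lat_closed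
  have hbdd : Bornology.IsBounded Ω := Metric.isBounded_ball.subset sdiff_subset
  have hae : Ω =ᵐ[volume] Metric.ball (0 : ℂ) N := sdiff_null_ae_eq_self lat_null
  have hvol : volume Ω = volume (Metric.ball (0 : ℂ) N) := measure_congr hae
  have hne : Ω.Nonempty := by
    by_contra h
    rw [not_nonempty_iff_eq_empty] at h
    rw [h, measure_empty] at hvol
    exact (Metric.measure_ball_pos volume (0 : ℂ) (by linarith : 0 < N)).ne hvol
  refine ⟨Ω, hopen, hbdd, hne, ?_⟩
  have hb : ∀ x ∈ Ω, bdist Ω x = Metric.infDist x Ωᶜ ∧ 0 < bdist Ω x :=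
    fun x hx => hB Ω x hopen hbdd hx
  have hsub : Lat ⊆ Ωᶜ := fun y hy h => h.2 hy
  have hle1 : ∀ x, Metric.infDist x Lat ≤ 1 := by
    intro x
    obtain ⟨i, j, h⟩ := hL x
    have hm : lat i j ∈ Lat := ⟨i, j, rfl⟩
    refine (Metric.infDist_le_dist_of_mem hm).trans ?_
    rwa [dist_eq_norm]
  have hLne : Lat.Nonempty := ⟨lat 0 0, 0, 0, rfl⟩
  have hle : ∀ x ∈ Ω, bdist Ω x ≤ 1 := by
    intro x hx
    rw [(hb x hx).1]
    exact (Metric.infDist_le_infDist_of_subset hsub hLne).trans (hle1 x)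
  have hin1 : inradius Ω ≤ 1 := by
    refine csSup_le (hne.image _) ?_
    rintro _ ⟨x, hx, rfl⟩
    exact hle x hx
  have hin0 : 0 < inradius Ω := by
    obtain ⟨x, hx⟩ := hne
    refine (hb x hx).2.trans_le (le_csSup ⟨1, ?_⟩ ⟨x, hx, rfl⟩)
    rintro _ ⟨y, hy, rfl⟩
    exact hle y hy
  have hcont : Continuous (bdist Ω) := Metric.continuous_infDist_pt _
  have hcontL : Continuous fun x => Metric.infDist x Lat := Metric.continuous_infDist_pt _
  have hnn : ∀ x, 0 ≤ bdist Ω x := fun x => Metric.infDist_nonneg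
  have hintΩ : IntegrableOn (bdist Ω) Ω := by
    have h1 : IntegrableOn (bdist Ω) (Metric.closedBall 0 N) :=
      hcont.continuousOn.integrableOn_compact (isCompact_closedBall _ _)
    exact h1.mono_set (sdiff_subset.trans Metric.ball_subset_closedBall)
  have key : c0 * (Real.pi * (N - 4) ^ 2) ≤ ∫ x in Ω, bdist Ω x := by
    have h1 := hint (N - 1) (by linarith)
    have e : N - 1 - 3 = N - 4 := by ring
    rw [e] at h1
    refine h1.trans ?_
    set V : Set ℂ := Metric.ball 0 (N - 1) \ Lat with hV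
    have hVae : V =ᵐ[volume] Metric.ball (0 : ℂ) (N - 1) := sdiff_null_ae_eq_self lat_null
    have hVΩ : V ⊆ Ω := by
      rintro x ⟨h1, h2⟩
      exact ⟨Metric.ball_subset_ball (by linarith) h1, h2⟩
    rw [← setIntegral_congr_set hVae]
    have hVm : MeasurableSet V := (Metric.isOpen_ball.sdiff lat_closed).measurableSet
    calc ∫ x in V, Metric.infDist x Lat ≤ ∫ x in V, bdist Ω x := by
          refine setIntegral_mono_on ?_ (hintΩ.mono_set hVΩ) hVm fun x hx => ?_
          · have h1 : IntegrableOn (fun x => Metric.infDist x Lat) (Metric.closedBall 0 N) :=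
              hcontL.continuousOn.integrableOn_compact (isCompact_closedBall _ _)
            exact h1.mono_set (hVΩ.trans (sdiff_subset.trans Metric.ball_subset_closedBall))
          · rw [(hb x (hVΩ hx)).1]
            refine (Metric.le_infDist ⟨lat 0 0, hsub ⟨0, 0, rfl⟩⟩).2 fun y hy => ?_
            by_cases hyL : y ∈ Lat
            · exact Metric.infDist_le_dist_of_mem hyL
            · have hyN : N ≤ ‖y‖ := by
                by_contra hlt
                push Not at hlt
                exact hy ⟨by simpa using hlt, hyL⟩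
              have hxN : ‖x‖ < N - 1 := by simpa using hx.1
              have h2 : ‖y‖ ≤ ‖x‖ + ‖x - y‖ := by
                have := norm_sub_norm_le y x
                rw [norm_sub_rev] at this
                linarith
              rw [dist_eq_norm]
              linarith [hle1 x]
      _ ≤ ∫ x in Ω, bdist Ω x :=
          setIntegral_mono_set hintΩ (Filter.Eventually.of_forall hnn) hVΩ.eventuallyLE
  have hvolR : (volume Ω).toReal = Real.pi * N ^ 2 := by
    rw [hvol, Complex.volume_ball]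
    simp only [ENNReal.toReal_mul, ENNReal.toReal_pow]
    rw [ENNReal.toReal_ofReal (by linarith)]
    simp [mul_comm]
  unfold F
  have havg : ⨍ x in Ω, bdist Ω x = (∫ x in Ω, bdist Ω x) / (Real.pi * N ^ 2) := by
    rw [setAverage_eq, ← hvolR, smul_eq_mul, div_eq_inv_mul]
    rfl
  have hc0 : 0 ≤ ∫ x in Ω, bdist Ω x := setIntegral_nonneg hopen.measurableSet fun x _ => hnn x
  have hpN : 0 < Real.pi * N ^ 2 := by
    have := Real.pi_pos
    have : 0 < N := by linarith
    positivity
  rw [havg, le_div_iff₀ hin0]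
  have h1 : c0 * ((N - 4) ^ 2 / N ^ 2) ≤ (∫ x in Ω, bdist Ω x) / (Real.pi * N ^ 2) := by
    rw [le_div_iff₀ hpN]
    have hN0 : N ^ 2 ≠ 0 := by
      have : 0 < N := by linarith
      positivity
    calc c0 * ((N - 4) ^ 2 / N ^ 2) * (Real.pi * N ^ 2) = c0 * (Real.pi * (N - 4) ^ 2) := by
          field_simp
      _ ≤ _ := key
  have hc0' : 0 ≤ c0 := by
    unfold c0
    have := Real.log_nonneg (by norm_num : (1 : ℝ) ≤ 3)
    positivity
  have h2 : 0 ≤ c0 * ((N - 4) ^ 2 / N ^ 2) := by positivity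
  calc c0 * ((N - 4) ^ 2 / N ^ 2) * inradius Ω ≤ c0 * ((N - 4) ^ 2 / N ^ 2) * 1 :=
        mul_le_mul_of_nonneg_left hin1 h2
    _ ≤ _ := by rw [mul_one]; exact h1

end Q126.MD
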