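import Pool.Agent.Q126.MD.Stmts2

namespace Q126.MD

open MeasureTheory Set

namespace H318LC

theorem line_null (L : ℂ →ₗ[ℝ] ℝ) (c : ℝ) (x0 : ℂ) (h : L x0 ≠ c) :
    volume {x : ℂ | L x = c} = 0 := by
  let A : AffineSubspace ℝ ℂ :=
    { carrier := {x : ℂ | L x = c}
      smul_vsub_vadd_mem' := by
        intro r p1 p2 p3 h1 h2 h3
        simp only [mem_ofPred_eq] at h1 h2 h3 ⊢
        rw [vsub_eq_sub, vadd_eq_add, map_add, map_smul, map_sub, h1, h2, h3]
        simp }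
  have hA : A ≠ ⊤ := by
    intro hA
    have : x0 ∈ A := by rw [hA]; trivial
    exact h this
  exact Measure.addHaar_affineSubspace volume A hA

noncomputable def sL : ℂ →ₗ[ℝ] ℝ := (1 / Real.sqrt 3) • Complex.reLm - (1 / 3 : ℝ) • Complex.imLm
noncomputable def tL : ℂ →ₗ[ℝ] ℝ := (2 / 3 : ℝ) • Complex.imLm

theorem sL_apply (x : ℂ) : sL x = 1 / Real.sqrt 3 * x.re - 1 / 3 * x.im := by
  simp [sL]

theorem tL_apply (x : ℂ) : tL x = 2 / 3 * x.im := by
  simp [tL]

theorem sqrt3_pos : 0 < Real.sqrt 3 := Real.sqrt_pos.2 (by norm_num)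

theorem sL_lat (i j : ℤ) : sL (lat i j) = i := by
  have := sqrt3_pos
  rw [sL_apply, lat]
  simp only
  field_simp
  ring

theorem tL_lat (i j : ℤ) : tL (lat i j) = j := by
  rw [tL_apply, lat]
  ring

theorem eq_comb (x : ℂ) : x = sL x * lat 1 0 + tL x * lat 0 1 := by
  have := sqrt3_pos
  have h3 : Real.sqrt 3 ^ 2 = 3 := Real.sq_sqrt (by norm_num)
  rw [sL_apply, tL_apply, lat, lat]
  apply Complex.ext
  · simp
    field_simp
    ring_nf
    rw [h3]
  · simp
    ring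

theorem sL_comb (s t : ℝ) : sL ((s : ℂ) * lat 1 0 + t * lat 0 1) = s := by
  have h1 : ((s : ℂ) * lat 1 0 + t * lat 0 1) = s • lat 1 0 + t • lat 0 1 := by
    simp
  rw [h1, map_add, map_smul, map_smul, sL_lat, sL_lat]
  simp

theorem tL_comb (s t : ℝ) : tL ((s : ℂ) * lat 1 0 + t * lat 0 1) = t := by
  have h1 : ((s : ℂ) * lat 1 0 + t * lat 0 1) = s • lat 1 0 + t • lat 0 1 := by
    simp
  rw [h1, map_add, map_smul, map_smul, tL_lat, tL_lat]
  simp

theorem Cell_eq : Cell = {x : ℂ | 0 ≤ sL x ∧ sL x < 1 ∧ 0 ≤ tL x ∧ tL x < 1} := by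
  ext x
  constructor
  · rintro ⟨s, t, h1, h2, h3, h4, rfl⟩
    simp only [mem_ofPred_eq, sL_comb, tL_comb]
    exact ⟨h1, h2, h3, h4⟩
  · rintro ⟨h1, h2, h3, h4⟩
    exact ⟨sL x, tL x, h1, h2, h3, h4, eq_comb x⟩

noncomputable def gL : ℂ →ₗ[ℝ] ℂ :=
  (LinearMap.toSpanSingleton ℝ ℂ 1).comp sL + (LinearMap.toSpanSingleton ℝ ℂ Complex.I).comp tL

theorem gL_apply (x : ℂ) : gL x = ⟨sL x, tL x⟩ := by
  apply Complex.ext <;> simp [gL]

theorem det_gL : LinearMap.det gL = 2 / (3 * Real.sqrt 3) := by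
  have := sqrt3_pos
  rw [← LinearMap.det_toMatrix Complex.basisOneI, Matrix.det_fin_two]
  simp only [LinearMap.toMatrix_apply, gL_apply, sL_apply, tL_apply]
  simp
  field_simp

theorem Cell_pre : Cell = gL ⁻¹' {x : ℂ | 0 ≤ x.re ∧ x.re < 1 ∧ 0 ≤ x.im ∧ x.im < 1} := by
  rw [Cell_eq]
  ext x
  simp only [mem_ofPred_eq, mem_preimage, gL_apply]

theorem vol_square : volume {x : ℂ | 0 ≤ x.re ∧ x.re < 1 ∧ 0 ≤ x.im ∧ x.im < 1} = 1 := by
  have h : {x : ℂ | 0 ≤ x.re ∧ x.re < 1 ∧ 0 ≤ x.im ∧ x.im < 1} =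
      Complex.measurableEquivRealProd ⁻¹' (Ico (0 : ℝ) 1 ×ˢ Ico (0 : ℝ) 1) := by
    ext x
    simp [Complex.measurableEquivRealProd, Complex.equivRealProd, and_assoc]
  rw [h, Complex.volume_preserving_equiv_real_prod.measure_preimage
    (measurableSet_Ico.prod measurableSet_Ico).nullMeasurableSet, Measure.volume_eq_prod,
    Measure.prod_prod]
  simp

theorem vol_cell : volume Cell = ENNReal.ofReal (3 * Real.sqrt 3 / 2) := by
  have h3 := sqrt3_pos
  rw [Cell_pre, Measure.addHaar_preimage_linearMap volume (by rw [det_gL]; positivity), vol_square,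
    mul_one, det_gL]
  congr 1
  rw [abs_of_pos (by positivity)]
  field_simp

theorem cont (L : ℂ →ₗ[ℝ] ℝ) : Continuous L := L.continuous_of_finiteDimensional

theorem T1_sub : T 0 (lat 1 0) (lat 0 1) ⊆ {x | 0 ≤ sL x ∧ 0 ≤ tL x ∧ (sL + tL) x ≤ 1} := by
  refine convexHull_min ?_ ?_
  · intro x hx
    rcases hx with rfl | rfl | rfl
    · simp
    · simp only [mem_ofPred_eq, LinearMap.add_apply, sL_lat, tL_lat]; norm_num
    · simp only [mem_ofPred_eq, LinearMap.add_apply, sL_lat, tL_lat]; norm_num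
  · exact ((convex_halfSpace_ge sL.isLinear 0).inter ((convex_halfSpace_ge tL.isLinear 0).inter
      (convex_halfSpace_le (sL + tL).isLinear 1)))

theorem T2_sub : T (lat 1 1) (lat 0 1) (lat 1 0) ⊆
    {x | sL x ≤ 1 ∧ tL x ≤ 1 ∧ 1 ≤ (sL + tL) x} := by
  refine convexHull_min ?_ ?_
  · intro x hx
    rcases hx with rfl | rfl | rfl
    all_goals simp only [mem_ofPred_eq, LinearMap.add_apply, sL_lat, tL_lat]; norm_num
  · exact ((convex_halfSpace_le sL.isLinear 1).inter ((convex_halfSpace_le tL.isLinear 1).inter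
      (convex_halfSpace_ge (sL + tL).isLinear 1)))

theorem T_compact (a b c : ℂ) : IsCompact (T a b c) :=
  Set.Finite.isCompact_convexHull ℝ (by simp)

theorem m3_cont (a b c : ℂ) : Continuous (m3 a b c) := by
  unfold m3
  fun_prop

theorem int_T2 (hIso : TaskIso) : ∫ x in T (lat 1 1) (lat 0 1) (lat 1 0),
    m3 (lat 1 1) (lat 0 1) (lat 1 0) x = ∫ x in T 0 (lat 1 0) (lat 0 1), m3 0 (lat 1 0) (lat 0 1) x := by
  have h1 := hIso.2.2.1 (-1) (lat 1 1) 0 (lat 1 0) (lat 0 1)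
  have e1 : lat 1 1 - lat 1 0 = lat 0 1 := by
    apply Complex.ext <;> simp [lat] <;> ring
  have e2 : lat 1 1 - lat 0 1 = lat 1 0 := by
    apply Complex.ext <;> simp [lat] <;> ring
  rw [show (-1 : ℂ) * 0 + lat 1 1 = lat 1 1 by ring,
    show (-1 : ℂ) * lat 1 0 + lat 1 1 = lat 0 1 by rw [← e1]; ring,
    show (-1 : ℂ) * lat 0 1 + lat 1 1 = lat 1 0 by rw [← e2]; ring] at h1
  rw [h1, hIso.1 (-1) (lat 1 1) _ _ (by simp)]
  congr 1
  funext x
  unfold m3
  rw [show (-1 : ℂ) * x + lat 1 1 - lat 1 1 = -x by ring,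
    show (-1 : ℂ) * x + lat 1 1 - lat 0 1 = -(x - lat 1 0) by rw [← e2]; ring,
    show (-1 : ℂ) * x + lat 1 1 - lat 1 0 = -(x - lat 0 1) by rw [← e1]; ring, norm_neg, norm_neg,
    norm_neg, sub_zero]

end H318LC

open H318LC

theorem LCell : TaskLCell := by
  intro hN hIso hE
  refine ⟨?_, vol_cell⟩
  have hLne : Lat.Nonempty := ⟨_, 0, 0, rfl⟩
  let A : Set ℂ := T 0 (lat 1 0) (lat 0 1) ∩ {x | (sL + tL) x < 1}
  let B : Set ℂ := T (lat 1 1) (lat 0 1) (lat 1 0) ∩ ({x | sL x < 1} ∩ ({x | tL x < 1} ∩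
    {x | 1 < (sL + tL) x}))
  have mlt : ∀ (L : ℂ →ₗ[ℝ] ℝ) (c : ℝ), MeasurableSet {x | L x < c} := fun L c =>
    (isOpen_lt (cont L) continuous_const).measurableSet
  have mgt : ∀ (L : ℂ →ₗ[ℝ] ℝ) (c : ℝ), MeasurableSet {x | c < L x} := fun L c =>
    (isOpen_lt continuous_const (cont L)).measurableSet
  have mA : MeasurableSet A := (T_compact _ _ _).isClosed.measurableSet.inter (mlt _ _)
  have mB : MeasurableSet B := (T_compact _ _ _).isClosed.measurableSet.inter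
    ((mlt _ _).inter ((mlt _ _).inter (mgt _ _)))
  have n1 : volume {x : ℂ | (sL + tL) x = 1} = 0 := line_null _ _ 0 (by simp)
  have n2 : volume {x : ℂ | sL x = 1} = 0 := line_null _ _ 0 (by simp)
  have n3 : volume {x : ℂ | tL x = 1} = 0 := line_null _ _ 0 (by simp)
  have eA : A =ᵐ[volume] T 0 (lat 1 0) (lat 0 1) := by
    refine (inter_subset_left.eventuallyLE).antisymm (ae_le_set.2 (measure_mono_null ?_ n1))
    rintro x ⟨hx, hx2⟩
    by_contra h
    exact hx2 ⟨hx, lt_of_le_of_ne (T1_sub hx).2.2 h⟩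
  have eB : B =ᵐ[volume] T (lat 1 1) (lat 0 1) (lat 1 0) := by
    refine (inter_subset_left.eventuallyLE).antisymm (ae_le_set.2 (measure_mono_null ?_
      (measure_union_null n2 (measure_union_null n3 n1))))
    rintro x ⟨hx, hx2⟩
    by_contra h
    simp only [mem_union, mem_ofPred_eq, not_or] at h
    exact hx2 ⟨hx, lt_of_le_of_ne (T2_sub hx).1 h.1, lt_of_le_of_ne (T2_sub hx).2.1 h.2.1,
      lt_of_le_of_ne (T2_sub hx).2.2 (Ne.symm h.2.2)⟩
  have hAB : Disjoint A B := by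
    rw [Set.disjoint_left]
    rintro x ⟨_, hx⟩ ⟨_, _, _, hx2⟩
    simp only [mem_ofPred_eq] at hx hx2
    linarith
  have hAC : A ⊆ Cell := by
    rintro x ⟨hx, hx2⟩
    rw [Cell_eq]
    have := T1_sub hx
    simp only [mem_ofPred_eq, LinearMap.add_apply] at this hx2 ⊢
    refine ⟨?_, ?_, ?_, ?_⟩ <;> linarith [this.1, this.2.1]
  have hBC : B ⊆ Cell := by
    rintro x ⟨hx, hx1, hx2, hx3⟩
    rw [Cell_eq]
    simp only [mem_ofPred_eq, LinearMap.add_apply] at hx1 hx2 hx3 ⊢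
    refine ⟨?_, ?_, ?_, ?_⟩ <;> linarith
  have hCb : Cell ⊆ Metric.closedBall 0 (‖lat 1 0‖ + ‖lat 0 1‖) := by
    rintro x ⟨s, t, h1, h2, h3, h4, rfl⟩
    rw [mem_closedBall_zero_iff]
    refine (norm_add_le _ _).trans ?_
    rw [norm_mul, norm_mul, Complex.norm_real, Complex.norm_real, Real.norm_of_nonneg h1,
      Real.norm_of_nonneg h3]
    gcongr
    · exact mul_le_of_le_one_left (norm_nonneg _) h2.le
    · exact mul_le_of_le_one_left (norm_nonneg _) h4.le
  have hint : ∀ (f : ℂ → ℝ), Continuous f → IntegrableOn f Cell := fun f hf =>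
    (hf.continuousOn.integrableOn_compact (isCompact_closedBall _ _)).mono_set hCb
  have hd : Continuous fun x => Metric.infDist x Lat := Metric.continuous_infDist_pt _
  have s1 : ∫ x in A ∪ B, Metric.infDist x Lat ≤ ∫ x in Cell, Metric.infDist x Lat :=
    setIntegral_mono_set (hint _ hd) (Filter.Eventually.of_forall fun x => Metric.infDist_nonneg)
      (union_subset hAC hBC).eventuallyLE
  have s2 : ∫ x in A ∪ B, Metric.infDist x Lat =
      (∫ x in A, Metric.infDist x Lat) + ∫ x in B, Metric.infDist x Lat :=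
    setIntegral_union hAB mB ((hint _ hd).mono_set hAC) ((hint _ hd).mono_set hBC)
  have s3 : ∫ x in A, m3 0 (lat 1 0) (lat 0 1) x ≤ ∫ x in A, Metric.infDist x Lat := by
    refine setIntegral_mono_on ((hint _ (m3_cont _ _ _)).mono_set hAC) ((hint _ hd).mono_set hAC) mA
      fun x hx => ?_
    rw [Metric.le_infDist hLne]
    rintro y ⟨i, j, rfl⟩
    rw [dist_eq_norm]
    exact hN.1 x hx.1 i j
  have s4 : ∫ x in B, m3 (lat 1 1) (lat 0 1) (lat 1 0) x ≤ ∫ x in B, Metric.infDist x Lat := by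
    refine setIntegral_mono_on ((hint _ (m3_cont _ _ _)).mono_set hBC) ((hint _ hd).mono_set hBC) mB
      fun x hx => ?_
    rw [Metric.le_infDist hLne]
    rintro y ⟨i, j, rfl⟩
    rw [dist_eq_norm]
    exact hN.2 x hx.1 i j
  rw [setIntegral_congr_set eA] at s3
  rw [setIntegral_congr_set eB, int_T2 hIso] at s4
  linarith

end Q126.MD
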