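import Pool.Agent.Q126.MD.Stmts2

/-! MP_50360a_an: the hexagonal lattice has covering radius (at most) 1. -/

namespace Q126.MD

theorem lcover_key (a b : ℝ) (ha : 0 ≤ a) (hb : 0 ≤ b) (hab : a + b ≤ 1) :
    a ^ 2 + a * b + b ^ 2 ≤ 1 / 3 ∨
    (a - 1) ^ 2 + (a - 1) * b + b ^ 2 ≤ 1 / 3 ∨
    a ^ 2 + a * (b - 1) + (b - 1) ^ 2 ≤ 1 / 3 := by
  by_contra hcon
  push Not at hcon
  obtain ⟨h0, h1, h2⟩ := hcon
  have hc : 0 ≤ 1 - a - b := by linarith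
  have e0 := mul_nonneg hc (sub_nonneg.2 h0.le)
  have e1 := mul_nonneg ha (sub_nonneg.2 h1.le)
  have e2 := mul_nonneg hb (sub_nonneg.2 h2.le)
  -- the weighted sum is `ab + a(1-a-b) + b(1-a-b) ≤ 1/3`
  have key : a * b + a * (1 - a - b) + b * (1 - a - b) ≤ 1 / 3 := by
    nlinarith [sq_nonneg (a - b), sq_nonneg (a - (1 - a - b)), sq_nonneg (b - (1 - a - b))]
  have id : (1 - a - b) * (a ^ 2 + a * b + b ^ 2 - 1 / 3) + a * ((a - 1) ^ 2 + (a - 1) * b + b ^ 2 - 1 / 3)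
      + b * (a ^ 2 + a * (b - 1) + (b - 1) ^ 2 - 1 / 3) =
      a * b + a * (1 - a - b) + b * (1 - a - b) - 1 / 3 := by ring
  have hz : a * b + a * (1 - a - b) + b * (1 - a - b) = 1 / 3 := by linarith
  have f1 : (1 - a - b) * (a ^ 2 + a * b + b ^ 2 - 1 / 3) = 0 := by linarith
  have f2 : a * ((a - 1) ^ 2 + (a - 1) * b + b ^ 2 - 1 / 3) = 0 := by linarith
  have f3 : b * (a ^ 2 + a * (b - 1) + (b - 1) ^ 2 - 1 / 3) = 0 := by linarith
  have g1 : 1 - a - b = 0 := by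
    rcases mul_eq_zero.1 f1 with h | h
    · exact h
    · linarith
  have g2 : a = 0 := by
    rcases mul_eq_zero.1 f2 with h | h
    · exact h
    · linarith
  have g3 : b = 0 := by
    rcases mul_eq_zero.1 f3 with h | h
    · exact h
    · linarith
  subst g2; subst g3
  norm_num at g1

theorem norm_lat_le (x : ℂ) (s t : ℝ) (i j : ℤ) (hx : x = ⟨Real.sqrt 3 * (s + t / 2), 3 / 2 * t⟩)
    (h : (s - i) ^ 2 + (s - i) * (t - j) + (t - j) ^ 2 ≤ 1 / 3) : ‖x - lat i j‖ ≤ 1 := by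
  have h3 : Real.sqrt 3 ^ 2 = 3 := Real.sq_sqrt (by norm_num)
  have hn : ‖x - lat i j‖ ^ 2 = 3 * ((s - i) ^ 2 + (s - i) * (t - j) + (t - j) ^ 2) := by
    rw [Complex.sq_norm, Complex.normSq_apply, hx]
    simp only [lat, Complex.sub_re, Complex.sub_im]
    linear_combination ((s - i) + (t - j) / 2) ^ 2 * h3
  have h1 : ‖x - lat i j‖ ^ 2 ≤ 1 := by rw [hn]; linarith
  have h0 := norm_nonneg (x - lat i j)
  nlinarith

theorem LCover : TaskLCover := by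
  intro x
  have h3p : 0 < Real.sqrt 3 := Real.sqrt_pos.2 (by norm_num)
  obtain ⟨t, ht⟩ : ∃ t : ℝ, t = 2 / 3 * x.im := ⟨_, rfl⟩
  obtain ⟨s, hs⟩ : ∃ s : ℝ, s = x.re / Real.sqrt 3 - t / 2 := ⟨_, rfl⟩
  have hx : x = ⟨Real.sqrt 3 * (s + t / 2), 3 / 2 * t⟩ := by
    apply Complex.ext
    · simp only [hs]
      field_simp
      ring
    · simp only [ht]
      ring
  have ha := Int.fract_nonneg s
  have hb := Int.fract_nonneg t
  have ha1 := (Int.fract_lt_one s).le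
  have hb1 := (Int.fract_lt_one t).le
  have es : s - ⌊s⌋ = Int.fract s := rfl
  have et : t - ⌊t⌋ = Int.fract t := rfl
  rcases le_total (Int.fract s + Int.fract t) 1 with hab | hab
  · rcases lcover_key _ _ ha hb hab with h | h | h
    · exact ⟨⌊s⌋, ⌊t⌋, norm_lat_le x s t _ _ hx (by rw [es, et]; exact h)⟩
    · refine ⟨⌊s⌋ + 1, ⌊t⌋, norm_lat_le x s t _ _ hx ?_⟩
      have e1 : s - ((⌊s⌋ + 1 : ℤ) : ℝ) = Int.fract s - 1 := by push_cast; rw [← es]; ring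
      rw [e1, et]; exact h
    · refine ⟨⌊s⌋, ⌊t⌋ + 1, norm_lat_le x s t _ _ hx ?_⟩
      have e1 : t - ((⌊t⌋ + 1 : ℤ) : ℝ) = Int.fract t - 1 := by push_cast; rw [← et]; ring
      rw [e1, es]; exact h
  · rcases lcover_key (1 - Int.fract s) (1 - Int.fract t) (by linarith) (by linarith) (by linarith)
      with h | h | h
    · refine ⟨⌊s⌋ + 1, ⌊t⌋ + 1, norm_lat_le x s t _ _ hx ?_⟩
      have e1 : s - ((⌊s⌋ + 1 : ℤ) : ℝ) = -(1 - Int.fract s) := by push_cast; rw [← es]; ring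
      have e2 : t - ((⌊t⌋ + 1 : ℤ) : ℝ) = -(1 - Int.fract t) := by push_cast; rw [← et]; ring
      rw [e1, e2]; linarith
    · refine ⟨⌊s⌋, ⌊t⌋ + 1, norm_lat_le x s t _ _ hx ?_⟩
      have e1 : s - ((⌊s⌋ : ℤ) : ℝ) = -(1 - Int.fract s - 1) := by rw [← es]; ring
      have e2 : t - ((⌊t⌋ + 1 : ℤ) : ℝ) = -(1 - Int.fract t) := by push_cast; rw [← et]; ring
      rw [e1, e2]; linarith
    · refine ⟨⌊s⌋ + 1, ⌊t⌋, norm_lat_le x s t _ _ hx ?_⟩
      have e1 : s - ((⌊s⌋ + 1 : ℤ) : ℝ) = -(1 - Int.fract s) := by push_cast; rw [← es]; ring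
      have e2 : t - ((⌊t⌋ : ℤ) : ℝ) = -(1 - Int.fract t - 1) := by rw [← et]; ring
      rw [e1, e2]; linarith

end Q126.MD
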