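import Pool.Agent.Q126.MD.Stmts2

set_option autoImplicit false

namespace Q126.MD

open MeasureTheory Set

namespace LEq

/-- a line -/
def Ln (α β γ : ℝ) : AffineSubspace ℝ ℂ where
  carrier := {x | α * x.re + β * x.im = γ}
  smul_vsub_vadd_mem' := by
    intro c p1 p2 p3 h1 h2 h3
    simp only [mem_ofPred_eq] at h1 h2 h3 ⊢
    simp only [vsub_eq_sub, vadd_eq_add, Complex.add_re, Complex.add_im, Complex.real_smul,
      Complex.mul_re, Complex.mul_im, Complex.ofReal_re, Complex.ofReal_im, Complex.sub_re,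
      Complex.sub_im]
    linear_combination c * h1 - c * h2 + h3

theorem null_bis (a b : ℂ) (hab : a ≠ b) : volume {x : ℂ | ‖x - a‖ = ‖x - b‖} = 0 := by
  have h1 : {x : ℂ | ‖x - a‖ = ‖x - b‖} ⊆
      (Ln (2 * (b.re - a.re)) (2 * (b.im - a.im)) (b.re^2 + b.im^2 - a.re^2 - a.im^2) : Set ℂ) := by
    intro x hx
    have hx' : ‖x - a‖ = ‖x - b‖ := hx
    have h2 : ‖x - a‖^2 = ‖x - b‖^2 := by rw [hx']
    rw [← Complex.normSq_eq_norm_sq, ← Complex.normSq_eq_norm_sq, Complex.normSq_apply,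
      Complex.normSq_apply] at h2
    simp only [Complex.sub_re, Complex.sub_im] at h2
    show (2 * (b.re - a.re)) * x.re + (2 * (b.im - a.im)) * x.im = (b.re^2 + b.im^2 - a.re^2 - a.im^2)
    linear_combination h2
  refine measure_mono_null h1 (Measure.addHaar_affineSubspace volume _ ?_)
  intro h
  have hm : ∀ x : ℂ, (2 * (b.re - a.re)) * x.re + (2 * (b.im - a.im)) * x.im =
      (b.re^2 + b.im^2 - a.re^2 - a.im^2) := by
    intro x
    have h2 : x ∈ Ln (2 * (b.re - a.re)) (2 * (b.im - a.im)) (b.re^2 + b.im^2 - a.re^2 - a.im^2) := by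
      rw [h]; trivial
    exact h2
  have h0 := hm 0
  have h2 := hm 1
  have hI := hm Complex.I
  simp at h0 h2 hI
  exact hab (Complex.ext (by linarith) (by linarith))

theorem nle (u v : ℂ) (h : u.re ^ 2 + u.im ^ 2 ≤ v.re ^ 2 + v.im ^ 2) : ‖u‖ ≤ ‖v‖ := by
  have h1 : ‖u‖ ^ 2 ≤ ‖v‖ ^ 2 := by
    rw [← Complex.normSq_eq_norm_sq, ← Complex.normSq_eq_norm_sq, Complex.normSq_apply,
      Complex.normSq_apply]
    nlinarith
  exact (sq_le_sq₀ (norm_nonneg _) (norm_nonneg _)).1 h1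

theorem s3sq : Real.sqrt 3 ^ 2 = 3 := Real.sq_sqrt (by norm_num)

theorem s3pos : 0 < Real.sqrt 3 := Real.sqrt_pos.2 (by norm_num)

theorem e1re : (lat 1 0).re = Real.sqrt 3 := by simp [lat]
theorem e1im : (lat 1 0).im = 0 := by simp [lat]
theorem e2re : (lat 0 1).re = Real.sqrt 3 / 2 := by simp [lat]; ring
theorem e2im : (lat 0 1).im = 3 / 2 := by simp [lat]

noncomputable def om : ℂ := ⟨-1/2, Real.sqrt 3 / 2⟩
noncomputable def uu : ℂ := ⟨1/2, Real.sqrt 3 / 2⟩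

theorem om_norm : ‖om‖ = 1 := by
  have h : ‖om‖ ^ 2 = 1 := by
    rw [← Complex.normSq_eq_norm_sq, Complex.normSq_apply]
    simp only [om]
    nlinarith [s3sq]
  nlinarith [norm_nonneg om]

theorem uu_norm : ‖uu‖ = 1 := by
  have h : ‖uu‖ ^ 2 = 1 := by
    rw [← Complex.normSq_eq_norm_sq, Complex.normSq_apply]
    simp only [uu]
    nlinarith [s3sq]
  nlinarith [norm_nonneg uu]

theorem uu1 : uu * (starRingEnd ℂ) (lat 1 0) + 0 = lat 0 1 := by
  apply Complex.ext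
  · simp only [Complex.add_re, Complex.mul_re, Complex.conj_re, Complex.conj_im, Complex.zero_re,
      e1re, e1im, e2re, uu]
    ring
  · simp only [Complex.add_im, Complex.mul_im, Complex.conj_re, Complex.conj_im, Complex.zero_im,
      e1re, e1im, e2im, uu]
    nlinarith [s3sq]

theorem uu2 : uu * (starRingEnd ℂ) (lat 0 1) + 0 = lat 1 0 := by
  apply Complex.ext
  · simp only [Complex.add_re, Complex.mul_re, Complex.conj_re, Complex.conj_im, Complex.zero_re,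
      e1re, e2im, e2re, uu]
    ring
  · simp only [Complex.add_im, Complex.mul_im, Complex.conj_re, Complex.conj_im, Complex.zero_im,
      e2re, e1im, e2im, uu]
    nlinarith [s3sq]

theorem om1 : om * (lat 1 0) + lat 1 0 = lat 0 1 := by
  apply Complex.ext
  · simp only [Complex.add_re, Complex.mul_re, e1re, e1im, e2re, om]
    ring
  · simp only [Complex.add_im, Complex.mul_im, e1re, e1im, e2im, om]
    nlinarith [s3sq]

theorem om2 : om * (lat 0 1) + lat 1 0 = 0 := by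
  apply Complex.ext
  · simp only [Complex.add_re, Complex.mul_re, e1re, e2im, e2re, om, Complex.zero_re]
    ring
  · simp only [Complex.add_im, Complex.mul_im, e2re, e1im, e2im, om, Complex.zero_im]
    nlinarith [s3sq]

/-- the distances after the rotation -/
theorem rot0 (x : ℂ) : ‖om * x + lat 1 0 - lat 1 0‖ = ‖x‖ := by
  rw [add_sub_cancel_right, norm_mul, om_norm, one_mul]

theorem rot1 (x : ℂ) : ‖om * x + lat 1 0 - lat 0 1‖ = ‖x - lat 1 0‖ := by
  have h : om * x + lat 1 0 - lat 0 1 = om * (x - lat 1 0) := by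
    rw [← om1]; ring
  rw [h, norm_mul, om_norm, one_mul]

theorem rot2 (x : ℂ) : ‖om * x + lat 1 0 - 0‖ = ‖x - lat 0 1‖ := by
  have h : om * x + lat 1 0 - 0 = om * (x - lat 0 1) := by
    have h2 := om2
    linear_combination h2
  rw [h, norm_mul, om_norm, one_mul]

theorem refl0 (x : ℂ) : ‖uu * (starRingEnd ℂ) x + 0‖ = ‖x‖ := by
  rw [add_zero, norm_mul, uu_norm, one_mul, RCLike.norm_conj]

theorem refl1 (x : ℂ) : ‖uu * (starRingEnd ℂ) x + 0 - lat 0 1‖ = ‖x - lat 1 0‖ := by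
  have h : uu * (starRingEnd ℂ) x + 0 - lat 0 1 = uu * (starRingEnd ℂ) (x - lat 1 0) := by
    rw [← uu1, map_sub]; ring
  rw [h, norm_mul, uu_norm, one_mul, RCLike.norm_conj]

theorem refl2 (x : ℂ) : ‖uu * (starRingEnd ℂ) x + 0 - lat 1 0‖ = ‖x - lat 0 1‖ := by
  have h : uu * (starRingEnd ℂ) x + 0 - lat 1 0 = uu * (starRingEnd ℂ) (x - lat 0 1) := by
    rw [← uu2, map_sub]; ring
  rw [h, norm_mul, uu_norm, one_mul, RCLike.norm_conj]

/-- the first right triangle -/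
def R0 : Set ℂ := {x : ℂ | 0 ≤ x.re ∧ x.re ≤ Real.sqrt 3 / 2 ∧ 0 ≤ x.im ∧
  x.im * (Real.sqrt 3 / 2) ≤ (1 / 2) * x.re}

theorem R0_dist {x : ℂ} (hx : x ∈ R0) : ‖x‖ ≤ ‖x - lat 1 0‖ ∧ ‖x - lat 1 0‖ ≤ ‖x - lat 0 1‖ := by
  obtain ⟨h1, h2, h3, h4⟩ := hx
  have hs := s3sq
  have hp := s3pos
  constructor
  · apply nle
    simp only [Complex.sub_re, Complex.sub_im, e1re, e1im]
    nlinarith
  · apply nle
    simp only [Complex.sub_re, Complex.sub_im, e1re, e1im, e2re, e2im]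
    nlinarith

theorem T0_mem0 : (0 : ℂ) ∈ T 0 (lat 1 0) (lat 0 1) := subset_convexHull ℝ _ (by simp)
theorem T0_mem1 : lat 1 0 ∈ T 0 (lat 1 0) (lat 0 1) := subset_convexHull ℝ _ (by simp)
theorem T0_mem2 : lat 0 1 ∈ T 0 (lat 1 0) (lat 0 1) := subset_convexHull ℝ _ (by simp)

theorem R0_sub (hRH : TaskRightHull) : R0 ⊆ T 0 (lat 1 0) (lat 0 1) := by
  have h := hRH (Real.sqrt 3 / 2) (1 / 2) (by have := s3pos; positivity) (by norm_num)
  have hc : Convex ℝ (T 0 (lat 1 0) (lat 0 1)) := convex_convexHull ℝ _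
  have hm : ((Real.sqrt 3 / 2 : ℝ) : ℂ) ∈ T 0 (lat 1 0) (lat 0 1) := by
    have h1 := hc T0_mem0 T0_mem1 (a := 1 / 2) (b := 1 / 2) (by norm_num) (by norm_num) (by norm_num)
    have h2 : ((Real.sqrt 3 / 2 : ℝ) : ℂ) = (1 / 2 : ℝ) • (0 : ℂ) + (1 / 2 : ℝ) • lat 1 0 := by
      apply Complex.ext
      · simp only [Complex.add_re, Complex.real_smul, Complex.mul_re, Complex.ofReal_re,
          Complex.ofReal_im, e1re, e1im, Complex.zero_re, Complex.zero_im]
        ring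
      · simp only [Complex.add_im, Complex.real_smul, Complex.mul_im, Complex.ofReal_re,
          Complex.ofReal_im, e1re, e1im, Complex.zero_re, Complex.zero_im]
        ring
    rw [h2]
    exact h1
  have hn : ((Real.sqrt 3 / 2 : ℝ) : ℂ) + ((1 / 2 : ℝ) : ℂ) * Complex.I ∈
      T 0 (lat 1 0) (lat 0 1) := by
    have h1 := hc hm T0_mem2 (a := 2 / 3) (b := 1 / 3) (by norm_num) (by norm_num) (by norm_num)
    have h2 : ((Real.sqrt 3 / 2 : ℝ) : ℂ) + ((1 / 2 : ℝ) : ℂ) * Complex.I =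
        (2 / 3 : ℝ) • ((Real.sqrt 3 / 2 : ℝ) : ℂ) + (1 / 3 : ℝ) • lat 0 1 := by
      apply Complex.ext
      · simp only [Complex.add_re, Complex.real_smul, Complex.mul_re, Complex.ofReal_re,
          Complex.ofReal_im, e2re, e2im, Complex.I_re, Complex.I_im]
        ring
      · simp only [Complex.add_im, Complex.real_smul, Complex.mul_im, Complex.ofReal_re,
          Complex.ofReal_im, e2re, e2im, Complex.I_re, Complex.I_im]
        ring
    rw [h2]
    exact h1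
  have h1 : R0 = T 0 ((Real.sqrt 3 / 2 : ℝ) : ℂ)
      (((Real.sqrt 3 / 2 : ℝ) : ℂ) + ((1 / 2 : ℝ) : ℂ) * Complex.I) := by
    rw [h]; rfl
  rw [h1]
  refine convexHull_min ?_ hc
  intro x hx
  simp only [mem_insert_iff, mem_singleton_iff] at hx
  rcases hx with rfl | rfl | rfl
  · exact T0_mem0
  · exact hm
  · exact hn

theorem R0_compact (hRH : TaskRightHull) : IsCompact R0 := by
  have h := hRH (Real.sqrt 3 / 2) (1 / 2) (by have := s3pos; positivity) (by norm_num)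
  have h1 : R0 = T 0 ((Real.sqrt 3 / 2 : ℝ) : ℂ)
      (((Real.sqrt 3 / 2 : ℝ) : ℂ) + ((1 / 2 : ℝ) : ℂ) * Complex.I) := by
    rw [h]; rfl
  rw [h1]
  exact (Set.toFinite ({0, ((Real.sqrt 3 / 2 : ℝ) : ℂ),
      ((Real.sqrt 3 / 2 : ℝ) : ℂ) + ((1 / 2 : ℝ) : ℂ) * Complex.I} : Set ℂ)).isCompact_convexHull
    (𝕜 := ℝ)

theorem refl_T (hIso : TaskIso) : (fun x => uu * x + 0) '' ((starRingEnd ℂ) '' T 0 (lat 1 0) (lat 0 1)) =
    T 0 (lat 1 0) (lat 0 1) := by
  obtain ⟨-, -, h3, -, -, h6⟩ := hIso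
  rw [← h6, ← h3, uu1, uu2, map_zero, mul_zero, zero_add]
  unfold T
  rw [Set.pair_comm]

theorem rot_T (hIso : TaskIso) : (fun x => om * x + lat 1 0) '' T 0 (lat 1 0) (lat 0 1) =
    T 0 (lat 1 0) (lat 0 1) := by
  obtain ⟨-, -, h3, -, -, h6⟩ := hIso
  rw [← h3, om1, om2, mul_zero, zero_add]
  unfold T
  congr 1
  ext x
  simp only [mem_insert_iff, mem_singleton_iff]
  tauto

/-- the distance to the nearest vertex -/
noncomputable def f (x : ℂ) : ℝ := m3 0 (lat 1 0) (lat 0 1) x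

theorem f_cont : Continuous f := by
  unfold f m3
  fun_prop

theorem f_rot (x : ℂ) : f (om * x + lat 1 0) = f x := by
  unfold f m3
  rw [rot0, rot1, rot2, sub_zero]
  rw [min_comm, min_assoc]

theorem f_refl (x : ℂ) : f (uu * (starRingEnd ℂ) x + 0) = f x := by
  unfold f m3
  rw [refl1, refl2, sub_zero, refl0, sub_zero]
  rw [min_comm ‖x - lat 0 1‖]

theorem f_nonneg (x : ℂ) : 0 ≤ f x := by
  unfold f m3
  positivity

theorem LEquil' (hG0 : TaskG0) (hRI : TaskRightInt) (hRH : TaskRightHull) (hIso : TaskIso) :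
    c0 * (3 * Real.sqrt 3 / 4) ≤ ∫ x in T 0 (lat 1 0) (lat 0 1), f x := by
  have hs := s3sq
  have hp := s3pos
  set R1 : Set ℂ := (fun x => uu * x + 0) '' ((starRingEnd ℂ) '' R0) with hR1
  set K0 : Set ℂ := R0 ∪ R1 with hK0
  set K1 : Set ℂ := (fun x => om * x + lat 1 0) '' K0 with hK1
  set K2 : Set ℂ := (fun x => om * x + lat 1 0) '' K1 with hK2
  have c0' : IsCompact R0 := R0_compact hRH
  have cR1 : IsCompact R1 := (c0'.image Complex.continuous_conj).image (by fun_prop)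
  have cK0 : IsCompact K0 := c0'.union cR1
  have cK1 : IsCompact K1 := cK0.image (by fun_prop)
  have cK2 : IsCompact K2 := cK1.image (by fun_prop)
  have ic : ∀ K : Set ℂ, IsCompact K → IntegrableOn f K volume := fun K hK =>
    f_cont.continuousOn.integrableOn_compact hK
  -- subsets of the triangle
  have sR0 : R0 ⊆ T 0 (lat 1 0) (lat 0 1) := R0_sub hRH
  have sR1 : R1 ⊆ T 0 (lat 1 0) (lat 0 1) := by
    rw [← refl_T hIso]
    exact image_mono (image_mono sR0)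
  have sK0 : K0 ⊆ T 0 (lat 1 0) (lat 0 1) := union_subset sR0 sR1
  have sK1 : K1 ⊆ T 0 (lat 1 0) (lat 0 1) := by
    rw [← rot_T hIso]
    exact image_mono sK0
  have sK2 : K2 ⊆ T 0 (lat 1 0) (lat 0 1) := by
    rw [← rot_T hIso]
    exact image_mono sK1
  -- distances
  have dR1 : ∀ y ∈ R1, ‖y‖ ≤ ‖y - lat 0 1‖ ∧ ‖y - lat 0 1‖ ≤ ‖y - lat 1 0‖ := by
    rintro y ⟨_, ⟨x, hx, rfl⟩, rfl⟩
    obtain ⟨h1, h2⟩ := R0_dist hx
    show ‖uu * (starRingEnd ℂ) x + 0‖ ≤ ‖uu * (starRingEnd ℂ) x + 0 - lat 0 1‖ ∧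
      ‖uu * (starRingEnd ℂ) x + 0 - lat 0 1‖ ≤ ‖uu * (starRingEnd ℂ) x + 0 - lat 1 0‖
    rw [refl0, refl1, refl2]
    exact ⟨h1, h2⟩
  have dK0 : ∀ y ∈ K0, ‖y‖ ≤ ‖y - lat 1 0‖ ∧ ‖y‖ ≤ ‖y - lat 0 1‖ := by
    rintro y (hy | hy)
    · obtain ⟨h1, h2⟩ := R0_dist hy
      exact ⟨h1, h1.trans h2⟩
    · obtain ⟨h1, h2⟩ := dR1 y hy
      exact ⟨h1.trans h2, h1⟩
  have dK1 : ∀ y ∈ K1, ‖y - lat 1 0‖ ≤ ‖y - lat 0 1‖ ∧ ‖y - lat 1 0‖ ≤ ‖y - 0‖ := by
    rintro y ⟨x, hx, rfl⟩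
    obtain ⟨h1, h2⟩ := dK0 x hx
    show ‖om * x + lat 1 0 - lat 1 0‖ ≤ ‖om * x + lat 1 0 - lat 0 1‖ ∧
      ‖om * x + lat 1 0 - lat 1 0‖ ≤ ‖om * x + lat 1 0 - 0‖
    rw [rot0, rot1, rot2]
    exact ⟨h1, h2⟩
  have dK2 : ∀ y ∈ K2, ‖y - lat 0 1‖ ≤ ‖y - 0‖ ∧ ‖y - lat 0 1‖ ≤ ‖y - lat 1 0‖ := by
    rintro y ⟨x, hx, rfl⟩
    obtain ⟨h1, h2⟩ := dK1 x hx
    show ‖om * x + lat 1 0 - lat 0 1‖ ≤ ‖om * x + lat 1 0 - 0‖ ∧
      ‖om * x + lat 1 0 - lat 0 1‖ ≤ ‖om * x + lat 1 0 - lat 1 0‖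
    rw [rot0, rot1, rot2]
    rw [sub_zero] at h2
    exact ⟨h1, h2⟩
  have ne01 : (0 : ℂ) ≠ lat 1 0 := by
    intro h
    have h1 := congrArg Complex.re h
    rw [e1re, Complex.zero_re] at h1
    linarith
  have ne02 : (0 : ℂ) ≠ lat 0 1 := by
    intro h
    have h1 := congrArg Complex.re h
    rw [e2re, Complex.zero_re] at h1
    linarith
  have ne12 : lat 1 0 ≠ lat 0 1 := by
    intro h
    have h1 := congrArg Complex.im h
    rw [e1im, e2im] at h1
    linarith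
  -- null intersections
  have n01 : AEDisjoint volume R0 R1 := by
    refine measure_mono_null ?_ (null_bis _ _ ne12)
    rintro y ⟨h1, h2⟩
    exact le_antisymm (R0_dist h1).2 (dR1 y h2).2
  have nK01 : AEDisjoint volume K0 K1 := by
    refine measure_mono_null ?_ (null_bis _ _ ne01)
    rintro y ⟨h1, h2⟩
    have h3 := (dK0 y h1).1
    have h4 := (dK1 y h2).2
    show ‖y - 0‖ = ‖y - lat 1 0‖
    rw [sub_zero] at h4 ⊢
    exact le_antisymm h3 h4
  have nK02 : AEDisjoint volume K0 K2 := by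
    refine measure_mono_null ?_ (null_bis _ _ ne02)
    rintro y ⟨h1, h2⟩
    have h3 := (dK0 y h1).2
    have h4 := (dK2 y h2).1
    show ‖y - 0‖ = ‖y - lat 0 1‖
    rw [sub_zero] at h4 ⊢
    exact le_antisymm h3 h4
  have nK12 : AEDisjoint volume K1 K2 := by
    refine measure_mono_null ?_ (null_bis _ _ ne12)
    rintro y ⟨h1, h2⟩
    exact le_antisymm (dK1 y h1).1 (dK2 y h2).2
  have hIso' := hIso
  obtain ⟨i1, -, -, i4, -, -⟩ := hIso'
  -- integrals
  have iR1 : ∫ x in R1, f x = ∫ x in R0, f x := by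
    rw [hR1, i1 uu 0 _ f uu_norm, i4]
    simp only [f_refl]
  have iK1 : ∫ x in K1, f x = ∫ x in K0, f x := by
    rw [hK1, i1 om (lat 1 0) _ f om_norm]
    simp only [f_rot]
  have iK2 : ∫ x in K2, f x = ∫ x in K1, f x := by
    rw [hK2, i1 om (lat 1 0) _ f om_norm]
    simp only [f_rot]
  have iK0 : ∫ x in K0, f x = (∫ x in R0, f x) + ∫ x in R1, f x :=
    setIntegral_union₀ n01 cR1.measurableSet.nullMeasurableSet (ic _ c0') (ic _ cR1)
  have iU : ∫ x in K0 ∪ K1, f x = (∫ x in K0, f x) + ∫ x in K1, f x :=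
    setIntegral_union₀ nK01 cK1.measurableSet.nullMeasurableSet (ic _ cK0) (ic _ cK1)
  have iV : ∫ x in (K0 ∪ K1) ∪ K2, f x = (∫ x in K0 ∪ K1, f x) + ∫ x in K2, f x :=
    setIntegral_union₀ (nK02.union_left nK12) cK2.measurableSet.nullMeasurableSet
      (ic _ (cK0.union cK1)) (ic _ cK2)
  have iR0 : ∫ x in R0, f x = (Real.sqrt 3 / 2) ^ 3 / 3 * c0 := by
    have h1 : ∫ x in R0, f x = ∫ x in R0, ‖x‖ := by
      refine setIntegral_congr_fun c0'.measurableSet fun x hx => ?_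
      obtain ⟨h1, h2⟩ := R0_dist hx
      show f x = ‖x‖
      unfold f m3
      rw [sub_zero, min_eq_left]
      exact le_min h1 (h1.trans h2)
    have h2 := hRI (Real.sqrt 3 / 2) (1 / 2) (by positivity) (by norm_num)
    have h3 : (1 / 2) / (Real.sqrt 3 / 2) = 1 / Real.sqrt 3 := by
      field_simp
    rw [h3] at h2
    have h4 : G (1 / Real.sqrt 3) = c0 := hG0
    rw [h4] at h2
    rw [h1, ← h2]
    rfl
  have hmono : ∫ x in (K0 ∪ K1) ∪ K2, f x ≤ ∫ x in T 0 (lat 1 0) (lat 0 1), f x := by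
    have hT : IsCompact (T 0 (lat 1 0) (lat 0 1)) :=
      (Set.toFinite ({0, lat 1 0, lat 0 1} : Set ℂ)).isCompact_convexHull (𝕜 := ℝ)
    refine setIntegral_mono_set (ic _ hT) (Filter.Eventually.of_forall f_nonneg) ?_
    exact Filter.Eventually.of_forall fun x hx => union_subset (union_subset sK0 sK1) sK2 hx
  refine le_trans (le_of_eq ?_) hmono
  rw [iV, iU, iK2, iK1, iK0, iR1, iR0]
  have h5 : Real.sqrt 3 ^ 3 = 3 * Real.sqrt 3 := by
    rw [pow_succ, hs]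
  have h6 : (Real.sqrt 3 / 2) ^ 3 / 3 * c0 = Real.sqrt 3 ^ 3 / 24 * c0 := by ring
  rw [h6, h5]
  ring

end LEq

theorem LEquil : TaskLEquil := fun hG0 hRI hRH hIso => LEq.LEquil' hG0 hRI hRH hIso

end Q126.MD
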