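import Pool.Agent.Q126.MD.Stmts

set_option autoImplicit false

open MeasureTheory Set

namespace Q126.MD

lemma mem_T_iff {a b c x : ℂ} : x ∈ T a b c ↔ ∃ p q r : ℝ, 0 ≤ p ∧ 0 ≤ q ∧ 0 ≤ r ∧
    p + q + r = 1 ∧ x = p * a + q * b + r * c := by
  constructor
  · intro hx
    have hsub : convexHull ℝ ({a, b, c} : Set ℂ) ⊆ {x | ∃ p q r : ℝ, 0 ≤ p ∧ 0 ≤ q ∧ 0 ≤ r ∧
        p + q + r = 1 ∧ x = p * a + q * b + r * c} := by
      refine convexHull_min ?_ ?_
      · intro y hy
        rcases hy with rfl | rfl | rfl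
        · exact ⟨1, 0, 0, by norm_num, le_rfl, le_rfl, by norm_num, by simp⟩
        · exact ⟨0, 1, 0, le_rfl, by norm_num, le_rfl, by norm_num, by simp⟩
        · exact ⟨0, 0, 1, le_rfl, le_rfl, by norm_num, by norm_num, by simp⟩
      · rintro y ⟨p, q, r, h1, h2, h3, h4, rfl⟩ y' ⟨p', q', r', h1', h2', h3', h4', rfl⟩ s s' hs hs'
          hss
        refine ⟨s * p + s' * p', s * q + s' * q', s * r + s' * r', by positivity, by positivity,
          by positivity, ?_, ?_⟩
        · have : s * p + s' * p' + (s * q + s' * q') + (s * r + s' * r') =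
            s * (p + q + r) + s' * (p' + q' + r') := by ring
          rw [this, h4, h4', mul_one, mul_one, hss]
        · simp only [Complex.real_smul]
          push_cast
          ring
    exact hsub hx
  · rintro ⟨p, q, r, h1, h2, h3, h4, rfl⟩
    have h := (convex_convexHull ℝ ({a, b, c} : Set ℂ)).sum_mem (t := Finset.univ)
      (w := ![p, q, r]) (z := ![a, b, c]) (by
        intro i _
        fin_cases i <;> simpa) (by simpa [Fin.sum_univ_three] using h4) (by
        intro i _
        apply subset_convexHull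
        fin_cases i <;> simp)
    rw [Fin.sum_univ_three] at h
    simpa [T, Complex.real_smul] using h

theorem taskSplit : TaskSplit := by
  intro a b c z x hz hx
  obtain ⟨n1, n2, n3, a1, a2, a3, a4, hz⟩ := mem_T_iff.1 hz
  obtain ⟨m1, m2, m3, b1, b2, b3, b4, hx⟩ := mem_T_iff.1 hx
  have key : ∃ τ : ℝ, 0 ≤ τ ∧ τ * n1 ≤ m1 ∧ τ * n2 ≤ m2 ∧ τ * n3 ≤ m3 ∧
      (m1 = τ * n1 ∨ m2 = τ * n2 ∨ m3 = τ * n3) := by
    let n : Fin 3 → ℝ := ![n1, n2, n3]
    let m : Fin 3 → ℝ := ![m1, m2, m3]
    have hn : ∀ i, 0 ≤ n i := by intro i; fin_cases i <;> simpa [n]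
    have hm : ∀ i, 0 ≤ m i := by intro i; fin_cases i <;> simpa [m]
    have hne : (Finset.univ.filter fun i => 0 < n i).Nonempty := by
      by_contra h
      rw [Finset.not_nonempty_iff_eq_empty, Finset.filter_eq_empty_iff] at h
      have e1 := h (Finset.mem_univ 0)
      have e2 := h (Finset.mem_univ 1)
      have e3 := h (Finset.mem_univ 2)
      simp only [n, Matrix.cons_val_zero, Matrix.cons_val_one, Matrix.cons_val] at e1 e2 e3
      linarith
    obtain ⟨i, hi, hmin⟩ := Finset.exists_min_image _ (fun i => m i / n i) hne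
    have hi' : 0 < n i := (Finset.mem_filter.1 hi).2
    have hall : ∀ j, m i / n i * n j ≤ m j := by
      intro j
      rcases (hn j).eq_or_lt with h0 | h0
      · rw [← h0, mul_zero]
        exact hm j
      · have := hmin j (Finset.mem_filter.2 ⟨Finset.mem_univ _, h0⟩)
        rwa [le_div_iff₀ h0] at this
    have heq : m i = m i / n i * n i := by field_simp
    refine ⟨m i / n i, div_nonneg (hm i) (hn i), hall 0, hall 1, hall 2, ?_⟩
    revert heq
    generalize m i / n i = τ
    intro heq
    fin_cases i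
    · exact Or.inl heq
    · exact Or.inr (Or.inl heq)
    · exact Or.inr (Or.inr heq)
  obtain ⟨τ, h0, h1, h2, h3, h4⟩ := key
  rcases h4 with h4 | h4 | h4
  · right; left
    refine mem_T_iff.2 ⟨τ, m2 - τ * n2, m3 - τ * n3, h0, by linarith, by linarith, ?_, ?_⟩
    · have : τ * (n1 + n2 + n3) = τ := by rw [a4, mul_one]
      linarith
    · rw [hx, hz, h4]
      push_cast
      ring
  · right; right
    refine mem_T_iff.2 ⟨τ, m3 - τ * n3, m1 - τ * n1, h0, by linarith, by linarith, ?_, ?_⟩
    · have : τ * (n1 + n2 + n3) = τ := by rw [a4, mul_one]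
      linarith
    · rw [hx, hz, h4]
      push_cast
      ring
  · left
    refine mem_T_iff.2 ⟨τ, m1 - τ * n1, m2 - τ * n2, h0, by linarith, by linarith, ?_, ?_⟩
    · have : τ * (n1 + n2 + n3) = τ := by rw [a4, mul_one]
      linarith
    · rw [hx, hz, h4]
      push_cast
      ring

end Q126.MD
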