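import Pool.Agent.Q126.MD.Stmts2
import Pool.Agent.Q126.MD.TaskSplit

/-! MP_50360a_an: blueprint, `TaskLNearest`. -/

set_option autoImplicit false

open MeasureTheory Set

namespace Q126.MD

namespace LNearestAux

lemma sq_dist (x : ℂ) (s t : ℝ) (hx : x = s * lat 1 0 + t * lat 0 1) (i j : ℤ) :
    ‖x - lat i j‖ ^ 2 = 3 * ((s - i) ^ 2 + (s - i) * (t - j) + (t - j) ^ 2) := by
  have h3 : Real.sqrt 3 ^ 2 = 3 := Real.sq_sqrt (by norm_num)
  have hre : x.re = Real.sqrt 3 * (s + t / 2) := by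
    rw [hx]; simp [lat]; ring
  have him : x.im = 3 / 2 * t := by
    rw [hx]; simp [lat]; ring
  rw [Complex.sq_norm, Complex.normSq_apply, Complex.sub_re, Complex.sub_im, hre, him]
  simp only [lat]
  have : (Real.sqrt 3 * (s + t / 2) - Real.sqrt 3 * (i + j / 2)) *
      (Real.sqrt 3 * (s + t / 2) - Real.sqrt 3 * (i + j / 2)) =
      Real.sqrt 3 ^ 2 * ((s + t / 2) - (i + j / 2)) ^ 2 := by ring
  rw [this, h3]
  ring

lemma first (x : ℂ) (hx : x ∈ T 0 (lat 1 0) (lat 0 1)) (i j : ℤ) :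
    m3 0 (lat 1 0) (lat 0 1) x ≤ ‖x - lat i j‖ := by
  obtain ⟨p, s, t, hp, hs, ht, hsum, hxe⟩ := mem_T_iff.1 hx
  have hx' : x = s * lat 1 0 + t * lat 0 1 := by rw [hxe]; ring
  have l00 : lat 0 0 = 0 := by
    apply Complex.ext <;> simp [lat]
  have hd := sq_dist x s t hx'
  have e0 : m3 0 (lat 1 0) (lat 0 1) x ≤ ‖x - lat 0 0‖ := by rw [l00]; exact min_le_left _ _
  have e1 : m3 0 (lat 1 0) (lat 0 1) x ≤ ‖x - lat 1 0‖ :=
    (min_le_right _ _).trans (min_le_left _ _)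
  have e2 : m3 0 (lat 1 0) (lat 0 1) x ≤ ‖x - lat 0 1‖ :=
    (min_le_right _ _).trans (min_le_right _ _)
  have hm0 : 0 ≤ m3 0 (lat 1 0) (lat 0 1) x :=
    le_min (norm_nonneg _) (le_min (norm_nonneg _) (norm_nonneg _))
  have s0 := pow_le_pow_left₀ hm0 e0 2
  have s1 := pow_le_pow_left₀ hm0 e1 2
  have s2 := pow_le_pow_left₀ hm0 e2 2
  rw [hd] at s0 s1 s2
  push_cast at s0 s1 s2
  -- `m3 ^ 2 ≤ 9 / 4`
  have hM : m3 0 (lat 1 0) (lat 0 1) x ^ 2 ≤ 9 / 4 := by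
    have h0 := mul_le_mul_of_nonneg_left s0 hp
    have h1 := mul_le_mul_of_nonneg_left s1 hs
    have h2 := mul_le_mul_of_nonneg_left s2 ht
    have hps : p = 1 - s - t := by linarith
    subst hps
    nlinarith [sq_nonneg (s - t), sq_nonneg (s + t - 1), mul_nonneg hs ht, mul_nonneg hp hs,
      mul_nonneg hp ht]
  have big : 9 / 4 ≤ ‖x - lat i j‖ ^ 2 → m3 0 (lat 1 0) (lat 0 1) x ≤ ‖x - lat i j‖ := by
    intro h
    exact le_of_sq_le_sq (hM.trans h) (norm_nonneg _)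
  rcases lt_or_ge i 0 with hi | hi
  · apply big
    rw [hd]
    have hi' : (i : ℝ) ≤ -1 := by exact_mod_cast (by omega : i ≤ -1)
    have h1 : 1 ≤ s - i := by linarith
    nlinarith [sq_nonneg ((s - i) + 2 * (t - j))]
  rcases lt_or_ge j 0 with hj | hj
  · apply big
    rw [hd]
    have hj' : (j : ℝ) ≤ -1 := by exact_mod_cast (by omega : j ≤ -1)
    have h1 : 1 ≤ t - j := by linarith
    nlinarith [sq_nonneg (2 * (s - i) + (t - j))]
  rcases lt_or_ge 1 (i + j) with hij | hij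
  · apply big
    rw [hd]
    have hj' : (2 : ℝ) ≤ i + j := by exact_mod_cast (by omega : 2 ≤ i + j)
    have h1 : 1 ≤ -((s - i) + (t - j)) := by linarith
    nlinarith [sq_nonneg ((s - i) - (t - j))]
  · have : (i = 0 ∧ j = 0) ∨ (i = 1 ∧ j = 0) ∨ (i = 0 ∧ j = 1) := by omega
    rcases this with ⟨rfl, rfl⟩ | ⟨rfl, rfl⟩ | ⟨rfl, rfl⟩
    · exact e0
    · exact e1
    · exact e2

end LNearestAux

open LNearestAux in
theorem LNearest : TaskLNearest := by
  refine ⟨first, ?_⟩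
  intro x hx i j
  obtain ⟨p, s, t, hp, hs, ht, hsum, hxe⟩ := mem_T_iff.1 hx
  have r : ∀ i j : ℤ, x - lat i j = -((lat 1 1 - x) - lat (1 - i) (1 - j)) := by
    intro i j
    have : lat i j = lat 1 1 - lat (1 - i) (1 - j) := by
      apply Complex.ext <;> simp [lat] <;> ring
    rw [this]
    ring
  have l11 : lat 1 1 = lat 1 0 + lat 0 1 := by
    apply Complex.ext <;> simp [lat] <;> ring
  have hy : lat 1 1 - x ∈ T 0 (lat 1 0) (lat 0 1) := by
    rw [mem_T_iff]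
    refine ⟨p, s, t, hp, hs, ht, hsum, ?_⟩
    have hps : (p : ℂ) = 1 - s - t := by
      have : p = 1 - s - t := by linarith
      rw [this]; push_cast; ring
    rw [hxe, hps, l11]
    ring
  have h := first (lat 1 1 - x) hy (1 - i) (1 - j)
  rw [r i j, norm_neg]
  have l00 : lat 0 0 = 0 := by
    apply Complex.ext <;> simp [lat]
  have hm : m3 (lat 1 1) (lat 0 1) (lat 1 0) x = m3 0 (lat 1 0) (lat 0 1) (lat 1 1 - x) := by
    unfold m3
    rw [r 1 1, r 0 1, r 1 0, norm_neg, norm_neg, norm_neg]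
    norm_num [l00]
  rw [hm]
  exact h

end Q126.MD
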