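import Pool.Agent.Q126.MD.Stmts2

set_option autoImplicit false

namespace Q126.MD

open MeasureTheory Set

noncomputable section

namespace LTile

def ts (x : ℂ) : ℝ := x.re / Real.sqrt 3 - x.im / 3
def tt (x : ℂ) : ℝ := 2 / 3 * x.im

theorem s3 : 0 < Real.sqrt 3 := by positivity
theorem s3sq : Real.sqrt 3 * Real.sqrt 3 = 3 := Real.mul_self_sqrt (by norm_num)

theorem re_eq (x : ℂ) : x.re = Real.sqrt 3 * (ts x + tt x / 2) := by
  have := s3
  unfold ts tt
  field_simp
  ring

theorem im_eq (x : ℂ) : x.im = 3 / 2 * tt x := by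
  unfold tt
  ring

theorem ts_lat (i j : ℤ) : ts (lat i j) = i := by
  have := s3
  unfold ts lat
  field_simp
  ring

theorem tt_lat (i j : ℤ) : tt (lat i j) = j := by
  unfold tt lat
  ring

theorem ts_sub (x y : ℂ) : ts (x - y) = ts x - ts y := by
  unfold ts
  rw [Complex.sub_re, Complex.sub_im]
  ring

theorem tt_sub (x y : ℂ) : tt (x - y) = tt x - tt y := by
  unfold tt
  rw [Complex.sub_im]
  ring

theorem mem_cell (x : ℂ) : x ∈ Cell ↔ 0 ≤ ts x ∧ ts x < 1 ∧ 0 ≤ tt x ∧ tt x < 1 := by
  have h0 := s3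
  constructor
  · rintro ⟨s, t, h1, h2, h3, h4, rfl⟩
    have e1 : ts ((s : ℂ) * lat 1 0 + (t : ℂ) * lat 0 1) = s := by
      simp only [ts, lat, Complex.add_re, Complex.mul_re, Complex.ofReal_re, Complex.ofReal_im,
        Complex.add_im, Complex.mul_im]
      push_cast
      field_simp
      ring
    have e2 : tt ((s : ℂ) * lat 1 0 + (t : ℂ) * lat 0 1) = t := by
      simp only [tt, lat, Complex.ofReal_re, Complex.ofReal_im,
        Complex.add_im, Complex.mul_im]
      push_cast
      ring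
    rw [e1, e2]
    exact ⟨h1, h2, h3, h4⟩
  · rintro ⟨h1, h2, h3, h4⟩
    refine ⟨ts x, tt x, h1, h2, h3, h4, ?_⟩
    apply Complex.ext
    · simp only [lat, Complex.add_re, Complex.mul_re, Complex.ofReal_re, Complex.ofReal_im]
      rw [re_eq x]
      push_cast
      ring
    · simp only [lat, Complex.add_im, Complex.mul_im, Complex.ofReal_re, Complex.ofReal_im]
      rw [im_eq x]
      push_cast
      ring

theorem meas_ts : Measurable ts := by unfold ts; fun_prop
theorem meas_tt : Measurable tt := by unfold tt; fun_prop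

theorem measCell : MeasurableSet Cell := by
  have : Cell = {x | 0 ≤ ts x} ∩ ({x | ts x < 1} ∩ ({x | 0 ≤ tt x} ∩ {x | tt x < 1})) := by
    ext x
    rw [mem_cell]
    rfl
  rw [this]
  exact (measurableSet_le measurable_const meas_ts).inter
    ((measurableSet_lt meas_ts measurable_const).inter
      ((measurableSet_le measurable_const meas_tt).inter
        (measurableSet_lt meas_tt measurable_const)))

def P (p : ℤ × ℤ) : Set ℂ := (fun x => x - lat p.1 p.2) ⁻¹' Cell

theorem mem_P (p : ℤ × ℤ) (x : ℂ) : x ∈ P p ↔ ⌊ts x⌋ = p.1 ∧ ⌊tt x⌋ = p.2 := by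
  unfold P
  rw [mem_preimage, mem_cell, Int.floor_eq_iff, Int.floor_eq_iff, ts_sub, tt_sub, ts_lat, tt_lat]
  constructor
  · rintro ⟨h1, h2, h3, h4⟩
    exact ⟨⟨by linarith, by linarith⟩, ⟨by linarith, by linarith⟩⟩
  · rintro ⟨⟨h1, h2⟩, ⟨h3, h4⟩⟩
    exact ⟨by linarith, by linarith, by linarith, by linarith⟩

theorem measP (p : ℤ × ℤ) : MeasurableSet (P p) :=
  measCell.preimage (by fun_prop)

theorem vol_P (p : ℤ × ℤ) : volume (P p) = volume Cell := by
  have := measure_preimage_add_right (volume : Measure ℂ) (-lat p.1 p.2) Cell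
  simp only [← sub_eq_add_neg] at this
  exact this

theorem period (i j : ℤ) (x : ℂ) :
    Metric.infDist (x - lat i j) Lat = Metric.infDist x Lat := by
  have h1 : (fun y => y - lat i j) '' Lat = Lat := by
    ext y
    constructor
    · rintro ⟨_, ⟨k, l, rfl⟩, rfl⟩
      refine ⟨k - i, l - j, ?_⟩
      apply Complex.ext
      · simp only [lat, Complex.sub_re]
        push_cast
        ring
      · simp only [lat, Complex.sub_im]
        push_cast
        ring
    · rintro ⟨k, l, rfl⟩
      refine ⟨lat (k + i) (l + j), ⟨_, _, rfl⟩, ?_⟩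
      apply Complex.ext
      · simp only [lat, Complex.sub_re]
        push_cast
        ring
      · simp only [lat, Complex.sub_im]
        push_cast
        ring
  have h2 : Isometry (fun y : ℂ => y - lat i j) := (IsometryEquiv.subRight (lat i j)).isometry
  have h3 := Metric.infDist_image (x := x) (t := Lat) h2
  rw [h1] at h3
  exact h3

theorem int_P (p : ℤ × ℤ) :
    ∫ x in P p, Metric.infDist x Lat = ∫ x in Cell, Metric.infDist x Lat := by
  rw [← integral_indicator (measP p), ← integral_indicator measCell]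
  have h1 : (P p).indicator (fun x => Metric.infDist x Lat) =
      fun x => (Cell.indicator (fun x => Metric.infDist x Lat)) (x - lat p.1 p.2) := by
    funext x
    by_cases h : x - lat p.1 p.2 ∈ Cell
    · rw [indicator_of_mem (show x ∈ P p from h), indicator_of_mem h, period]
    · rw [indicator_of_notMem (show x ∉ P p from h), indicator_of_notMem h]
  rw [h1]
  exact integral_sub_right_eq_self _ _

theorem diam_P (p : ℤ × ℤ) (x y : ℂ) (hx : x ∈ P p) (hy : y ∈ P p) : ‖x - y‖ ≤ 3 := by
  have hx' := (mem_cell _).1 (show x - lat p.1 p.2 ∈ Cell from hx)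
  have hy' := (mem_cell _).1 (show y - lat p.1 p.2 ∈ Cell from hy)
  rw [ts_sub, tt_sub] at hx' hy'
  obtain ⟨a1, a2, a3, a4⟩ := hx'
  obtain ⟨b1, b2, b3, b4⟩ := hy'
  have h1 : ‖x - y‖ ^ 2 = 3 * ((ts x - ts y) ^ 2 + (ts x - ts y) * (tt x - tt y) +
      (tt x - tt y) ^ 2) := by
    rw [Complex.sq_norm, Complex.normSq_apply, re_eq (x - y), im_eq (x - y), ts_sub, tt_sub]
    have := s3sq
    calc _ = (Real.sqrt 3 * Real.sqrt 3) * (ts x - ts y + (tt x - tt y) / 2) ^ 2 +
        9 / 4 * (tt x - tt y) ^ 2 := by ring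
      _ = _ := by rw [this]; ring
  set u := ts x - ts y with hu
  set w := tt x - tt y with hw
  have u1 : -1 ≤ u := by linarith
  have u2 : u ≤ 1 := by linarith
  have w1 : -1 ≤ w := by linarith
  have w2 : w ≤ 1 := by linarith
  have h2 : ‖x - y‖ ^ 2 ≤ 3 ^ 2 := by
    rw [h1]
    nlinarith [mul_nonneg (sub_nonneg.2 u2) (sub_nonneg.2 w2), sq_nonneg u, sq_nonneg w,
      mul_nonneg (sub_nonneg.2 u2) (by linarith : (0 : ℝ) ≤ u + 1),
      mul_nonneg (sub_nonneg.2 w2) (by linarith : (0 : ℝ) ≤ w + 1),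
      mul_nonneg (by linarith : (0 : ℝ) ≤ u + 1) (by linarith : (0 : ℝ) ≤ w + 1),
      mul_nonneg (by linarith : (0 : ℝ) ≤ u + 1) (sub_nonneg.2 w2),
      mul_nonneg (sub_nonneg.2 u2) (by linarith : (0 : ℝ) ≤ w + 1)]
  exact (abs_le_of_sq_le_sq' h2 (by norm_num)).2

theorem c0_pos : 0 < c0 := by
  unfold c0
  have : 0 < Real.log 3 := Real.log_pos (by norm_num)
  positivity

end LTile

open LTile

theorem LTile : TaskLTile := by
  rintro ⟨hI, hV⟩ r hr
  set N : ℤ := ⌈2 * r⌉ + 1 with hN
  have hNr : 2 * r + 1 ≤ N := by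
    rw [hN]
    push_cast
    have := Int.le_ceil (2 * r)
    linarith
  classical
  set A : Finset (ℤ × ℤ) := ((Finset.Icc (-N) N) ×ˢ (Finset.Icc (-N) N)).filter
    (fun p => P p ⊆ Metric.ball (0 : ℂ) r) with hA
  have hsub : Metric.ball (0 : ℂ) (r - 3) ⊆ ⋃ p ∈ A, P p := by
    intro x hx
    rw [mem_ball_zero_iff] at hx
    have hxP : x ∈ P (⌊ts x⌋, ⌊tt x⌋) := (mem_P _ _).2 ⟨rfl, rfl⟩
    have hre := Complex.abs_re_le_norm x
    have him := Complex.abs_im_le_norm x
    have h3 : 1 ≤ Real.sqrt 3 := by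
      rw [Real.one_le_sqrt]
      norm_num
    have h4 : |x.re / Real.sqrt 3| ≤ |x.re| := by
      rw [abs_div, abs_of_pos s3]
      exact div_le_self (abs_nonneg _) h3
    have h5 : |ts x| ≤ 2 * r := by
      unfold ts
      have h6 := abs_sub (x.re / Real.sqrt 3) (x.im / 3)
      have h7 : |x.im / 3| ≤ |x.im| := by
        rw [abs_div, abs_of_pos (by norm_num : (0 : ℝ) < 3)]
        exact div_le_self (abs_nonneg _) (by norm_num)
      linarith
    have h6 : |tt x| ≤ 2 * r := by
      unfold tt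
      rw [abs_mul, abs_of_pos (by norm_num : (0 : ℝ) < 2 / 3)]
      have := abs_nonneg x.im
      linarith
    have key : ∀ y : ℝ, |y| ≤ 2 * r → ⌊y⌋ ∈ Finset.Icc (-N) N := by
      intro y hy
      rw [abs_le] at hy
      rw [Finset.mem_Icc]
      constructor
      · rw [Int.le_floor]
        push_cast
        linarith
      · have h7 : (⌊y⌋ : ℝ) ≤ N := (Int.floor_le y).trans (by linarith)
        exact_mod_cast h7
    rw [mem_iUnion₂]
    refine ⟨(⌊ts x⌋, ⌊tt x⌋), ?_, hxP⟩
    rw [hA, Finset.mem_filter, Finset.mem_product]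
    refine ⟨⟨key _ h5, key _ h6⟩, ?_⟩
    intro y hy
    rw [mem_ball_zero_iff]
    have h8 := diam_P _ y x hy hxP
    have h9 : ‖y‖ ≤ ‖y - x‖ + ‖x‖ := by
      have := norm_add_le (y - x) x
      rwa [sub_add_cancel] at this
    linarith
  have hsub2 : (⋃ p ∈ A, P p) ⊆ Metric.ball (0 : ℂ) r := by
    apply iUnion₂_subset
    intro p hp
    exact (Finset.mem_filter.1 hp).2
  have hint : IntegrableOn (fun x : ℂ => Metric.infDist x Lat) (Metric.ball (0 : ℂ) r) := by
    apply IntegrableOn.mono_set _ Metric.ball_subset_closedBall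
    exact (Metric.continuous_infDist_pt Lat).continuousOn.integrableOn_compact
      (isCompact_closedBall _ _)
  have hvol : Real.pi * (r - 3) ^ 2 ≤ A.card * (3 * Real.sqrt 3 / 2) := by
    have h1 : volume (Metric.ball (0 : ℂ) (r - 3)) ≤
        ∑ p ∈ A, volume (P p) := (measure_mono hsub).trans (measure_biUnion_finset_le _ _)
    rw [Finset.sum_congr rfl (fun p _ => (vol_P p).trans hV), Finset.sum_const, nsmul_eq_mul,
      Complex.volume_ball] at h1
    have h2 := ENNReal.toReal_mono (by
      exact ENNReal.mul_ne_top (ENNReal.natCast_ne_top _) ENNReal.ofReal_ne_top) h1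
    rw [ENNReal.toReal_mul, ENNReal.toReal_mul, ENNReal.toReal_pow,
      ENNReal.toReal_ofReal (by linarith), ENNReal.toReal_ofReal (by positivity)] at h2
    simp only [ENNReal.toReal_natCast, ENNReal.coe_toReal, NNReal.coe_real_pi] at h2
    linarith
  have hsum : ∫ x in ⋃ p ∈ A, P p, Metric.infDist x Lat =
      A.card * ∫ x in Cell, Metric.infDist x Lat := by
    rw [integral_biUnion_finset A (fun p _ => measP p)]
    · rw [Finset.sum_congr rfl (fun p _ => int_P p), Finset.sum_const, nsmul_eq_mul]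
    · intro p _ q _ hpq
      rw [Function.onFun, Set.disjoint_left]
      intro x hx hx'
      rw [mem_P] at hx hx'
      exact hpq (Prod.ext (hx.1.symm.trans hx'.1) (hx.2.symm.trans hx'.2))
    · intro p hp
      exact hint.mono_set (Finset.mem_filter.1 hp).2
  calc c0 * (Real.pi * (r - 3) ^ 2) ≤ c0 * (A.card * (3 * Real.sqrt 3 / 2)) :=
        mul_le_mul_of_nonneg_left hvol c0_pos.le
    _ = A.card * (c0 * (3 * Real.sqrt 3 / 2)) := by ring
    _ ≤ A.card * ∫ x in Cell, Metric.infDist x Lat :=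
        mul_le_mul_of_nonneg_left hI (Nat.cast_nonneg _)
    _ = ∫ x in ⋃ p ∈ A, P p, Metric.infDist x Lat := hsum.symm
    _ ≤ ∫ x in Metric.ball (0 : ℂ) r, Metric.infDist x Lat := by
        apply setIntegral_mono_set hint
        · exact Filter.Eventually.of_forall (fun _ => Metric.infDist_nonneg)
        · exact hsub2.eventuallyLE

end

end Q126.MD
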