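import Pool.Agent.Q126.MD.Stmts2

namespace Q126.MD

open MeasureTheory Set Filter Topology

theorem Limit : TaskLimit := by
  intro hS hM Ω B ρ ho hb hB hρ hρB hin
  have hc0 : 0 < c0 := by
    unfold c0
    have h3 : 0 ≤ Real.log 3 := Real.log_nonneg (by norm_num)
    positivity
  have hη : 0 < c0 * ρ / 2 := by positivity
  have h1 : ∀ n : ℕ, 12 < n → ∫ x in Ω, Metric.infDist x Ωᶜ ≤
      max (c0 * ρ / 2) (c0 * ρ / (1 - 12 / n)) * (volume Ω).toReal := by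
    intro n hn
    have ht : Tendsto (fun δ : ℝ => max (c0 * ρ / 2 + δ) (c0 * (ρ + δ) / (1 - 12 / n) + δ) *
        (volume Ω).toReal) (𝓝[>] 0)
        (𝓝 (max (c0 * ρ / 2) (c0 * ρ / (1 - 12 / n)) * (volume Ω).toReal)) := by
      have h2 : Continuous (fun δ : ℝ => max (c0 * ρ / 2 + δ)
          (c0 * (ρ + δ) / (1 - 12 / n) + δ) * (volume Ω).toReal) := by fun_prop
      have h3 := h2.tendsto 0
      simp only [add_zero] at h3
      exact h3.mono_left nhdsWithin_le_nhds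
    refine ge_of_tendsto ht ?_
    have e1 : ∀ᶠ δ : ℝ in 𝓝[>] 0, 0 < δ := self_mem_nhdsWithin
    have e2 : ∀ᶠ δ : ℝ in 𝓝[>] 0, δ < 1 := nhdsWithin_le_nhds (Iio_mem_nhds one_pos)
    have e3 : ∀ᶠ δ : ℝ in 𝓝[>] 0, 4 * n * Real.sqrt (2 * (ρ + δ) * δ) < c0 * ρ / 2 := by
      have h2 : Continuous (fun δ : ℝ => 4 * n * Real.sqrt (2 * (ρ + δ) * δ)) := by fun_prop
      have h3 := h2.tendsto 0
      simp only [mul_zero, Real.sqrt_zero] at h3
      exact (h3.mono_left nhdsWithin_le_nhds).eventually (gt_mem_nhds hη)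
    filter_upwards [e1, e2, e3] with δ h1 h2 h3
    obtain ⟨S, hS'⟩ := hS Ω B ρ δ ho hb hB hρ hρB hin h1 h2
    exact hM Ω B ρ δ (c0 * ρ / 2) S n hS' hn hη h3.le
  have ht : Tendsto (fun n : ℕ => max (c0 * ρ / 2) (c0 * ρ / (1 - 12 / (n : ℝ))) *
      (volume Ω).toReal) atTop (𝓝 (c0 * ρ * (volume Ω).toReal)) := by
    have h2 : Tendsto (fun n : ℕ => 12 / (n : ℝ)) atTop (𝓝 0) :=
      tendsto_const_div_atTop_nhds_zero_nat 12
    have h3 : Tendsto (fun n : ℕ => c0 * ρ / (1 - 12 / (n : ℝ))) atTop (𝓝 (c0 * ρ / (1 - 0))) :=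
      tendsto_const_nhds.div (tendsto_const_nhds.sub h2) (by norm_num)
    have h4 : Tendsto (fun n : ℕ => max (c0 * ρ / 2) (c0 * ρ / (1 - 12 / (n : ℝ)))) atTop
        (𝓝 (max (c0 * ρ / 2) (c0 * ρ / (1 - 0)))) := tendsto_const_nhds.max h3
    rw [sub_zero, div_one, max_eq_right (by linarith)] at h4
    exact h4.mul_const _
  exact ge_of_tendsto ht ((eventually_gt_atTop 12).mono fun n hn => h1 n hn)

end Q126.MD
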