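import Pool.Agent.Q126.MD.Stmts

namespace Q126.MD

open MeasureTheory Set

theorem net_step (S : Finset ℂ) (hS : GP S) (c : ℂ) {ε : ℝ} (hε : 0 < ε) :
    ∃ p : ℂ, ‖p - c‖ < ε ∧ GP (insert p S) := by
  classical
  let SS : Set (EuclideanGeometry.Sphere ℂ) := {s | ∃ t : ℂ × ℂ × ℂ, t ∈ S ×ˢ S ×ˢ S ∧
    t.1 ≠ t.2.1 ∧ t.1 ≠ t.2.2 ∧ t.2.1 ≠ t.2.2 ∧ t.1 ∈ s ∧ t.2.1 ∈ s ∧ t.2.2 ∈ s}
  have hfin : SS.Finite := by
    have key : ∀ s ∈ SS, ∃ t : ℂ × ℂ × ℂ, t ∈ S ×ˢ S ×ˢ S ∧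
      t.1 ≠ t.2.1 ∧ t.1 ≠ t.2.2 ∧ t.2.1 ≠ t.2.2 ∧ t.1 ∈ s ∧ t.2.1 ∈ s ∧ t.2.2 ∈ s := fun s hs => hs
    choose! f hf using key
    refine Set.Finite.of_finite_image (f := f) ((S ×ˢ S ×ˢ S).finite_toSet.subset ?_) ?_
    · rintro _ ⟨s, hs, rfl⟩
      exact (hf s hs).1
    · intro s hs s' hs' h
      by_contra hne
      obtain ⟨-, h1, h2, h3, h4, h5, h6⟩ := hf s hs
      obtain ⟨-, -, -, -, h7, h8, h9⟩ := hf s' hs'
      rw [← h] at h7 h8 h9
      rcases EuclideanGeometry.eq_of_mem_sphere_of_mem_sphere_of_finrank_eq_two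
        Complex.finrank_real_complex hne h1 h4 h5 h6 h7 h8 h9 with h10 | h10
      · exact h2 h10.symm
      · exact h3 h10.symm
  have hnull : volume (⋃ s ∈ SS, Metric.sphere s.center s.radius) = 0 :=
    (measure_biUnion_null_iff hfin.countable).2 fun s _ => Measure.addHaar_sphere _ _ _
  obtain ⟨p, hp1, hp2⟩ : ∃ p, p ∈ Metric.ball c ε ∧ p ∉ ⋃ s ∈ SS, Metric.sphere s.center s.radius := by
    by_contra hcon
    push Not at hcon
    have h1 : volume (Metric.ball c ε) = 0 := measure_mono_null hcon hnull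
    exact (Metric.measure_ball_pos volume c hε).ne' h1
  refine ⟨p, by rwa [mem_ball_iff_norm] at hp1, fun z R => ?_⟩
  rw [Finset.filter_insert]
  split_ifs with hp
  · refine (Finset.card_insert_le _ _).trans ?_
    by_contra hcon
    have h1 := hS z R
    have h2 : (S.filter fun s => ‖s - z‖ = R).card = 3 := by omega
    obtain ⟨a, b, e, hab, hae, hbe, h3⟩ := Finset.card_eq_three.1 h2
    have ha : a ∈ S.filter fun s => ‖s - z‖ = R := by rw [h3]; simp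
    have hb : b ∈ S.filter fun s => ‖s - z‖ = R := by rw [h3]; simp
    have he : e ∈ S.filter fun s => ‖s - z‖ = R := by rw [h3]; simp
    rw [Finset.mem_filter] at ha hb he
    apply hp2
    refine Set.mem_iUnion₂.2 ⟨(⟨z, R⟩ : EuclideanGeometry.Sphere ℂ), ⟨(a, b, e), ?_, hab, hae, hbe,
      ?_, ?_, ?_⟩, ?_⟩
    · exact Finset.mem_product.2 ⟨ha.1, Finset.mem_product.2 ⟨hb.1, he.1⟩⟩
    · rw [EuclideanGeometry.mem_sphere, dist_eq_norm]
      exact ha.2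
    · rw [EuclideanGeometry.mem_sphere, dist_eq_norm]
      exact hb.2
    · rw [EuclideanGeometry.mem_sphere, dist_eq_norm]
      exact he.2
    · rw [mem_sphere_iff_norm]
      exact hp
  · exact hS z R

theorem net_ind {ε : ℝ} (hε : 0 < ε) (C : Finset ℂ) : ∃ S : Finset ℂ, GP S ∧
    (∀ s ∈ S, ∃ c ∈ C, ‖s - c‖ < ε) ∧ ∀ c ∈ C, ∃ s ∈ S, ‖s - c‖ < ε := by
  classical
  induction C using Finset.induction_on with
  | empty => exact ⟨∅, fun z R => by simp, by simp, by simp⟩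
  | insert c C hc ih =>
    obtain ⟨S, hS1, hS2, hS3⟩ := ih
    obtain ⟨p, hp1, hp2⟩ := net_step S hS1 c hε
    refine ⟨insert p S, hp2, fun s hs => ?_, fun c' hc' => ?_⟩
    · rcases Finset.mem_insert.1 hs with rfl | hs
      · exact ⟨c, Finset.mem_insert_self _ _, hp1⟩
      · obtain ⟨c', h1, h2⟩ := hS2 s hs
        exact ⟨c', Finset.mem_insert_of_mem h1, h2⟩
    · rcases Finset.mem_insert.1 hc' with rfl | hc'
      · exact ⟨p, Finset.mem_insert_self _ _, hp1⟩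
      · obtain ⟨s, h1, h2⟩ := hS3 c' hc'
        exact ⟨s, Finset.mem_insert_of_mem h1, h2⟩

theorem Net : TaskNet := by
  intro K δ hK hδ
  obtain ⟨t, ht1, ht2, ht3⟩ := hK.finite_cover_balls (half_pos hδ)
  obtain ⟨S, hS1, hS2, hS3⟩ := net_ind (half_pos hδ) ht2.toFinset
  refine ⟨S, hS1, fun s hs => ?_, fun y hy => ?_⟩
  · obtain ⟨c, hc, h⟩ := hS2 s hs
    exact ⟨c, ht1 (ht2.mem_toFinset.1 hc), by linarith⟩
  · obtain ⟨c, hc, h⟩ := Set.mem_iUnion₂.1 (ht3 hy)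
    obtain ⟨s, hs, h'⟩ := hS3 c (ht2.mem_toFinset.2 hc)
    rw [mem_ball_iff_norm] at h
    refine ⟨s, hs, ?_⟩
    have h1 : y - s = (y - c) - (s - c) := by ring
    rw [h1]
    calc ‖(y - c) - (s - c)‖ ≤ ‖y - c‖ + ‖s - c‖ := norm_sub_le _ _
      _ < δ := by linarith

end Q126.MD
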