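import Mathlib
import Pool.Agent.Q126.MD.Stmts

set_option autoImplicit false

namespace Q126.MD

open MeasureTheory Set

theorem null_ne_top (a b : ℂ) : affineSpan ℝ ({a, b} : Set ℂ) ≠ ⊤ := by
  intro h
  have h1 : (affineSpan ℝ ({a, b} : Set ℂ)).direction = ⊤ := by
    rw [h, AffineSubspace.direction_top]
  rw [direction_affineSpan] at h1
  have h2 := collinear_iff_finrank_le_one.1 (collinear_pair ℝ a b)
  rw [h1, finrank_top, Complex.finrank_real_complex] at h2
  omega

theorem Null : TaskNull := by
  intro S
  unfold Off
  refine (ae_ball_iff S.countable_toSet).2 ?_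
  intro a _
  refine (ae_ball_iff S.countable_toSet).2 ?_
  intro b _
  exact measure_eq_zero_iff_ae_notMem.1
    (Measure.addHaar_affineSubspace volume (affineSpan ℝ ({a, b} : Set ℂ)) (null_ne_top a b))

end Q126.MD
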