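import Pool.Agent.Q126.MD.Stmts

set_option autoImplicit false

namespace Q126.MD

open MeasureTheory Set

namespace ObtuseAux

theorem c0_pos : 0 < c0 := by
  unfold c0
  have : 0 < Real.log 3 := Real.log_pos (by norm_num)
  positivity

theorem good_mono {a b c : ℂ} {r R : ℝ} (h : Good a b c r) (hr : r ≤ R) : Good a b c R := by
  unfold Good at h ⊢
  refine h.trans ?_
  exact mul_le_mul_of_nonneg_right (mul_le_mul_of_nonneg_left hr c0_pos.le) ENNReal.toReal_nonneg

theorem T_rot (a b c : ℂ) : T c a b = T a b c := by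
  unfold T
  congr 1
  ext x
  simp only [mem_insert_iff, mem_singleton_iff]
  tauto

theorem m3_rot (a b c x : ℂ) : m3 c a b x = m3 a b c x := by
  unfold m3
  rw [min_comm, min_assoc]

theorem good_rot {a b c : ℂ} {r : ℝ} (h : Good c a b r) : Good a b c r := by
  unfold Good at h ⊢
  rw [T_rot] at h
  have e : (fun x => m3 a b c x) = fun x => m3 c a b x := funext fun x => (m3_rot a b c x).symm
  rw [show (∫ x in T a b c, m3 a b c x) = ∫ x in T a b c, m3 c a b x by rw [e]]
  exact h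

theorem m3_iso (u w a b c x : ℂ) (hu : ‖u‖ = 1) :
    m3 (u * a + w) (u * b + w) (u * c + w) (u * x + w) = m3 a b c x := by
  have h : ∀ a : ℂ, ‖(u * x + w) - (u * a + w)‖ = ‖x - a‖ := by
    intro a
    rw [show (u * x + w) - (u * a + w) = u * (x - a) by ring, norm_mul, hu, one_mul]
  unfold m3
  rw [h, h, h]

theorem good_iso (H : TaskIso) {u w a b c : ℂ} {r : ℝ} (hu : ‖u‖ = 1)
    (h : Good (u * a + w) (u * b + w) (u * c + w) r) : Good a b c r := by
  obtain ⟨h1, h2, h3, -⟩ := H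
  unfold Good at h ⊢
  rw [h3, h2 u w _ hu, h1 u w _ _ hu] at h
  refine le_trans (le_of_eq ?_) h
  congr 1
  funext x
  exact (m3_iso u w a b c x hu).symm

end ObtuseAux

open ObtuseAux in
theorem Obtuse : TaskObtuse := by
  intro hI hN z R θ α β γ hR hα hβ hγ hs
  have hαβ : α + β < Real.pi / 2 := by linarith
  have hsa : 0 < Real.sin α := Real.sin_pos_of_pos_of_lt_pi hα (by linarith [Real.pi_pos])
  have hsb : 0 < Real.sin β := Real.sin_pos_of_pos_of_lt_pi hβ (by linarith [Real.pi_pos])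
  have hca : 0 < Real.cos α := Real.cos_pos_of_mem_Ioo ⟨by linarith [Real.pi_pos], by linarith⟩
  have hcb : 0 < Real.cos β := Real.cos_pos_of_mem_Ioo ⟨by linarith [Real.pi_pos], by linarith⟩
  have hcd : 0 < Real.cos (α + β) := Real.cos_pos_of_mem_Ioo ⟨by linarith [Real.pi_pos], by linarith⟩
  set u₁ : ℝ := R * (Real.sin (α + β) - Real.sin (α - β)) with hu₁
  set u₂ : ℝ := R * (Real.sin (α + β) + Real.sin (α - β)) with hu₂
  set v : ℝ := R * (Real.cos (α - β) - Real.cos (α + β)) with hv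
  have e1 : u₁ = 2 * R * (Real.cos α * Real.sin β) := by
    rw [hu₁, Real.sin_add, Real.sin_sub]; ring
  have e2 : u₂ = 2 * R * (Real.sin α * Real.cos β) := by
    rw [hu₂, Real.sin_add, Real.sin_sub]; ring
  have e3 : v = 2 * R * (Real.sin α * Real.sin β) := by
    rw [hv, Real.cos_add, Real.cos_sub]; ring
  have p1 : 0 < u₁ := by rw [e1]; positivity
  have p2 : 0 < u₂ := by rw [e2]; positivity
  have p3 : 0 < v := by rw [e3]; positivity
  have hvu : v ^ 2 ≤ u₁ * u₂ := by
    have h0 : Real.sin α * Real.sin β ≤ Real.cos α * Real.cos β := by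
      rw [Real.cos_add] at hcd; linarith
    have h1 : u₁ * u₂ - v ^ 2 = 4 * R ^ 2 * (Real.sin α * Real.sin β) *
        (Real.cos α * Real.cos β - Real.sin α * Real.sin β) := by
      rw [e1, e2, e3]; ring
    have h2 : 0 ≤ u₁ * u₂ - v ^ 2 := by
      rw [h1]
      exact mul_nonneg (by positivity) (by linarith)
    linarith
  have hg := hN u₁ u₂ v p1 p2 p3 hvu
  set φ : ℝ := θ + α + β with hφ
  set U : ℂ := Complex.I * Complex.exp (((-φ : ℝ) : ℂ) * Complex.I) with hU
  have hU1 : ‖U‖ = 1 := by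
    rw [hU, norm_mul, Complex.norm_exp_ofReal_mul_I, Complex.norm_I, one_mul]
  set w : ℂ := -U * z + ((R * Real.sin (α - β) : ℝ) : ℂ) - ((R * Real.cos (α + β) : ℝ) : ℂ) * Complex.I
    with hw
  have key : ∀ ψ : ℝ, U * pt z R ψ + w = ((R * (Real.sin (α - β) - Real.sin (ψ - φ)) : ℝ) : ℂ) +
      ((R * (Real.cos (ψ - φ) - Real.cos (α + β)) : ℝ) : ℂ) * Complex.I := by
    intro ψ
    have h1 : Complex.exp (((-φ : ℝ) : ℂ) * Complex.I) * Complex.exp ((ψ : ℂ) * Complex.I) =
        ((Real.cos (ψ - φ) : ℝ) : ℂ) + ((Real.sin (ψ - φ) : ℝ) : ℂ) * Complex.I := by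
      rw [← Complex.exp_add, ← add_mul, ← Complex.ofReal_add, show -φ + ψ = ψ - φ by ring,
        Complex.exp_mul_I, Complex.ofReal_cos, Complex.ofReal_sin]
    unfold pt
    have h2 : U * (z + (R : ℂ) * Complex.exp ((ψ : ℂ) * Complex.I)) + w =
        (R : ℂ) * Complex.I * (Complex.exp (((-φ : ℝ) : ℂ) * Complex.I) *
          Complex.exp ((ψ : ℂ) * Complex.I)) + ((R * Real.sin (α - β) : ℝ) : ℂ) -
          ((R * Real.cos (α + β) : ℝ) : ℂ) * Complex.I := by
      rw [hw, hU]; ring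
    rw [h2, h1]
    push_cast
    linear_combination (-(R : ℂ) * Complex.sin (ψ - φ) + (R : ℂ) * Complex.sin (ψ - φ) * 1) * 0 +
      (R : ℂ) * Complex.sin (ψ - φ) * Complex.I_mul_I
  have ka : U * pt z R θ + w = (u₂ : ℂ) := by
    rw [key, show θ - φ = -(α + β) by rw [hφ]; ring, Real.sin_neg, Real.cos_neg, sub_self, mul_zero,
      Complex.ofReal_zero, zero_mul, add_zero, hu₂]
    congr 1; ring
  have kb : U * pt z R (θ + 2 * α) + w = (v : ℂ) * Complex.I := by
    rw [key, show θ + 2 * α - φ = α - β by rw [hφ]; ring, sub_self, mul_zero, Complex.ofReal_zero,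
      zero_add, hv]
  have kc : U * pt z R (θ + 2 * α + 2 * β) + w = -(u₁ : ℂ) := by
    rw [key, show θ + 2 * α + 2 * β - φ = α + β by rw [hφ]; ring, sub_self, mul_zero,
      Complex.ofReal_zero, zero_mul, add_zero, ← Complex.ofReal_neg, hu₁]
    congr 1; ring
  have hle : (u₁ + u₂) / 2 ≤ R := by
    have : (u₁ + u₂) / 2 = R * Real.sin (α + β) := by rw [hu₁, hu₂]; ring
    rw [this]
    have := mul_le_mul_of_nonneg_left (Real.sin_le_one (α + β)) hR.le
    linarith
  refine good_rot (good_iso hI (u := U) (w := w) hU1 ?_)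
  rw [ka, kb, kc]
  exact good_mono hg hle

end Q126.MD
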