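import Pool.Agent.Q126.MD.Stmts

namespace Q126.MD

namespace ObtuseNormalAux

theorem good_rot {a b c : ℂ} {r : ℝ} (h : Good a b c r) : Good c a b r := by
  have hT : T c a b = T a b c := by
    unfold T
    congr 1
    ext x
    simp only [Set.mem_insert_iff, Set.mem_singleton_iff]
    tauto
  have hm : m3 c a b = m3 a b c := by
    funext x
    unfold m3
    rw [min_comm, min_assoc]
  unfold Good at h ⊢
  rw [hT, hm]
  exact h

theorem pt_eq (z : ℂ) (R θ : ℝ) :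
    pt z R θ = z + ((R * Real.cos θ : ℝ) : ℂ) + ((R * Real.sin θ : ℝ) : ℂ) * Complex.I := by
  unfold pt
  rw [Complex.exp_mul_I]
  push_cast
  ring

end ObtuseNormalAux

open ObtuseNormalAux in
theorem ObtuseNormal : TaskObtuseNormal := by
  intro hS _ hA u₁ u₂ v h1 h2 hv hle
  have hwv : v ≤ Real.sqrt (u₁ * u₂) := Real.le_sqrt_of_sq_le hle
  have hl : 1 ≤ Real.sqrt (u₁ * u₂) / v := (one_le_div hv).2 hwv
  have hlv : Real.sqrt (u₁ * u₂) / v * v = Real.sqrt (u₁ * u₂) := div_mul_cancel₀ _ hv.ne'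
  apply hS u₁ u₂ v (Real.sqrt (u₁ * u₂) / v) _ hv hl (by positivity)
  rw [hlv]
  have hs : 0 < u₁ + u₂ := by linarith
  obtain ⟨c, hc⟩ : ∃ c : ℝ, c = (u₁ - u₂) / (u₁ + u₂) := ⟨_, rfl⟩
  have hc1 : c < 1 := by
    rw [hc, div_lt_one hs]
    linarith
  have hc2 : -1 < c := by
    rw [hc, lt_div_iff₀ hs]
    linarith
  have hcos : Real.cos (Real.arccos c) = c := Real.cos_arccos hc2.le hc1.le
  have hsin : Real.sin (Real.arccos c) = 2 * Real.sqrt (u₁ * u₂) / (u₁ + u₂) := by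
    rw [Real.sin_arccos]
    have e : 1 - c ^ 2 = (2 * Real.sqrt (u₁ * u₂) / (u₁ + u₂)) ^ 2 := by
      rw [div_pow, mul_pow, Real.sq_sqrt (by positivity), hc]
      field_simp
      ring
    rw [e, Real.sqrt_sq (by positivity)]
  have hpos : 0 < Real.arccos c := Real.arccos_pos.2 hc1
  have hlt : Real.arccos c < Real.pi := by
    rcases lt_or_eq_of_le (Real.arccos_le_pi c) with h | h
    · exact h
    · rw [Real.arccos_eq_pi] at h
      linarith
  have hpi := Real.pi_pos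
  have h3 := hA (((u₂ - u₁) / 2 : ℝ) : ℂ) ((u₁ + u₂) / 2) 0 (Real.arccos c / 2)
    (Real.pi / 2 - Real.arccos c / 2) (Real.pi / 2) (by linarith) (by linarith) (by linarith)
    (by linarith) (by linarith) (by linarith) (by linarith) (by ring)
  have e1 : pt (((u₂ - u₁) / 2 : ℝ) : ℂ) ((u₁ + u₂) / 2) 0 = (u₂ : ℂ) := by
    rw [pt_eq, Real.cos_zero, Real.sin_zero]
    push_cast
    ring
  have e2 : pt (((u₂ - u₁) / 2 : ℝ) : ℂ) ((u₁ + u₂) / 2) (0 + 2 * (Real.arccos c / 2)) =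
      (Real.sqrt (u₁ * u₂) : ℂ) * Complex.I := by
    rw [pt_eq, show 0 + 2 * (Real.arccos c / 2) = Real.arccos c by ring, hcos, hsin]
    have e : (u₁ + u₂) / 2 * c = (u₁ - u₂) / 2 := by
      rw [hc]
      field_simp
    have e' : (u₁ + u₂) / 2 * (2 * Real.sqrt (u₁ * u₂) / (u₁ + u₂)) = Real.sqrt (u₁ * u₂) := by
      field_simp
    rw [e, e']
    push_cast
    ring
  have e3 : pt (((u₂ - u₁) / 2 : ℝ) : ℂ) ((u₁ + u₂) / 2)
      (0 + 2 * (Real.arccos c / 2) + 2 * (Real.pi / 2 - Real.arccos c / 2)) = (-u₁ : ℂ) := by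
    rw [pt_eq, show 0 + 2 * (Real.arccos c / 2) + 2 * (Real.pi / 2 - Real.arccos c / 2) =
      Real.pi by ring, Real.cos_pi, Real.sin_pi]
    push_cast
    ring
  rw [e1, e2, e3] at h3
  exact good_rot h3

end Q126.MD
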