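import Mathlib
import Pool.Agent.Q126.MD.Stmts

set_option autoImplicit false

namespace Q126.MD

theorem order_pt_exists (z w : ℂ) (R θ : ℝ) (hw : ‖w - z‖ = R) :
    ∃ φ : ℝ, 0 ≤ φ ∧ φ < 2 * Real.pi ∧ w = pt z R (θ + φ) := by
  have h2 : (0 : ℝ) < 2 * Real.pi := by positivity
  have hm := toIcoMod_mem_Ico h2 0 (Complex.arg (w - z) - θ)
  rw [zero_add] at hm
  refine ⟨toIcoMod h2 0 (Complex.arg (w - z) - θ), hm.1, hm.2, ?_⟩
  have h3 : θ + toIcoMod h2 0 (Complex.arg (w - z) - θ) =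
      Complex.arg (w - z) - (toIcoDiv h2 0 (Complex.arg (w - z) - θ) : ℝ) * (2 * Real.pi) := by
    have := self_sub_toIcoDiv_zsmul h2 0 (Complex.arg (w - z) - θ)
    rw [← this, zsmul_eq_mul]
    ring
  unfold pt
  rw [h3]
  have h4 : Complex.exp (((Complex.arg (w - z) -
      (toIcoDiv h2 0 (Complex.arg (w - z) - θ) : ℝ) * (2 * Real.pi) : ℝ) : ℂ) * Complex.I) =
      Complex.exp ((Complex.arg (w - z) : ℂ) * Complex.I) := by
    rw [Complex.exp_eq_exp_iff_exists_int]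
    refine ⟨-toIcoDiv h2 0 (Complex.arg (w - z) - θ), ?_⟩
    push_cast
    ring
  rw [h4, ← hw, Complex.norm_mul_exp_arg_mul_I]
  ring

theorem Order : TaskOrder := by
  intro z a b c R ha hb hc hab hbc hca
  have hR : 0 < R := by
    have h0 : 0 ≤ R := ha ▸ norm_nonneg _
    rcases h0.lt_or_eq with h | h
    · exact h
    · exfalso
      rw [← h, norm_eq_zero, sub_eq_zero] at ha hb
      exact hab (ha.trans hb.symm)
  refine ⟨hR, ?_⟩
  obtain ⟨θ, _, _, hθ⟩ := order_pt_exists z a R 0 ha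
  rw [zero_add] at hθ
  obtain ⟨φ, hφ0, hφ1, hφ⟩ := order_pt_exists z b R θ hb
  obtain ⟨ψ, hψ0, hψ1, hψ⟩ := order_pt_exists z c R θ hc
  have hφp : 0 < φ := by
    rcases hφ0.lt_or_eq with h | h
    · exact h
    · exfalso
      rw [← h, add_zero] at hφ
      exact hab (hθ.trans hφ.symm)
  have hψp : 0 < ψ := by
    rcases hψ0.lt_or_eq with h | h
    · exact h
    · exfalso
      rw [← h, add_zero] at hψ
      exact hca (hψ.trans hθ.symm)
  have hne : φ ≠ ψ := by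
    rintro rfl
    exact hbc (hφ.trans hψ.symm)
  rcases lt_or_gt_of_ne hne with h | h
  · refine ⟨θ, φ / 2, (ψ - φ) / 2, Real.pi - ψ / 2, by linarith, by linarith, by linarith,
      by ring, Or.inl ⟨hθ, ?_, ?_⟩⟩
    · rw [show θ + 2 * (φ / 2) = θ + φ by ring]; exact hφ
    · rw [show θ + 2 * (φ / 2) + 2 * ((ψ - φ) / 2) = θ + ψ by ring]; exact hψ
  · refine ⟨θ, ψ / 2, (φ - ψ) / 2, Real.pi - φ / 2, by linarith, by linarith, by linarith,
      by ring, Or.inr ⟨hθ, ?_, ?_⟩⟩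
    · rw [show θ + 2 * (ψ / 2) = θ + ψ by ring]; exact hψ
    · rw [show θ + 2 * (ψ / 2) + 2 * ((φ - ψ) / 2) = θ + φ by ring]; exact hφ

end Q126.MD
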