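import Pool.Agent.Q126.MD.Stmts2

namespace Q126.MD

theorem Outside : TaskOutside := by
  intro hcor Ω B ρ δ S hS z a b c x R ha hb hc hR hRlt hx hxΩ hxB
  obtain ⟨s, hs, hxs⟩ := hS.net x hxΩ hxB
  have h1 := hcor z a b c x R ha hb hc hx
  have hδ := hS.posδ
  have hρ := hS.posρ
  have hR0 : 0 ≤ R := ha ▸ norm_nonneg _
  have h2 : R - δ ≤ ‖x - z‖ := by
    have h3 := hR s hs
    have h4 : ‖s - z‖ ≤ ‖x - s‖ + ‖x - z‖ := by
      have : s - z = (x - z) - (x - s) := by ring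
      rw [this, add_comm]
      exact norm_sub_le _ _
    linarith
  have h5 : 0 ≤ ‖x - z‖ := norm_nonneg _
  refine h1.trans ?_
  rcases le_total δ R with h | h
  · nlinarith [mul_nonneg (sub_nonneg.2 h) (sub_nonneg.2 h2), mul_nonneg h5 (sub_nonneg.2 h2),
      mul_nonneg (sub_nonneg.2 hRlt.le) hδ.le]
  · nlinarith [mul_nonneg hR0 (sub_nonneg.2 h), mul_nonneg (sub_nonneg.2 hRlt.le) hδ.le,
      mul_nonneg h5 h5, mul_pos hρ hδ, mul_pos hδ hδ]

end Q126.MD
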