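import Mathlib
import Pool.Agent.Q126.MD.Stmts2

set_option autoImplicit false

namespace Q126.MD

open MeasureTheory Set

theorem pertri_m3_nonneg (a b c x : ℂ) : 0 ≤ m3 a b c x := by
  unfold m3
  exact le_min (norm_nonneg _) (le_min (norm_nonneg _) (norm_nonneg _))

theorem pertri_m3_cont (a b c : ℂ) : Continuous (fun x => m3 a b c x) := by
  unfold m3
  fun_prop

theorem pertri_compact (a b c : ℂ) : IsCompact (T a b c) := by
  unfold T
  exact Set.Finite.isCompact_convexHull (𝕜 := ℝ) (Set.toFinite ({a, b, c} : Set ℂ))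

theorem pertri_c0_pos : 0 < c0 := by
  unfold c0
  have := Real.log_pos (show (1 : ℝ) < 3 by norm_num)
  positivity

theorem PerTri : TaskPerTri := by
  intro hRad hOut hCor hFrac hGood Ω B ρ δ η S n hS hn hη hκ t ht
  have hOut := hOut hCor
  obtain ⟨htS, hcard, z, R, hcirc, hempty⟩ := ht
  obtain ⟨a, b, c, hab, hac, hbc, rfl⟩ := Finset.card_eq_three.1 hcard
  have haS : a ∈ S := htS (by simp)
  have hbS : b ∈ S := htS (by simp)
  have hcS : c ∈ S := htS (by simp)
  have ha : ‖a - z‖ = R := hcirc a (by simp)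
  have hb : ‖b - z‖ = R := hcirc b (by simp)
  have hc : ‖c - z‖ = R := hcirc c (by simp)
  have hT : convexHull ℝ ((({a, b, c} : Finset ℂ)) : Set ℂ) = T a b c := by
    unfold T
    simp
  rw [hT]
  have hcomp := pertri_compact a b c
  have hTm : MeasurableSet (T a b c) := hcomp.isClosed.measurableSet
  have hΩm : MeasurableSet Ω := hS.isOpen.measurableSet
  have hTfin : volume (T a b c) ≠ ⊤ := hcomp.measure_lt_top.ne
  have hIfin : volume (Ω ∩ T a b c) ≠ ⊤ := measure_ne_top_of_subset inter_subset_right hTfin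
  have hδ := hS.posδ
  have hρ := hS.posρ
  rcases (Ω ∩ T a b c).eq_empty_or_nonempty with he | ⟨x0, hx0Ω, hx0T⟩
  · rw [he]
    simp
  have hTball : T a b c ⊆ Metric.closedBall z R := by
    unfold T
    refine convexHull_min ?_ (convex_closedBall z R)
    intro v hv
    rw [Metric.mem_closedBall, dist_eq_norm]
    rcases hv with rfl | rfl | rfl
    · exact ha.le
    · exact hb.le
    · exact hc.le
  have hx0z : ‖x0 - z‖ ≤ R := by
    have := hTball hx0T
    rwa [Metric.mem_closedBall, dist_eq_norm] at this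
  have hR0 : 0 ≤ R := ha ▸ norm_nonneg _
  have hRρ : R < ρ + δ := hRad Ω B ρ δ S hS z x0 R hempty hx0Ω hx0z
  have hbd : ∀ x ∈ T a b c, ‖x‖ ≤ 5 * B + 5 := by
    intro x hx
    have h1 : ‖x - z‖ ≤ R := by
      have := hTball hx
      rwa [Metric.mem_closedBall, dist_eq_norm] at this
    have h2 : ‖x‖ ≤ ‖x0‖ + ‖x0 - z‖ + ‖x - z‖ := by
      have : x = x0 - (x0 - z) + (x - z) := by ring
      calc ‖x‖ = ‖x0 - (x0 - z) + (x - z)‖ := by rw [← this]
        _ ≤ ‖x0 - (x0 - z)‖ + ‖x - z‖ := norm_add_le _ _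
        _ ≤ ‖x0‖ + ‖x0 - z‖ + ‖x - z‖ := by
          have := norm_sub_le x0 (x0 - z)
          linarith
    have h3 := hS.sub x0 hx0Ω
    have h4 := hS.ρleB
    have h5 := hS.δlt
    have h6 := hS.posB
    linarith
  have hinf : ∀ x, Metric.infDist x Ωᶜ ≤ m3 a b c x + δ := by
    intro x
    have key : ∀ v ∈ S, Metric.infDist x Ωᶜ ≤ ‖x - v‖ + δ := by
      intro v hv
      obtain ⟨y, hy, hvy⟩ := hS.near v hv
      have h1 := Metric.infDist_le_dist_of_mem (x := x) hy
      have h2 : dist x y ≤ ‖x - v‖ + ‖v - y‖ := by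
        rw [dist_eq_norm]
        have : x - y = (x - v) + (v - y) := by ring
        rw [this]
        exact norm_add_le _ _
      linarith
    have h1 : Metric.infDist x Ωᶜ - δ ≤ m3 a b c x := by
      unfold m3
      refine le_min ?_ (le_min ?_ ?_)
      · have := key a haS; linarith
      · have := key b hbS; linarith
      · have := key c hcS; linarith
    linarith
  have hint1 : IntegrableOn (fun x => Metric.infDist x Ωᶜ) (Ω ∩ T a b c) :=
    ((Metric.continuous_infDist_pt Ωᶜ).continuousOn.integrableOn_compact hcomp).mono_set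
      inter_subset_right
  have hint2 : IntegrableOn (fun x => m3 a b c x) (T a b c) :=
    (pertri_m3_cont a b c).continuousOn.integrableOn_compact hcomp
  have hint2' : IntegrableOn (fun x => m3 a b c x) (Ω ∩ T a b c) := hint2.mono_set inter_subset_right
  have hconst : ∀ k : ℝ, IntegrableOn (fun _ : ℂ => k) (Ω ∩ T a b c) := fun k =>
    integrableOn_const hIfin
  have hIm : MeasurableSet (Ω ∩ T a b c) := hΩm.inter hTm
  have hvn : 0 ≤ (volume (Ω ∩ T a b c)).toReal := ENNReal.toReal_nonneg
  by_cases hcase : ∀ x ∈ T a b c, m3 a b c x < η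
  · have h1 : ∫ x in Ω ∩ T a b c, Metric.infDist x Ωᶜ ≤ ∫ x in Ω ∩ T a b c, (η + δ) := by
      refine setIntegral_mono_on hint1 (hconst _) hIm ?_
      intro x hx
      have := hinf x
      have := hcase x hx.2
      linarith
    rw [setIntegral_const, smul_eq_mul, Measure.real, mul_comm] at h1
    refine h1.trans ?_
    exact mul_le_mul_of_nonneg_right (le_max_left _ _) hvn
  · push Not at hcase
    obtain ⟨x1, hx1T, hx1⟩ := hcase
    set κ := Real.sqrt (2 * (ρ + δ) * δ) with hκdef
    have hκpos : 0 < κ := Real.sqrt_pos.2 (by positivity)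
    have hx1a : η ≤ ‖x1 - a‖ := hx1.trans (min_le_left _ _)
    have hx1b : η ≤ ‖x1 - b‖ := hx1.trans ((min_le_right _ _).trans (min_le_left _ _))
    have hx1c : η ≤ ‖x1 - c‖ := hx1.trans ((min_le_right _ _).trans (min_le_right _ _))
    have hconv : Convex ℝ (T a b c) := convex_convexHull _ _
    have haT : a ∈ T a b c := subset_convexHull _ _ (by simp)
    have hbT : b ∈ T a b c := subset_convexHull _ _ (by simp)
    have hcT : c ∈ T a b c := subset_convexHull _ _ (by simp)
    have hn1 : 1 ≤ n := by omega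
    have fa := hFrac (T a b c) a x1 κ n hconv hcomp haT hx1T hκpos hn1 (hκ.trans hx1a)
    have fb := hFrac (T a b c) b x1 κ n hconv hcomp hbT hx1T hκpos hn1 (hκ.trans hx1b)
    have fc := hFrac (T a b c) c x1 κ n hconv hcomp hcT hx1T hκpos hn1 (hκ.trans hx1c)
    have hsub : T a b c ⊆ (Ω ∩ T a b c) ∪ ((T a b c ∩ Metric.closedBall a κ) ∪
        ((T a b c ∩ Metric.closedBall b κ) ∪ (T a b c ∩ Metric.closedBall c κ))) := by
      intro x hx
      by_cases hxΩ : x ∈ Ω
      · exact Or.inl ⟨hxΩ, hx⟩
      · right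
        have h1 := hOut Ω B ρ δ S hS z a b c x R ha hb hc hempty hRρ hx hxΩ (hbd x hx)
        have h2 : m3 a b c x ≤ κ := Real.le_sqrt_of_sq_le h1
        unfold m3 at h2
        rw [min_le_iff, min_le_iff] at h2
        rcases h2 with h | h | h
        · exact Or.inl ⟨hx, by rwa [Metric.mem_closedBall, dist_eq_norm]⟩
        · exact Or.inr (Or.inl ⟨hx, by rwa [Metric.mem_closedBall, dist_eq_norm]⟩)
        · exact Or.inr (Or.inr ⟨hx, by rwa [Metric.mem_closedBall, dist_eq_norm]⟩)
    have hvol : (volume (T a b c)).toReal ≤ (volume (Ω ∩ T a b c)).toReal +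
        ((volume (T a b c ∩ Metric.closedBall a κ)).toReal +
        ((volume (T a b c ∩ Metric.closedBall b κ)).toReal +
          (volume (T a b c ∩ Metric.closedBall c κ)).toReal)) := by
      have fin : ∀ s : Set ℂ, volume (T a b c ∩ s) ≠ ⊤ := fun s =>
        measure_ne_top_of_subset inter_subset_left hTfin
      have h1 : volume (T a b c) ≤ volume (Ω ∩ T a b c) +
          (volume (T a b c ∩ Metric.closedBall a κ) +
          (volume (T a b c ∩ Metric.closedBall b κ) +
            volume (T a b c ∩ Metric.closedBall c κ))) := by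
        refine (measure_mono hsub).trans ?_
        refine (measure_union_le _ _).trans ?_
        gcongr
        refine (measure_union_le _ _).trans ?_
        gcongr
        exact measure_union_le _ _
      have h2 := ENNReal.toReal_mono (by
        refine ENNReal.add_ne_top.2 ⟨hIfin, ENNReal.add_ne_top.2 ⟨fin _,
          ENNReal.add_ne_top.2 ⟨fin _, fin _⟩⟩⟩) h1
      rwa [ENNReal.toReal_add hIfin (ENNReal.add_ne_top.2 ⟨fin _,
          ENNReal.add_ne_top.2 ⟨fin _, fin _⟩⟩), ENNReal.toReal_add (fin _)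
          (ENNReal.add_ne_top.2 ⟨fin _, fin _⟩), ENNReal.toReal_add (fin _) (fin _)] at h2
    have hnR : (12 : ℝ) < n := by exact_mod_cast hn
    have hnpos : (0 : ℝ) < n := by linarith
    have hfr : 0 < 1 - 12 / (n : ℝ) := by
      rw [sub_pos, div_lt_one hnpos]
      exact hnR
    have hvol2 : (1 - 12 / (n : ℝ)) * (volume (T a b c)).toReal ≤ (volume (Ω ∩ T a b c)).toReal := by
      have e1 : (1 - 12 / (n : ℝ)) * (volume (T a b c)).toReal =
          (volume (T a b c)).toReal - 12 * (volume (T a b c)).toReal / n := by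
        field_simp
      have e2 : ((volume (T a b c ∩ Metric.closedBall a κ)).toReal +
        ((volume (T a b c ∩ Metric.closedBall b κ)).toReal +
          (volume (T a b c ∩ Metric.closedBall c κ)).toReal)) ≤
          12 * (volume (T a b c)).toReal / n := by
        rw [le_div_iff₀ hnpos]
        nlinarith
      rw [e1]
      linarith
    have hvol3 : (volume (T a b c)).toReal ≤ (volume (Ω ∩ T a b c)).toReal / (1 - 12 / (n : ℝ)) := by
      rw [le_div_iff₀ hfr, mul_comm]
      exact hvol2
    have g1 : ∫ x in Ω ∩ T a b c, Metric.infDist x Ωᶜ ≤ ∫ x in Ω ∩ T a b c, (m3 a b c x + δ) := by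
      refine setIntegral_mono_on hint1 (hint2'.add (hconst δ)) hIm ?_
      intro x _
      exact hinf x
    have g2 : ∫ x in Ω ∩ T a b c, (m3 a b c x + δ) =
        (∫ x in Ω ∩ T a b c, m3 a b c x) + δ * (volume (Ω ∩ T a b c)).toReal := by
      rw [integral_add hint2' (hconst δ), setIntegral_const, smul_eq_mul, Measure.real,
        mul_comm δ]
    have g3 : ∫ x in Ω ∩ T a b c, m3 a b c x ≤ ∫ x in T a b c, m3 a b c x := by
      refine setIntegral_mono_set hint2 ?_ ?_
      · exact Filter.Eventually.of_forall (fun x => pertri_m3_nonneg a b c x)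
      · exact Filter.Eventually.of_forall (fun x hx => hx.2)
    have g4 : ∫ x in T a b c, m3 a b c x ≤ c0 * R * (volume (T a b c)).toReal :=
      hGood z a b c R ha hb hc hab hbc (Ne.symm hac)
    have hTn : 0 ≤ (volume (T a b c)).toReal := ENNReal.toReal_nonneg
    have g5 : c0 * R * (volume (T a b c)).toReal ≤
        c0 * (ρ + δ) * ((volume (Ω ∩ T a b c)).toReal / (1 - 12 / (n : ℝ))) := by
      have hc0 := pertri_c0_pos
      have s1 : c0 * R ≤ c0 * (ρ + δ) := mul_le_mul_of_nonneg_left hRρ.le hc0.le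
      have s2 : 0 ≤ c0 * (ρ + δ) := by positivity
      exact mul_le_mul s1 hvol3 hTn s2
    have g6 : ∫ x in Ω ∩ T a b c, Metric.infDist x Ωᶜ ≤
        (c0 * (ρ + δ) / (1 - 12 / (n : ℝ)) + δ) * (volume (Ω ∩ T a b c)).toReal := by
      have : (c0 * (ρ + δ) / (1 - 12 / (n : ℝ)) + δ) * (volume (Ω ∩ T a b c)).toReal =
          c0 * (ρ + δ) * ((volume (Ω ∩ T a b c)).toReal / (1 - 12 / (n : ℝ))) +
            δ * (volume (Ω ∩ T a b c)).toReal := by
        ring
      rw [this]
      linarith
    exact g6.trans (mul_le_mul_of_nonneg_right (le_max_right _ _) hvn)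

end Q126.MD
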