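import Pool.Agent.Q126.MD.Stmts2

/-! MP_50360a_an: the radius of an empty disk meeting `Ω`. -/

namespace Q126.MD

open MeasureTheory Set

theorem Radius : TaskRadius := by
  intro Ω B ρ δ S hS z x R hR hx hxz
  have hB := hS.posB
  have hρ := hS.posρ
  have hρB := hS.ρleB
  have hδ := hS.posδ
  have hδ1 := hS.δlt
  by_cases hz : z ∈ Ω
  · -- nearest point of the complement
    have hne : (Ωᶜ : Set ℂ).Nonempty := by
      refine ⟨((2 * B : ℝ) : ℂ), fun h => ?_⟩
      have := hS.sub _ h
      rw [Complex.norm_real, Real.norm_eq_abs, abs_of_pos (by linarith)] at this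
      linarith
    obtain ⟨y, hy, hyd⟩ := hS.isOpen.isClosed_compl.exists_infDist_eq_dist hne z
    have h1 := hS.inr z hz
    rw [hyd, dist_eq_norm] at h1
    have h2 := hS.sub z hz
    have h3 : ‖y‖ ≤ ‖z‖ + ‖z - y‖ := by
      have := norm_sub_le z (z - y)
      simpa using this
    obtain ⟨s, hs, hsd⟩ := hS.net y hy (by linarith)
    have h4 := hR s hs
    have h5 : ‖s - z‖ ≤ ‖y - s‖ + ‖z - y‖ := by
      have : s - z = -((y - s) + (z - y)) := by ring
      rw [this, norm_neg]
      exact norm_add_le _ _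
    linarith
  · by_cases hzn : ‖z‖ ≤ 5 * B + 5
    · obtain ⟨s, hs, hsd⟩ := hS.net z hz hzn
      have h4 := hR s hs
      rw [norm_sub_rev] at hsd
      linarith
    · exfalso
      push Not at hzn
      have hxB := hS.sub x hx
      have h1 : ‖z‖ ≤ ‖x‖ + ‖z - x‖ := by
        have := norm_add_le x (z - x)
        simpa using this
      have hd : 2 * B + 1 < ‖z - x‖ := by linarith
      have hd0 : 0 < ‖z - x‖ := by linarith
      set r : ℝ := (2 * B + 1) / ‖z - x‖ with hr
      have hr0 : 0 < r := div_pos (by linarith) hd0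
      have hr1 : r < 1 := (div_lt_one hd0).2 hd
      have hrd : r * ‖z - x‖ = 2 * B + 1 := div_mul_cancel₀ _ hd0.ne'
      set y : ℂ := x + r * (z - x) with hy
      have hyx : ‖y - x‖ = 2 * B + 1 := by
        have : y - x = r * (z - x) := by rw [hy]; ring
        rw [this, norm_mul, Complex.norm_real, Real.norm_eq_abs, abs_of_pos hr0, hrd]
      have hzy : ‖z - y‖ = ‖z - x‖ - (2 * B + 1) := by
        have : z - y = ((1 - r : ℝ) : ℂ) * (z - x) := by rw [hy]; push_cast; ring
        rw [this, norm_mul, Complex.norm_real, Real.norm_eq_abs, abs_of_pos (by linarith)]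
        rw [sub_mul, one_mul, hrd]
      have h2 : ‖y - x‖ ≤ ‖y‖ + ‖x‖ := norm_sub_le _ _
      have h3 : ‖y‖ ≤ ‖x‖ + ‖y - x‖ := by
        have := norm_add_le x (y - x)
        simpa using this
      have hyΩ : y ∈ Ωᶜ := fun h => by
        have := hS.sub y h
        linarith
      obtain ⟨s, hs, hsd⟩ := hS.net y hyΩ (by linarith)
      have h4 := hR s hs
      have h5 : ‖s - z‖ ≤ ‖y - s‖ + ‖z - y‖ := by
        have : s - z = -((y - s) + (z - y)) := by ring
        rw [this, norm_neg]
        exact norm_add_le _ _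
      rw [norm_sub_rev] at hxz
      linarith

end Q126.MD
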