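import Pool.Agent.Q126.MD.Stmts

namespace Q126.MD

open MeasureTheory Set

private theorem sum3_mem {C : Set ℂ} (hC : Convex ℝ C) {a b c : ℂ} (ha : a ∈ C) (hb : b ∈ C)
    (hc : c ∈ C) {r s t : ℝ} (hr : 0 ≤ r) (hs : 0 ≤ s) (ht : 0 ≤ t) (h : r + s + t = 1) :
    (r : ℂ) * a + (s : ℂ) * b + (t : ℂ) * c ∈ C := by
  have h1 := hC.sum_mem (t := (Finset.univ : Finset (Fin 3))) (w := ![r, s, t]) (z := ![a, b, c])
    (by intro i _; fin_cases i <;> simpa) (by simp [Fin.sum_univ_three, h])
    (by intro i _; fin_cases i <;> simpa)
  simpa [Fin.sum_univ_three, Complex.real_smul] using h1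

theorem RightHull : TaskRightHull := by
  intro p q hp hq
  apply Subset.antisymm
  · apply convexHull_min
    · intro x hx
      simp only [mem_insert_iff, mem_singleton_iff] at hx
      rcases hx with rfl | rfl | rfl
      · simp [hp.le]
      · simp [hp.le, mul_nonneg hq hp.le]
      · simp [hp.le, hq]
    · intro x hx y hy a b ha hb hab
      simp only [mem_setOf_eq, Complex.add_re, Complex.add_im, Complex.real_smul, Complex.mul_re,
        Complex.mul_im, Complex.ofReal_re, Complex.ofReal_im, zero_mul, sub_zero, add_zero] at hx hy ⊢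
      obtain ⟨h1, h2, h3, h4⟩ := hx
      obtain ⟨k1, k2, k3, k4⟩ := hy
      refine ⟨by positivity, ?_, by positivity, ?_⟩
      · have hb' : p = a * p + b * p := by rw [← add_mul, hab, one_mul]
        rw [hb']
        gcongr
      · nlinarith [mul_le_mul_of_nonneg_left h4 ha, mul_le_mul_of_nonneg_left k4 hb]
  · rintro x ⟨h1, h2, h3, h4⟩
    have hA : (0 : ℂ) ∈ T 0 (p : ℂ) ((p : ℂ) + q * Complex.I) := subset_convexHull ℝ _ (by simp)
    have hB : (p : ℂ) ∈ T 0 (p : ℂ) ((p : ℂ) + q * Complex.I) := subset_convexHull ℝ _ (by simp)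
    have hC : (p : ℂ) + q * Complex.I ∈ T 0 (p : ℂ) ((p : ℂ) + q * Complex.I) :=
      subset_convexHull ℝ _ (by simp)
    have hconv : Convex ℝ (T 0 (p : ℂ) ((p : ℂ) + q * Complex.I)) := convex_convexHull ℝ _
    rcases hq.eq_or_lt with rfl | hq'
    · have him : x.im = 0 := by
        have : x.im * p ≤ 0 := by simpa using h4
        have : x.im ≤ 0 := by
          by_contra hc
          push Not at hc
          have := mul_pos hc hp
          linarith
        linarith
      have hm := sum3_mem hconv hA hB hC (r := 1 - x.re / p) (s := x.re / p) (t := 0)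
        (by rw [sub_nonneg, div_le_one hp]; exact h2) (by positivity) le_rfl (by ring)
      convert hm using 1
      have hp' : (p : ℂ) ≠ 0 := by exact_mod_cast hp.ne'
      apply Complex.ext
      · simp
        field_simp
      · simp [him]
    · have hm := sum3_mem hconv hA hB hC (r := 1 - x.re / p) (s := x.re / p - x.im / q)
        (t := x.im / q)
        (by rw [sub_nonneg, div_le_one hp]; exact h2)
        (by
          rw [sub_nonneg, div_le_div_iff₀ hq' hp]
          linarith) (by positivity) (by ring)
      convert hm using 1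
      apply Complex.ext
      · simp
        field_simp
        ring
      · simp
        field_simp

end Q126.MD
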