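import Pool.Agent.Q126.MD.Stmts

set_option autoImplicit false

namespace Q126.MD

open MeasureTheory Set

namespace RightInt

/-- the region in the plane `ℝ × ℝ` -/
def reg (p q : ℝ) : Set (ℝ × ℝ) := {z | 0 ≤ z.1 ∧ z.1 ≤ p ∧ 0 ≤ z.2 ∧ z.2 * p ≤ q * z.1}

theorem isCompact_reg {p q : ℝ} (hp : 0 < p) (hq : 0 ≤ q) : IsCompact (reg p q) := by
  have hcl : IsClosed (reg p q) := by
    unfold reg
    simp only [ofPred_and]
    refine (isClosed_le continuous_const continuous_fst).inter
      ((isClosed_le continuous_fst continuous_const).inter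
      ((isClosed_le continuous_const continuous_snd).inter
      (isClosed_le (continuous_snd.mul continuous_const) (continuous_const.mul continuous_fst))))
  refine (isCompact_Icc (a := (0, 0)) (b := (p, q))).of_isClosed_subset hcl ?_
  rintro ⟨x, y⟩ ⟨h1, h2, h3, h4⟩
  simp only at h1 h2 h3 h4
  refine ⟨⟨h1, h3⟩, ⟨h2, ?_⟩⟩
  show y ≤ q
  have : q * x ≤ q * p := mul_le_mul_of_nonneg_left h2 hq
  exact le_of_mul_le_mul_right (h4.trans this) hp

theorem inner {x t : ℝ} (hx : 0 ≤ x) :
    ∫ y in (0 : ℝ)..(x * t), Real.sqrt (x ^ 2 + y ^ 2) = x ^ 2 * G t := by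
  have h1 := intervalIntegral.mul_integral_comp_mul_left (a := (0 : ℝ)) (b := t) x
    (f := fun y => Real.sqrt (x ^ 2 + y ^ 2))
  rw [mul_zero] at h1
  rw [← h1]
  unfold G
  have h2 : ∀ u : ℝ, Real.sqrt (x ^ 2 + (x * u) ^ 2) = x * Real.sqrt (1 + u ^ 2) := by
    intro u
    rw [show x ^ 2 + (x * u) ^ 2 = x ^ 2 * (1 + u ^ 2) by ring,
      Real.sqrt_mul (sq_nonneg x), Real.sqrt_sq hx]
  simp only [h2]
  rw [intervalIntegral.integral_const_mul]
  ring

theorem main (p q : ℝ) (hp : 0 < p) (hq : 0 ≤ q) :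
    ∫ z in reg p q, Real.sqrt (z.1 ^ 2 + z.2 ^ 2) = p ^ 3 / 3 * G (q / p) := by
  have hc := isCompact_reg hp hq
  have hm : MeasurableSet (reg p q) := hc.measurableSet
  have hint : IntegrableOn (fun z : ℝ × ℝ => Real.sqrt (z.1 ^ 2 + z.2 ^ 2)) (reg p q) := by
    refine ContinuousOn.integrableOn_compact hc (Continuous.continuousOn ?_)
    fun_prop
  have hint' : Integrable ((reg p q).indicator fun z : ℝ × ℝ => Real.sqrt (z.1 ^ 2 + z.2 ^ 2))
      (volume.prod volume) := (integrable_indicator_iff hm).2 hint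
  rw [← integral_indicator hm, Measure.volume_eq_prod, integral_prod _ hint']
  have h1 : ∀ x : ℝ, ∫ y : ℝ, (reg p q).indicator (fun z : ℝ × ℝ => Real.sqrt (z.1 ^ 2 + z.2 ^ 2)) (x, y)
      = (Icc 0 p).indicator (fun x => x ^ 2 * G (q / p)) x := by
    intro x
    by_cases hx : x ∈ Icc 0 p
    · rw [indicator_of_mem hx, ← inner hx.1]
      have h0 : 0 ≤ x * (q / p) := mul_nonneg hx.1 (div_nonneg hq hp.le)
      rw [intervalIntegral.integral_of_le h0, ← integral_Icc_eq_integral_Ioc,
        ← integral_indicator measurableSet_Icc]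
      congr 1
      funext y
      by_cases hy : y ∈ Icc 0 (x * (q / p))
      · rw [indicator_of_mem hy, indicator_of_mem]
        refine ⟨hx.1, hx.2, hy.1, ?_⟩
        show y * p ≤ q * x
        have := mul_le_mul_of_nonneg_right hy.2 hp.le
        have h3 : x * (q / p) * p = q * x := by field_simp
        linarith
      · rw [indicator_of_notMem hy, indicator_of_notMem]
        rintro ⟨_, _, h3, h4⟩
        simp only at h3 h4
        refine hy ⟨h3, ?_⟩
        rw [show x * (q / p) = (q * x) / p by ring, le_div_iff₀ hp]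
        exact h4
    · rw [indicator_of_notMem hx]
      have : ∀ y : ℝ, (reg p q).indicator (fun z : ℝ × ℝ => Real.sqrt (z.1 ^ 2 + z.2 ^ 2)) (x, y) = 0 := by
        intro y
        refine indicator_of_notMem ?_ _
        rintro ⟨h1, h2, _, _⟩
        exact hx ⟨h1, h2⟩
      simp only [this, integral_zero]
  simp only [h1]
  rw [integral_indicator measurableSet_Icc, integral_Icc_eq_integral_Ioc,
    ← intervalIntegral.integral_of_le hp.le, intervalIntegral.integral_mul_const, integral_pow]
  norm_num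

end RightInt

theorem RightInt : TaskRightInt := by
  intro p q hp hq
  have h := Complex.volume_preserving_equiv_real_prod.setIntegral_preimage_emb
    Complex.measurableEquivRealProd.measurableEmbedding
    (fun z : ℝ × ℝ => Real.sqrt (z.1 ^ 2 + z.2 ^ 2)) (RightInt.reg p q)
  rw [← RightInt.main p q hp hq, ← h]
  have hs : Complex.measurableEquivRealProd ⁻¹' RightInt.reg p q =
      {x : ℂ | 0 ≤ x.re ∧ x.re ≤ p ∧ 0 ≤ x.im ∧ x.im * p ≤ q * x.re} := rfl
  rw [hs]
  refine integral_congr_ae (Filter.Eventually.of_forall fun x => ?_)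
  show ‖x‖ = Real.sqrt (x.re ^ 2 + x.im ^ 2)
  rw [Complex.norm_eq_sqrt_sq_add_sq]

end Q126.MD
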