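import Pool.Agent.Q126.MD.Stmts2

namespace Q126.MD

open MeasureTheory Set

theorem taskSetup : TaskSetup := by
  intro hnet Ω B ρ δ hopen hsub hB hρ hρB hinr hδ hδ1
  have hK : IsCompact (Ωᶜ ∩ Metric.closedBall (0 : ℂ) (5 * B + 5)) :=
    (isCompact_closedBall (0 : ℂ) (5 * B + 5)).inter_left hopen.isClosed_compl
  obtain ⟨S, hgp, hnear, hnt⟩ := hnet _ δ hK hδ
  refine ⟨S, ⟨hopen, hsub, hB, hρ, hρB, hinr, hδ, hδ1, ?_, ?_, hgp⟩⟩
  · intro s hs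
    obtain ⟨y, hy, hsy⟩ := hnear s hs
    exact ⟨y, hy.1, hsy⟩
  · intro y hy hyn
    exact hnt y ⟨hy, by simpa [Metric.mem_closedBall, dist_eq_norm] using hyn⟩

end Q126.MD
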