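import Pool.Agent.Q126.MD.Stmts

namespace Q126.MD

open MeasureTheory Set

/-- the stretching -/
noncomputable def str (l : ℝ) (hl : l ≠ 0) : ℂ ≃ₗ[ℝ] ℂ where
  toFun z := ⟨z.re, l * z.im⟩
  invFun z := ⟨z.re, z.im / l⟩
  map_add' a b := by
    apply Complex.ext
    · simp
    · simp [mul_add]
  map_smul' a b := by
    apply Complex.ext
    · simp
    · simp
      ring
  left_inv z := by
    apply Complex.ext
    · simp
    · simp [hl]
  right_inv z := by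
    apply Complex.ext
    · simp
    · simp
      field_simp

theorem compact_T (a b c : ℂ) : IsCompact (T a b c) :=
  Set.Finite.isCompact_convexHull (𝕜 := ℝ) (Set.toFinite _)

theorem cont_m3 (a b c : ℂ) : Continuous (m3 a b c) := by
  unfold m3
  fun_prop

theorem str_norm {l : ℝ} (hl : 1 ≤ l) (hl0 : l ≠ 0) (x y : ℂ) : ‖x - y‖ ≤ ‖str l hl0 x - str l hl0 y‖ := by
  rw [← map_sub]
  obtain ⟨w, hw⟩ : ∃ w, w = x - y := ⟨_, rfl⟩
  rw [← hw]
  have h1 : ‖w‖ ^ 2 ≤ ‖str l hl0 w‖ ^ 2 := by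
    rw [Complex.sq_norm, Complex.sq_norm, Complex.normSq_apply, Complex.normSq_apply]
    change _ ≤ w.re * w.re + (l * w.im) * (l * w.im)
    nlinarith [mul_self_nonneg w.im, mul_nonneg (sub_nonneg.2 hl) (mul_self_nonneg w.im),
      mul_nonneg (mul_nonneg (sub_nonneg.2 hl) (sub_nonneg.2 hl)) (mul_self_nonneg w.im)]
  exact le_of_sq_le_sq h1 (norm_nonneg _)

theorem Stretch : TaskStretch := by
  intro u₁ u₂ v l r hv hl hr h
  have hl0 : l ≠ 0 := by positivity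
  let A := str l hl0
  have hAr : ∀ u : ℝ, A (u : ℂ) = u := fun u => by
    apply Complex.ext
    · rfl
    · change l * (u : ℂ).im = (u : ℂ).im
      simp
  have hA1 : A (-u₁ : ℂ) = (-u₁ : ℂ) := by
    have := hAr (-u₁)
    simpa using this
  have hA2 : A (u₂ : ℂ) = (u₂ : ℂ) := hAr u₂
  have hA3 : A ((v : ℂ) * Complex.I) = ((l * v : ℝ) : ℂ) * Complex.I := by
    apply Complex.ext
    · change ((v : ℂ) * Complex.I).re = _
      simp
    · change l * ((v : ℂ) * Complex.I).im = _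
      simp
  have hT : T (-u₁ : ℂ) (u₂ : ℂ) (((l * v : ℝ) : ℂ) * Complex.I) =
      A '' T (-u₁ : ℂ) (u₂ : ℂ) ((v : ℂ) * Complex.I) := by
    unfold T
    have h1 := A.toLinearMap.image_convexHull ({(-u₁ : ℂ), (u₂ : ℂ), (v : ℂ) * Complex.I} : Set ℂ)
    have h2 : (A.toLinearMap '' ({(-u₁ : ℂ), (u₂ : ℂ), (v : ℂ) * Complex.I} : Set ℂ)) =
        {(-u₁ : ℂ), (u₂ : ℂ), ((l * v : ℝ) : ℂ) * Complex.I} := by
      rw [Set.image_insert_eq, Set.image_insert_eq, Set.image_singleton]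
      change {A (-u₁ : ℂ), A (u₂ : ℂ), A ((v : ℂ) * Complex.I)} = _
      rw [hA1, hA2, hA3]
    rw [← h2, ← h1]
    rfl
  obtain ⟨D, hD⟩ : ∃ D, D = |LinearMap.det (A : ℂ →ₗ[ℝ] ℂ)| := ⟨_, rfl⟩
  have hD0 : 0 < D := by
    rw [hD]
    exact abs_pos.2 A.isUnit_det'.ne_zero
  have hmeas : MeasurableSet (T (-u₁ : ℂ) (u₂ : ℂ) ((v : ℂ) * Complex.I)) :=
    (compact_T _ _ _).isClosed.measurableSet
  unfold Good at h ⊢
  rw [hT] at h
  have hvol : volume (A '' T (-u₁ : ℂ) (u₂ : ℂ) ((v : ℂ) * Complex.I)) =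
      ENNReal.ofReal D * volume (T (-u₁ : ℂ) (u₂ : ℂ) ((v : ℂ) * Complex.I)) := by
    rw [hD]
    exact Measure.addHaar_image_linearMap volume (A : ℂ →ₗ[ℝ] ℂ) _
  have hint : ∫ x in A '' T (-u₁ : ℂ) (u₂ : ℂ) ((v : ℂ) * Complex.I),
      m3 (-u₁ : ℂ) (u₂ : ℂ) (((l * v : ℝ) : ℂ) * Complex.I) x =
      ∫ x in T (-u₁ : ℂ) (u₂ : ℂ) ((v : ℂ) * Complex.I),
        D • m3 (-u₁ : ℂ) (u₂ : ℂ) (((l * v : ℝ) : ℂ) * Complex.I) (A x) := by
    have h1 := integral_image_eq_integral_abs_det_fderiv_smul volume hmeas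
      (f := A) (f' := fun _ => (A.toContinuousLinearEquiv : ℂ →L[ℝ] ℂ))
      (fun x _ => (A.toContinuousLinearEquiv : ℂ →L[ℝ] ℂ).hasFDerivWithinAt)
      (A.injective.injOn) (m3 (-u₁ : ℂ) (u₂ : ℂ) (((l * v : ℝ) : ℂ) * Complex.I))
    rw [h1, hD]
    rfl
  rw [hvol, hint, ENNReal.toReal_mul, ENNReal.toReal_ofReal hD0.le, integral_smul, smul_eq_mul] at h
  have h2 : ∫ x in T (-u₁ : ℂ) (u₂ : ℂ) ((v : ℂ) * Complex.I),
      m3 (-u₁ : ℂ) (u₂ : ℂ) ((v : ℂ) * Complex.I) x ≤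
      ∫ x in T (-u₁ : ℂ) (u₂ : ℂ) ((v : ℂ) * Complex.I),
        m3 (-u₁ : ℂ) (u₂ : ℂ) (((l * v : ℝ) : ℂ) * Complex.I) (A x) := by
    refine setIntegral_mono_on ?_ ?_ hmeas fun x _ => ?_
    · exact (cont_m3 _ _ _).continuousOn.integrableOn_compact (compact_T _ _ _)
    · exact ((cont_m3 _ _ _).comp A.toContinuousLinearEquiv.continuous).continuousOn.integrableOn_compact
        (compact_T _ _ _)
    · unfold m3
      have k1 := str_norm hl hl0 x (-u₁ : ℂ)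
      have k2 := str_norm hl hl0 x (u₂ : ℂ)
      have k3 := str_norm hl hl0 x ((v : ℂ) * Complex.I)
      change _ ≤ ‖A x - A _‖ at k1 k2 k3
      rw [hA1] at k1
      rw [hA2] at k2
      rw [hA3] at k3
      exact min_le_min k1 (min_le_min k2 k3)
  have h3 : D * ∫ x in T (-u₁ : ℂ) (u₂ : ℂ) ((v : ℂ) * Complex.I),
        m3 (-u₁ : ℂ) (u₂ : ℂ) (((l * v : ℝ) : ℂ) * Complex.I) (A x) ≤
      D * (c0 * r * (volume (T (-u₁ : ℂ) (u₂ : ℂ) ((v : ℂ) * Complex.I))).toReal) := by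
    calc _ ≤ _ := h
      _ = _ := by ring
  exact h2.trans (le_of_mul_le_mul_left h3 hD0)

end Q126.MD
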