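import Pool.Agent.Q126.MD.Stmts2

namespace Q126.MD

open MeasureTheory Set

theorem Sum : TaskSum := by
  classical
  intro hHull hCover hUnique hNull Ω B ρ δ K S hS hT
  have hfin : {t : Finset ℂ | Del S t}.Finite := by
    refine (S.powerset : Finset (Finset ℂ)).finite_toSet.subset ?_
    intro t ht
    simp only [Finset.coe_powerset, mem_preimage, mem_powerset_iff, Finset.coe_subset]
    exact ht.1
  have : Fintype {t : Finset ℂ // Del S t} := hfin.fintype
  let A : {t : Finset ℂ // Del S t} → Set ℂ := fun t => Ω ∩ convexHull ℝ ((t : Finset ℂ) : Set ℂ)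
  have hAm : ∀ t, MeasurableSet (A t) := by
    intro t
    refine hS.isOpen.measurableSet.inter ?_
    exact (Set.Finite.isCompact_convexHull ℝ (Finset.finite_toSet _)).isClosed.measurableSet
  have hnull : volume {x : ℂ | ¬ Off S x} = 0 := hNull S
  have hd : Pairwise (Function.onFun (AEDisjoint (volume : Measure ℂ)) A) := by
    intro t t' htt
    refine measure_mono_null ?_ hnull
    rintro x ⟨⟨_, hx1⟩, ⟨_, hx2⟩⟩ hoff
    exact htt (Subtype.ext (hUnique S hS.gp t t' x t.2 t'.2 hoff hx1 hx2))
  have hU : (⋃ t, A t) =ᵐ[volume] Ω := by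
    have h1 : (⋃ t, A t) ⊆ Ω := iUnion_subset fun t => inter_subset_left
    refine h1.eventuallyLE.antisymm ?_
    have h2 : Ω \ {x | ¬ Off S x} ⊆ ⋃ t, A t := by
      rintro x ⟨hx, hx2⟩
      have hoff : Off S x := by
        by_contra h
        exact hx2 h
      obtain ⟨t, ht, hxt⟩ := hCover S x (hHull Ω B ρ δ S hS hx) hoff
      exact mem_iUnion.2 ⟨⟨t, ht⟩, hx, hxt⟩
    have h3 : Ω ≤ᵐ[volume] (Ω \ {x | ¬ Off S x} : Set ℂ) := by
      refine ae_le_set.2 (measure_mono_null ?_ hnull)
      intro x hx
      by_contra h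
      exact hx.2 ⟨hx.1, h⟩
    exact h3.trans h2.eventuallyLE
  have hsub : Ω ⊆ Metric.closedBall 0 B := by
    intro x hx
    rw [mem_closedBall_zero_iff]
    exact (hS.sub x hx).le
  have hK : IsCompact (Metric.closedBall (0 : ℂ) B) := isCompact_closedBall 0 B
  have key : ∀ f : ℂ → ℝ, Continuous f →
      ∫ x in Ω, f x = ∑ t : {t : Finset ℂ // Del S t}, ∫ x in A t, f x := by
    intro f hf
    rw [← setIntegral_congr_set hU, integral_iUnion_ae (fun t => (hAm t).nullMeasurableSet) hd,
      tsum_fintype]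
    refine IntegrableOn.mono_set (hf.continuousOn.integrableOn_compact hK) ?_
    exact iUnion_subset fun t => inter_subset_left.trans hsub
  rw [key _ (Metric.continuous_infDist_pt _)]
  have h2 := key (fun _ => K) continuous_const
  rw [setIntegral_const, smul_eq_mul, mul_comm] at h2
  rw [show (volume Ω).toReal = volume.real Ω from rfl, h2]
  refine Finset.sum_le_sum fun t _ => ?_
  rw [setIntegral_const, smul_eq_mul, mul_comm]
  exact hT t t.2

end Q126.MD
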