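import Pool.Agent.Q126.MD.Stmts2

/-! Transfer of `F` from `ℂ` to `ℝ²`. -/

namespace Q126.MD

open MeasureTheory Set

theorem Transfer : TaskTransfer := by
  intro Ω
  set e := Complex.orthonormalBasisOneI.repr with he
  have hmp : MeasurePreserving (e : ℂ → EuclideanSpace ℝ (Fin 2)) volume volume :=
    Complex.orthonormalBasisOneI.measurePreserving_repr
  have hemb : MeasurableEmbedding (e : ℂ → EuclideanSpace ℝ (Fin 2)) :=
    e.toHomeomorph.measurableEmbedding
  have hfr : frontier (e '' Ω) = e '' frontier Ω := (e.toHomeomorph.image_frontier Ω).symm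
  have hb : ∀ x, bdist (e '' Ω) (e x) = bdist Ω x := by
    intro x
    unfold bdist
    rw [hfr]
    exact Metric.infDist_image e.isometry
  have hin : inradius (e '' Ω) = inradius Ω := by
    unfold inradius
    rw [Set.image_image]
    simp only [hb]
  have hvol : volume (e '' Ω) = volume Ω := by
    rw [← hmp.measure_preimage_emb hemb, Set.preimage_image_eq _ e.injective]
  unfold F
  rw [hin, setAverage_eq, setAverage_eq, hmp.setIntegral_image_emb hemb, measureReal_def,
    measureReal_def, hvol]
  simp only [hb]

end Q126.MD
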