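import Pool.Agent.Q126.MD.Stmts

namespace Q126.MD

namespace UniqueAux

lemma coords {a b c x : ℂ} (hx : x ∈ T a b c) : ∃ α β γ : ℝ, 0 ≤ α ∧ 0 ≤ β ∧ 0 ≤ γ ∧
    α + β + γ = 1 ∧ x = α * a + β * b + γ * c := by
  unfold T at hx
  rw [convexHull_insert (by simp), convexHull_pair, mem_convexJoin] at hx
  obtain ⟨p, hp, q, hq, hxpq⟩ := hx
  rw [Set.mem_singleton_iff] at hp
  subst hp
  obtain ⟨s, t, hs, ht, hst, rfl⟩ := hq
  obtain ⟨u, v, hu, hv, huv, rfl⟩ := hxpq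
  refine ⟨u, v * s, v * t, hu, mul_nonneg hv hs, mul_nonneg hv ht, ?_, ?_⟩
  · rw [add_assoc, ← mul_add, hst, mul_one, huv]
  · simp only [Complex.real_smul, Complex.ofReal_mul]
    ring

lemma sqn (a b : ℂ) : ‖a - b‖ ^ 2 = (a.re - b.re) ^ 2 + (a.im - b.im) ^ 2 := by
  rw [Complex.sq_norm, Complex.normSq_apply, Complex.sub_re, Complex.sub_im]
  ring

/-- the difference of the two powers is affine -/
lemma affine {a b c x z w : ℂ} {α β γ : ℝ} (hsum : α + β + γ = 1)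
    (hx : x = α * a + β * b + γ * c) :
    ‖x - z‖ ^ 2 - ‖x - w‖ ^ 2 = α * (‖a - z‖ ^ 2 - ‖a - w‖ ^ 2) +
      β * (‖b - z‖ ^ 2 - ‖b - w‖ ^ 2) + γ * (‖c - z‖ ^ 2 - ‖c - w‖ ^ 2) := by
  have hre : x.re = α * a.re + β * b.re + γ * c.re := by
    rw [hx]; simp
  have him : x.im = α * a.im + β * b.im + γ * c.im := by
    rw [hx]; simp
  simp only [sqn]
  rw [hre, him]
  have hα' : α = 1 - β - γ := by linarith
  rw [hα']
  ring

/-- a point off the line has a positive coordinate -/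
lemma pos_of_off {b c x a : ℂ} {α β γ : ℝ} (hα : 0 ≤ α) (hsum : α + β + γ = 1)
    (hx : x = α * a + β * b + γ * c) (hoff : x ∉ affineSpan ℝ ({b, c} : Set ℂ)) : 0 < α := by
  rcases hα.lt_or_eq with h | h
  · exact h
  · exfalso
    apply hoff
    have : x = AffineMap.lineMap b c γ := by
      rw [hx, AffineMap.lineMap_apply, ← h]
      simp only [vsub_eq_sub, vadd_eq_add, Complex.real_smul]
      have hb : (β : ℂ) = 1 - γ := by
        have : β = 1 - γ := by linarith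
        rw [this]; push_cast; ring
      rw [hb]
      push_cast
      ring
    rw [this]
    exact AffineMap.lineMap_mem_affineSpan_pair γ b c

end UniqueAux

open UniqueAux in
theorem Unique : TaskUnique := by
  intro S hGP t t' x ht ht' hoff hxt hxt'
  obtain ⟨htS, htc, z, R, htz, hS⟩ := ht
  obtain ⟨ht'S, ht'c, z', R', ht'z, hS'⟩ := ht'
  obtain ⟨a, b, c, hab, hac, hbc, rfl⟩ := Finset.card_eq_three.1 htc
  obtain ⟨a', b', c', hab', hac', hbc', rfl⟩ := Finset.card_eq_three.1 ht'c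
  have haS : a ∈ S := htS (by simp)
  have hbS : b ∈ S := htS (by simp)
  have hcS : c ∈ S := htS (by simp)
  have ha'S : a' ∈ S := ht'S (by simp)
  have hb'S : b' ∈ S := ht'S (by simp)
  have hc'S : c' ∈ S := ht'S (by simp)
  have haz : ‖a - z‖ = R := htz a (by simp)
  have hbz : ‖b - z‖ = R := htz b (by simp)
  have hcz : ‖c - z‖ = R := htz c (by simp)
  have haz' : ‖a' - z'‖ = R' := ht'z a' (by simp)
  have hbz' : ‖b' - z'‖ = R' := ht'z b' (by simp)
  have hcz' : ‖c' - z'‖ = R' := ht'z c' (by simp)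
  have hR : 0 ≤ R := haz ▸ norm_nonneg _
  have hR' : 0 ≤ R' := haz' ▸ norm_nonneg _
  have hxT : x ∈ T a b c := by
    have : (({a, b, c} : Finset ℂ) : Set ℂ) = {a, b, c} := by simp
    rw [this] at hxt
    exact hxt
  have hxT' : x ∈ T a' b' c' := by
    have : (({a', b', c'} : Finset ℂ) : Set ℂ) = {a', b', c'} := by simp
    rw [this] at hxt'
    exact hxt'
  obtain ⟨α, β, γ, hα, hβ, hγ, hsum, hxe⟩ := coords hxT
  obtain ⟨α', β', γ', hα', hβ', hγ', hsum', hxe'⟩ := coords hxT'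
  have e := affine (z := z) (w := z') hsum hxe
  have e' := affine (z := z) (w := z') hsum' hxe'
  rw [haz, hbz, hcz] at e
  rw [haz', hbz', hcz'] at e'
  have sq_le : ∀ s ∈ S, R ^ 2 ≤ ‖s - z‖ ^ 2 := fun s hs => pow_le_pow_left₀ hR (hS s hs) 2
  have sq_le' : ∀ s ∈ S, R' ^ 2 ≤ ‖s - z'‖ ^ 2 := fun s hs => pow_le_pow_left₀ hR' (hS' s hs) 2
  have hαp : 0 < α := pos_of_off hα hsum hxe (hoff b hbS c hcS)
  have hβp : 0 < β := pos_of_off (a := b) (b := a) (c := c) hβ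
    (β := α) (γ := γ) (by linarith) (by rw [hxe]; ring) (hoff a haS c hcS)
  have hγp : 0 < γ := pos_of_off (a := c) (b := a) (c := b) hγ
    (β := α) (γ := β) (by linarith) (by rw [hxe]; ring) (hoff a haS b hbS)
  have l1 := mul_nonneg hα (sub_nonneg.2 (sq_le' a haS))
  have l2 := mul_nonneg hβ (sub_nonneg.2 (sq_le' b hbS))
  have l3 := mul_nonneg hγ (sub_nonneg.2 (sq_le' c hcS))
  have m1 := mul_nonneg hα' (sub_nonneg.2 (sq_le a' ha'S))
  have m2 := mul_nonneg hβ' (sub_nonneg.2 (sq_le b' hb'S))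
  have m3' := mul_nonneg hγ' (sub_nonneg.2 (sq_le c' hc'S))
  have E1 : ‖x - z‖ ^ 2 - ‖x - z'‖ ^ 2 = (R ^ 2 - R' ^ 2) - (α * (‖a - z'‖ ^ 2 - R' ^ 2) +
      β * (‖b - z'‖ ^ 2 - R' ^ 2) + γ * (‖c - z'‖ ^ 2 - R' ^ 2)) := by
    rw [e]
    have : α = 1 - β - γ := by linarith
    rw [this]; ring
  have E2 : ‖x - z‖ ^ 2 - ‖x - z'‖ ^ 2 = (R ^ 2 - R' ^ 2) + (α' * (‖a' - z‖ ^ 2 - R ^ 2) +
      β' * (‖b' - z‖ ^ 2 - R ^ 2) + γ' * (‖c' - z‖ ^ 2 - R ^ 2)) := by
    rw [e']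
    have : α' = 1 - β' - γ' := by linarith
    rw [this]; ring
  have z1 : α * (‖a - z'‖ ^ 2 - R' ^ 2) = 0 := by linarith
  have z2 : β * (‖b - z'‖ ^ 2 - R' ^ 2) = 0 := by linarith
  have z3 : γ * (‖c - z'‖ ^ 2 - R' ^ 2) = 0 := by linarith
  have root : ∀ (s : ℂ) (l : ℝ), 0 < l → l * (‖s - z'‖ ^ 2 - R' ^ 2) = 0 → ‖s - z'‖ = R' := by
    intro s l hl h0
    have : ‖s - z'‖ ^ 2 = R' ^ 2 := by
      rcases mul_eq_zero.1 h0 with h | h
      · exact absurd h hl.ne'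
      · linarith
    exact (sq_eq_sq₀ (norm_nonneg _) hR').1 this
  have ra := root a α hαp z1
  have rb := root b β hβp z2
  have rc := root c γ hγp z3
  have f1 : ({a, b, c} : Finset ℂ) ⊆ S.filter (fun s => ‖s - z'‖ = R') := by
    intro v hv
    simp only [Finset.mem_insert, Finset.mem_singleton] at hv
    rw [Finset.mem_filter]
    rcases hv with rfl | rfl | rfl
    · exact ⟨haS, ra⟩
    · exact ⟨hbS, rb⟩
    · exact ⟨hcS, rc⟩
  have f2 : ({a', b', c'} : Finset ℂ) ⊆ S.filter (fun s => ‖s - z'‖ = R') := by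
    intro v hv
    rw [Finset.mem_filter]
    exact ⟨ht'S hv, ht'z v hv⟩
  have g1 := Finset.eq_of_subset_of_card_le f1 (by rw [htc]; exact hGP z' R')
  have g2 := Finset.eq_of_subset_of_card_le f2 (by rw [ht'c]; exact hGP z' R')
  rw [g1, g2]

end Q126.MD
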