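import Pool.Agent.Q126.MD.Stmts2

namespace Q126.MD

open MeasureTheory Set

theorem Upper : TaskUpper := by
  intro hbd hlim Ω hΩ hb hne
  obtain ⟨B, hB⟩ := hb.subset_ball_lt 0 0
  obtain ⟨hB0, hB⟩ := hB
  have hBn : ∀ x ∈ Ω, ‖x‖ < B := fun x hx => by simpa using hB hx
  have hout : ((B : ℝ) : ℂ) ∈ Ωᶜ := by
    intro h
    have := hBn _ h
    rw [Complex.norm_real, Real.norm_of_nonneg hB0.le] at this
    exact lt_irrefl _ this
  have hle : ∀ x ∈ Ω, bdist Ω x ≤ 2 * B := by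
    intro x hx
    rw [(hbd Ω x hΩ hb hx).1]
    refine (Metric.infDist_le_dist_of_mem hout).trans ?_
    rw [dist_eq_norm]
    refine (norm_sub_le _ _).trans ?_
    rw [Complex.norm_real, Real.norm_of_nonneg hB0.le]
    have := hBn x hx
    linarith
  have hbdd : BddAbove (bdist Ω '' Ω) := ⟨2 * B, by rintro _ ⟨x, hx, rfl⟩; exact hle x hx⟩
  obtain ⟨x0, hx0⟩ := hne
  have hρpos : 0 < inradius Ω := lt_of_lt_of_le (hbd Ω x0 hΩ hb hx0).2
    (le_csSup hbdd ⟨x0, hx0, rfl⟩)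
  have hne' : (bdist Ω '' Ω).Nonempty := ⟨bdist Ω x0, x0, hx0, rfl⟩
  have hρle : inradius Ω ≤ 2 * B + 1 := by
    have h1 : inradius Ω ≤ 2 * B := csSup_le hne' (by rintro _ ⟨x, hx, rfl⟩; exact hle x hx)
    linarith
  have main := hlim Ω (2 * B + 1) (inradius Ω) hΩ (fun x hx => (hBn x hx).trans (by linarith))
    (by linarith) hρpos hρle (fun x hx => by
      rw [← (hbd Ω x hΩ hb hx).1]
      exact le_csSup hbdd ⟨x, hx, rfl⟩)
  have hint : ∫ x in Ω, bdist Ω x = ∫ x in Ω, Metric.infDist x Ωᶜ :=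
    setIntegral_congr_fun hΩ.measurableSet (fun x hx => (hbd Ω x hΩ hb hx).1)
  have hvol : 0 < (volume Ω).toReal :=
    ENNReal.toReal_pos (hΩ.measure_pos volume ⟨x0, hx0⟩).ne' hb.measure_lt_top.ne
  unfold F
  rw [div_le_iff₀ hρpos, setAverage_eq, hint, smul_eq_mul]
  change ((volume Ω).toReal)⁻¹ * _ ≤ _
  rw [inv_mul_le_iff₀ hvol]
  linarith

end Q126.MD
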