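import Pool.Agent.Q126.MD.TaskSplit

set_option autoImplicit false

open MeasureTheory Set

namespace Q126.MD

/-- the standard triangle -/
def S0 : Set (ℝ × ℝ) := {p | 0 ≤ p.1 ∧ 0 ≤ p.2 ∧ p.1 + p.2 ≤ 1}

lemma S0_meas : MeasurableSet S0 := by
  have h : S0 = {p : ℝ × ℝ | 0 ≤ p.1} ∩ ({p | 0 ≤ p.2} ∩ {p | p.1 + p.2 ≤ 1}) := by
    ext p; simp [S0]
  rw [h]
  exact (measurableSet_le measurable_const measurable_fst).inter
    ((measurableSet_le measurable_const measurable_snd).inter
      (measurableSet_le (measurable_fst.add measurable_snd) measurable_const))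

lemma S0_vol : volume S0 = ENNReal.ofReal (1 / 2) := by
  rw [Measure.volume_eq_prod, Measure.prod_apply S0_meas]
  have h : (fun x : ℝ => volume (Prod.mk x ⁻¹' S0)) =
      (Icc (0 : ℝ) 1).indicator fun x => ENNReal.ofReal (1 - x) := by
    funext x
    by_cases hx : x ∈ Icc (0 : ℝ) 1
    · rw [indicator_of_mem hx]
      have : Prod.mk x ⁻¹' S0 = Icc 0 (1 - x) := by
        ext y
        simp only [S0, mem_preimage, mem_setOf_eq, mem_Icc]
        constructor
        · rintro ⟨h1, h2, h3⟩; exact ⟨h2, by linarith⟩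
        · rintro ⟨h1, h2⟩; exact ⟨hx.1, h1, by linarith⟩
      rw [this, Real.volume_Icc, sub_zero]
    · rw [indicator_of_notMem hx]
      have : Prod.mk x ⁻¹' S0 = ∅ := by
        ext y
        simp only [S0, mem_preimage, mem_setOf_eq, mem_empty_iff_false, iff_false]
        rintro ⟨h1, h2, h3⟩
        exact hx ⟨h1, by linarith⟩
      rw [this, measure_empty]
  rw [h, lintegral_indicator measurableSet_Icc, ← ofReal_integral_eq_lintegral_ofReal]
  · congr 1
    rw [integral_Icc_eq_integral_Ioc, ← intervalIntegral.integral_of_le zero_le_one,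
      intervalIntegral.integral_sub (by simp) (by simp)]
    norm_num [integral_id]
  · exact (Continuous.integrableOn_Icc (by fun_prop))
  · refine (ae_restrict_iff' measurableSet_Icc).2 (Filter.Eventually.of_forall fun x hx => ?_)
    simpa using hx.2

/-- the linear map with columns `u`, `v` -/
noncomputable def Lm (u v : ℂ) : ℂ →ₗ[ℝ] ℂ where
  toFun x := x.re * u + x.im * v
  map_add' x y := by
    simp only [Complex.add_re, Complex.add_im]
    push_cast
    ring
  map_smul' r x := by
    simp only [Complex.real_smul, RingHom.id_apply, Complex.mul_re, Complex.mul_im,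
      Complex.ofReal_re, Complex.ofReal_im]
    push_cast
    ring

lemma Lm_det (u v : ℂ) : LinearMap.det (Lm u v) = u.re * v.im - u.im * v.re := by
  rw [← LinearMap.det_toMatrix Complex.basisOneI, Matrix.det_fin_two]
  simp [LinearMap.toMatrix_apply, Lm]
  ring

lemma T_image (a b c : ℂ) : T a b c = (fun x => a + x) '' (Lm (b - a) (c - a) ''
    (Complex.measurableEquivRealProd ⁻¹' S0)) := by
  ext x
  rw [mem_T_iff]
  simp only [mem_image, mem_preimage]
  constructor
  · rintro ⟨p, q, r, h1, h2, h3, h4, rfl⟩
    refine ⟨_, ⟨⟨q, r⟩, ⟨?_, ?_, ?_⟩, rfl⟩, ?_⟩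
    · simpa using h2
    · simpa using h3
    · simp
      linarith
    · simp only [Lm, LinearMap.coe_mk, AddHom.coe_mk]
      have : (p : ℂ) = 1 - q - r := by
        have : p = 1 - q - r := by linarith
        rw [this]; push_cast; ring
      rw [this]
      ring
  · rintro ⟨_, ⟨y, ⟨h1, h2, h3⟩, rfl⟩, rfl⟩
    simp only [Complex.measurableEquivRealProd_apply] at h1 h2 h3
    refine ⟨1 - y.re - y.im, y.re, y.im, by linarith, h1, h2, by ring, ?_⟩
    simp only [Lm, LinearMap.coe_mk, AddHom.coe_mk]
    push_cast
    ring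

theorem taskVol : TaskVol := by
  intro a b c
  rw [T_image, image_add_left, measure_preimage_add, Measure.addHaar_image_linearMap,
    (Complex.volume_preserving_equiv_real_prod).measure_preimage S0_meas.nullMeasurableSet,
    S0_vol, ← ENNReal.ofReal_mul (abs_nonneg _), Lm_det]
  congr 1
  rw [← abs_neg]
  have : -((b - a).re * (c - a).im - (b - a).im * (c - a).re) =
      ((b - a) * (starRingEnd ℂ) (c - a)).im := by
    rw [Complex.mul_im, Complex.conj_re, Complex.conj_im]
    ring
  rw [this]
  ring

end Q126.MD
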